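import Pool.Agent.Work.MP_63d866_gt.Skein

/-! The Conway polynomial of the torus links. -/

namespace Pool.Agent.Work.MP_63d866_gt

open Polynomial

/-- the letters of the torus links -/
def tl (i : ℕ) (b : Bool) : Letter := ⟨i, xor b (decide (i % 2 = 1)), true⟩

@[simp] lemma tl_lab (i : ℕ) (b : Bool) : (tl i b).lab = i := rfl
@[simp] lemma tl_pos (i : ℕ) (b : Bool) : (tl i b).pos = true := rfl
lemma tl_top (i : ℕ) (b : Bool) : (tl i b).top = xor b (decide (i % 2 = 1)) := rfl
lemma tl_mate (i : ℕ) (b : Bool) : (tl i b).mate = tl i (!b) := by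
  unfold tl Letter.mate
  cases b <;> simp

lemma strand_zero (b : Bool) : strand 0 b = [] := rfl

lemma strand_succ (n : ℕ) (b : Bool) : strand (n + 1) b = strand n b ++ [tl n b] := by
  unfold strand
  rw [List.range_succ, List.map_append]
  rfl

lemma mem_strand {n : ℕ} {b : Bool} {a : Letter} : a ∈ strand n b ↔ ∃ i < n, tl i b = a := by
  unfold strand
  simp only [List.mem_map, List.mem_range]
  rfl

lemma strand_nodup (n : ℕ) (b : Bool) : (strand n b).Nodup := by
  unfold strand
  refine List.nodup_range.map ?_
  intro i j h
  have := congrArg Letter.lab h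
  simpa using this

lemma torus_flatten (n : ℕ) : (torus n).flatten = strand n true ++ strand n false := by
  unfold torus
  split_ifs <;> simp

lemma torus_mem {n : ℕ} {a : Letter} :
    a ∈ (torus n).flatten ↔ ∃ i < n, tl i true = a ∨ tl i false = a := by
  rw [torus_flatten, List.mem_append, mem_strand, mem_strand]
  constructor
  · rintro (⟨i, h1, h2⟩ | ⟨i, h1, h2⟩)
    · exact ⟨i, h1, Or.inl h2⟩
    · exact ⟨i, h1, Or.inr h2⟩
  · rintro ⟨i, h1, h2 | h2⟩
    · exact Or.inl ⟨i, h1, h2⟩
    · exact Or.inr ⟨i, h1, h2⟩

lemma tl_ne (i j : ℕ) : tl i true ≠ tl j false := by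
  intro h
  have h1 : i = j := congrArg Letter.lab h
  subst h1
  have h2 := congrArg Letter.top h
  rw [tl_top, tl_top] at h2
  revert h2
  cases decide (i % 2 = 1) <;> simp

lemma torus_valid (n : ℕ) : Valid (torus n) := by
  refine ⟨?_, ?_, ?_⟩
  · rw [torus_flatten, List.nodup_append]
    refine ⟨strand_nodup n _, strand_nodup n _, ?_⟩
    intro a ha b hb hab
    obtain ⟨i, _, rfl⟩ := mem_strand.mp ha
    obtain ⟨j, _, rfl⟩ := mem_strand.mp hb
    exact tl_ne i j hab
  · intro a ha
    rw [torus_mem] at ha ⊢
    obtain ⟨i, hi, rfl | rfl⟩ := ha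
    · exact ⟨i, hi, Or.inr (by rw [tl_mate]; rfl)⟩
    · exact ⟨i, hi, Or.inl (by rw [tl_mate]; rfl)⟩
  · intro a ha b hb hab
    rw [torus_mem] at ha hb
    obtain ⟨i, _, hi⟩ := ha
    obtain ⟨j, _, hj⟩ := hb
    have : i = j := by
      rcases hi with rfl | rfl <;> rcases hj with rfl | rfl <;> exact hab
    subst this
    rcases hi with rfl | rfl <;> rcases hj with rfl | rfl
    · exact Or.inl rfl
    · right; rw [tl_mate]; rfl
    · right; rw [tl_mate]; rfl
    · exact Or.inl rfl

lemma along_strands (i o gi go : Letter → ℤ) (hgi : gi = fun a => if a.top then 0 else - i a.mate)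
    (hgo : go = fun a => if a.top then - o a.mate else 0) : ∀ (n : ℕ) (c c' d d' : ℤ),
    Along i o c (strand n true) c' → Along i o d (strand n false) d' →
    Along gi go 0 (strand n true) (if n % 2 = 0 then 0 else - d') ∧
      Along gi go (-c) (strand n false) (if n % 2 = 0 then - c' else 0) := by
  intro n
  induction n with
  | zero =>
    intro c c' d d' h1 h2
    rw [strand_zero, along_nil] at h1 h2 ⊢
    rw [strand_zero, along_nil, h1]
    simp
  | succ n ih =>
    intro c c' d d' h1 h2
    rw [strand_succ] at h1 h2 ⊢
    rw [strand_succ]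
    obtain ⟨m, h3, h4⟩ := along_append.mp h1
    obtain ⟨m', h5, h6⟩ := along_append.mp h2
    obtain ⟨h7, h8⟩ := along_cons.mp h4
    obtain ⟨h9, h10⟩ := along_cons.mp h6
    rw [along_nil] at h8 h10
    obtain ⟨i1, i2⟩ := ih c m d m' h3 h5
    have ht : (tl n true).mate = tl n false := tl_mate n true
    have hf : (tl n false).mate = tl n true := tl_mate n false
    rcases Nat.mod_two_eq_zero_or_one n with hn | hn
    · have hn' : ¬ (n + 1) % 2 = 0 := by omega
      have e1 : (tl n true).top = true := by rw [tl_top]; simp [hn]
      have e2 : (tl n false).top = false := by rw [tl_top]; simp [hn]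
      rw [if_pos hn] at i1 i2
      rw [if_neg hn', if_neg hn']
      refine ⟨along_append.mpr ⟨_, i1, ?_, ?_⟩, along_append.mpr ⟨_, i2, ?_, ?_⟩⟩
      · simp [hgi, e1]
      · rw [along_nil]; simp [hgo, e1, ht, h10]
      · simp [hgi, e2, hf, h7]
      · rw [along_nil]; simp [hgo, e2]
    · have hn' : (n + 1) % 2 = 0 := by omega
      have hn0 : ¬ n % 2 = 0 := by omega
      have e1 : (tl n true).top = false := by rw [tl_top]; simp [hn]
      have e2 : (tl n false).top = true := by rw [tl_top]; simp [hn]
      rw [if_neg hn0] at i1 i2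
      rw [if_pos hn', if_pos hn']
      refine ⟨along_append.mpr ⟨_, i1, ?_, ?_⟩, along_append.mpr ⟨_, i2, ?_, ?_⟩⟩
      · simp [hgi, e1, ht, h9]
      · rw [along_nil]; simp [hgo, e1]
      · simp [hgi, e2]
      · rw [along_nil]; simp [hgo, e2, hf, h8]

lemma torus_planar (n : ℕ) : Planar (torus n) := by
  intro i o hio _
  refine ⟨fun a => if a.top then 0 else - i a.mate, fun a => if a.top then - o a.mate else 0,
    ?_, ?_⟩
  · unfold torus at hio ⊢
    by_cases hn : n % 2 = 0
    · rw [if_pos hn] at hio ⊢
      rw [edgeFun_cons, edgeFun_cons] at hio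
      obtain ⟨⟨c, hc⟩, ⟨d, hd⟩, _⟩ := hio
      obtain ⟨h1, h2⟩ := along_strands i o _ _ rfl rfl n c c d d hc hd
      rw [if_pos hn] at h1 h2
      rw [edgeFun_cons, edgeFun_cons]
      exact ⟨⟨0, h1⟩, ⟨-c, h2⟩, by intro w hw; simp at hw⟩
    · rw [if_neg hn] at hio ⊢
      rw [edgeFun_cons] at hio
      obtain ⟨⟨c, hc⟩, _⟩ := hio
      obtain ⟨m, h3, h4⟩ := along_append.mp hc
      obtain ⟨h1, h2⟩ := along_strands i o _ _ rfl rfl n c m m c h3 h4
      rw [if_neg hn] at h1 h2
      rw [edgeFun_cons]
      exact ⟨⟨0, along_append.mpr ⟨-c, h1, h2⟩⟩, by intro w hw; simp at hw⟩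
  · intro a ha hat
    have hpos : a.pos = true := by
      obtain ⟨j, _, rfl | rfl⟩ := torus_mem.mp ha <;> rfl
    rw [hpos] at hat
    simp [hat]

lemma torus_diagram (n : ℕ) : Diagram (torus n) := ⟨torus_valid n, torus_planar n⟩

lemma empty_diagram : Diagram [] := by
  refine ⟨⟨by simp, by simp, by simp⟩, ?_⟩
  intro i o _ _
  exact ⟨fun _ => 0, fun _ => 0, by intro w hw; simp at hw, by simp⟩

variable {P : Code → ℤ[X]}

lemma conway_torus_zero (hP : IsConway P) : P (torus 0) = 0 :=
  hP.circle (v := []) (R := []) empty_diagram.circle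

lemma conway_torus_one (hP : IsConway P) : P (torus 1) = 1 := by
  have h1 : torus 1 = (tl 0 true :: (tl 0 true).mate :: []) :: [] := rfl
  rw [h1, hP.kink (v := []) (R := []) empty_diagram.circle (by simp), hP.unknot]

/-- strands do not meet later crossings -/
lemma erase_strand {n : ℕ} {b : Bool} {α : List Letter} (h : ∀ a ∈ α, n ≤ a.lab) :
    eraseLabs α (strand n b) = strand n b := by
  refine eraseLabs_self fun c hc a ha => ?_
  obtain ⟨i, hi, rfl⟩ := mem_strand.mp hc
  have := h a ha
  rw [tl_lab]
  omega

lemma conway_torus_rec (hP : IsConway P) (n : ℕ) :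
    P (torus (n + 2)) = P (torus n) + X * P (torus (n + 1)) := by
  set a := tl (n + 1) true with ha
  set b := tl n true with hb
  have ham : a.mate = tl (n + 1) false := tl_mate _ _
  have hbm : b.mate = tl n false := tl_mate _ _
  have htop : a.switch.top = b.top := by
    rw [Letter.switch_top, ha, hb, tl_top, tl_top]
    rcases Nat.mod_two_eq_zero_or_one n with hn | hn
    · have : (n + 1) % 2 = 1 := by omega
      simp [hn, this]
    · have : (n + 1) % 2 = 0 := by omega
      simp [hn, this]
  have hα : ∀ c ∈ [b, a.switch], c.top = b.top := by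
    intro c hc
    rcases List.mem_cons.mp hc with rfl | hc
    · rfl
    · rw [List.mem_singleton.mp hc]; exact htop
  have hαl : ∀ c ∈ [b, a.switch], n ≤ c.lab := by
    intro c hc
    rcases List.mem_cons.mp hc with rfl | hc
    · exact le_refl n
    · rw [List.mem_singleton.mp hc]; exact Nat.le_succ n
  have hel : ∀ bb, eraseLabs [b, a.switch] (strand n bb) = strand n bb := fun bb =>
    erase_strand hαl
  have heb : eraseLabs [b, a.switch] [b.mate] = [] := eraseLabs_all (by simp)
  have hea : eraseLabs [b, a.switch] [a.mate.switch] = [] := eraseLabs_all (by simp)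
  have hL2 : strand (n + 2) true = strand (n + 1) true ++ [a] := strand_succ _ _
  have hR2 : strand (n + 2) false = strand (n + 1) false ++ [a.mate] := by
    rw [ham]; exact strand_succ _ _
  have hL1 : strand (n + 1) true = strand n true ++ [b] := strand_succ _ _
  have hR1 : strand (n + 1) false = strand n false ++ [b.mate] := by
    rw [hbm]; exact strand_succ _ _
  have hD2 := torus_diagram (n + 2)
  have hD0 := torus_diagram n
  rcases Nat.mod_two_eq_zero_or_one n with hn | hn
  · -- two components
    have hn1 : ¬ (n + 1) % 2 = 0 := by omega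
    have hn2 : (n + 2) % 2 = 0 := by omega
    have t2 : torus (n + 2) = [strand (n + 1) true ++ [a], strand (n + 1) false ++ [a.mate]] := by
      unfold torus
      rw [if_pos hn2, hL2, hR2]
    have t1 : torus (n + 1) = [strand (n + 1) true ++ strand (n + 1) false] := by
      unfold torus
      rw [if_neg hn1]
    have t0 : torus n = [strand n true, strand n false] := by
      unfold torus
      rw [if_pos hn]
    rw [t2] at hD2
    rw [t0] at hD0
    rw [t0, t1, t2]
    have d1 := hD2.rotate
    have d2 := d1.perm (List.Perm.swap _ _ _)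
    have d3 := d2.rotate
    have d4 : Diagram ((a :: strand (n + 1) true) :: (a.mate :: strand (n + 1) false) :: []) :=
      d3.perm (List.Perm.swap _ _ _)
    have e : P [strand (n + 1) true ++ [a], strand (n + 1) false ++ [a.mate]]
        = P ((a :: strand (n + 1) true) :: (a.mate :: strand (n + 1) false) :: []) := by
      rw [hP.rotate hD2, hP.perm d1 (List.Perm.swap _ _ _), hP.rotate d2,
        hP.perm d3 (List.Perm.swap _ _ _)]
      rfl
    have hs := hP.skein _ _ _ d4 (Skein.mixed a _ _ _ rfl)
    have d5 := d4.switch_mixed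
    have d5' : Diagram (((a.switch :: strand n true) ++ [b]) ::
        (a.mate.switch :: strand (n + 1) false) :: []) := by
      rw [hL1] at d5; exact d5
    have e5 : P ((a.switch :: strand (n + 1) true) ::
        (a.mate.switch :: strand (n + 1) false) :: []) = P [strand n true, strand n false] := by
      have h1 : P (((a.switch :: strand n true) ++ [b]) ::
        (a.mate.switch :: strand (n + 1) false) :: []) = _ := hP.rotate d5'
      have h2 : (a.switch :: strand (n + 1) true) = (a.switch :: strand n true) ++ [b] := by
        rw [hL1]; rfl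
      rw [h2, h1]
      refine hP.move d5'.rotate hD0 ?_
      have hm := Move.arc b.top [b, a.switch] [] (strand n true) (strand n true)
        [a.mate.switch :: strand (n + 1) false] [strand n false] hα (by simp) (by
          rw [map_eraseLabs_nil, List.map_cons, List.map_cons, List.map_nil, hel]
          congr 2
          have : a.mate.switch :: strand (n + 1) false
              = [a.mate.switch] ++ (strand n false ++ [b.mate]) := by rw [hR1]; rfl
          rw [this, eraseLabs_append, eraseLabs_append, hel, heb, hea]
          simp)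
      exact hm
    rw [e, ← e5]
    rw [← hs]
    ring
  · have hn1 : (n + 1) % 2 = 0 := by omega
    have hn2 : ¬ (n + 2) % 2 = 0 := by omega
    have hn0 : ¬ n % 2 = 0 := by omega
    have t2 : torus (n + 2)
        = [strand (n + 1) true ++ (a :: strand (n + 1) false ++ [a.mate])] := by
      unfold torus
      rw [if_neg hn2, hL2, hR2]
      simp
    have t1 : torus (n + 1) = [strand (n + 1) true, strand (n + 1) false] := by
      unfold torus
      rw [if_pos hn1]
    have t0 : torus n = [strand n true ++ strand n false] := by
      unfold torus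
      rw [if_neg hn0]
    rw [t2] at hD2
    rw [t0] at hD0
    rw [t0, t1, t2]
    have d1 := hD2.rotate
    have hre : (a :: strand (n + 1) false ++ [a.mate]) ++ strand (n + 1) true
        = a :: strand (n + 1) false ++ a.mate :: strand (n + 1) true := by simp
    rw [hre] at d1
    have e : P [strand (n + 1) true ++ (a :: strand (n + 1) false ++ [a.mate])]
        = P [a :: strand (n + 1) false ++ a.mate :: strand (n + 1) true] := by
      rw [hP.rotate hD2, hre]
    have hs := hP.skein _ _ _ d1 (Skein.self a _ _ _ rfl)
    have d2 := d1.smooth_self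
    have e2 := hP.perm d2 (List.Perm.swap _ _ _)
    have d5 := d1.switch_self
    have hsp : (a.switch :: strand (n + 1) false ++ a.mate.switch :: strand (n + 1) true)
        = (a.switch :: (strand (n + 1) false ++ a.mate.switch :: strand n true)) ++ [b] := by
      rw [hL1]; simp
    have e5 : P [a.switch :: strand (n + 1) false ++ a.mate.switch :: strand (n + 1) true]
        = P [strand n true ++ strand n false] := by
      rw [hsp] at d5 ⊢
      rw [hP.rotate d5, hP.rotate hD0]
      refine hP.move d5.rotate hD0.rotate ?_
      have hm := Move.arc b.top [b, a.switch] []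
        (strand (n + 1) false ++ a.mate.switch :: strand n true)
        (strand n false ++ strand n true) [] [] hα (by simp) (by
          rw [map_eraseLabs_nil, List.map_cons, List.map_nil]
          congr 1
          have : strand (n + 1) false ++ a.mate.switch :: strand n true
              = (strand n false ++ [b.mate]) ++ ([a.mate.switch] ++ strand n true) := by
            rw [hR1]; rfl
          rw [this, eraseLabs_append, eraseLabs_append, eraseLabs_append, hel, hel, heb, hea]
          simp)
      exact hm
    rw [e, ← e5, ← e2, ← hs]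
    ring

/-- the coefficients of the torus links -/
theorem conway_torus (hP : IsConway P) : ∀ (n k : ℕ), n % 2 = (k + 1) % 2 →
    (P (torus n)).coeff k = (((n + k - 1) / 2).choose k : ℕ) := by
  intro n
  induction n using Nat.strong_induction_on with
  | _ n ih =>
    intro k hk
    rcases n with _ | _ | n
    · rw [conway_torus_zero hP, coeff_zero, Nat.choose_eq_zero_of_lt (by omega)]
      rfl
    · rw [zero_add, conway_torus_one hP, coeff_one]
      by_cases hk0 : k = 0
      · subst hk0; simp
      · rw [if_neg hk0, Nat.choose_eq_zero_of_lt (by omega)]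
        rfl
    · have hrec : P (torus (n + 1 + 1)) = P (torus n) + X * P (torus (n + 1)) :=
        conway_torus_rec hP n
      rw [hrec, coeff_add, ih n (by omega) k (by omega)]
      rcases k with _ | k
      · rw [coeff_X_mul_zero]
        simp
      · rw [coeff_X_mul, ih (n + 1) (by omega) k (by omega)]
        have e1 : (n + (k + 1) - 1) / 2 = (n + k) / 2 := by omega
        have e2 : (n + 1 + k - 1) / 2 = (n + k) / 2 := by omega
        have e3 : (n + 1 + 1 + (k + 1) - 1) / 2 = (n + k) / 2 + 1 := by omega
        rw [e1, e2, e3, Nat.choose_succ_succ]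
        push_cast
        ring

end Pool.Agent.Work.MP_63d866_gt
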