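import Pool.Agent.Work.MP_63d866_gt.Defs

/-! Basic lemmas on letters and on `Along`. -/

namespace Pool.Agent.Work.MP_63d866_gt

@[simp] lemma Letter.mate_lab (a : Letter) : a.mate.lab = a.lab := rfl
@[simp] lemma Letter.mate_top (a : Letter) : a.mate.top = !a.top := rfl
@[simp] lemma Letter.mate_pos (a : Letter) : a.mate.pos = a.pos := rfl
@[simp] lemma Letter.mate_mate (a : Letter) : a.mate.mate = a := by
  cases a; simp [Letter.mate]
@[simp] lemma Letter.switch_lab (a : Letter) : a.switch.lab = a.lab := rfl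
@[simp] lemma Letter.switch_top (a : Letter) : a.switch.top = !a.top := rfl
@[simp] lemma Letter.switch_pos (a : Letter) : a.switch.pos = !a.pos := rfl
@[simp] lemma Letter.switch_switch (a : Letter) : a.switch.switch = a := by
  cases a; simp [Letter.switch]
lemma Letter.mate_ne (a : Letter) : a.mate ≠ a := by
  intro h
  have := congrArg Letter.top h
  simp at this
lemma Letter.mate_inj {a b : Letter} (h : a.mate = b.mate) : a = b := by
  rw [← a.mate_mate, h, b.mate_mate]
lemma Letter.switch_inj {a b : Letter} (h : a.switch = b.switch) : a = b := by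
  rw [← a.switch_switch, h, b.switch_switch]
lemma Letter.mate_switch (a : Letter) : a.mate.switch = a.switch.mate := by
  cases a; simp [Letter.switch, Letter.mate]

section along
variable {Y : Type} {i o : Letter → Y}

@[simp] lemma along_nil {c c' : Y} : Along i o c [] c' ↔ c = c' := Iff.rfl
@[simp] lemma along_cons {c c' : Y} {a : Letter} {w : List Letter} :
    Along i o c (a :: w) c' ↔ i a = c ∧ Along i o (o a) w c' := Iff.rfl

lemma along_append {c c' : Y} {u v : List Letter} :
    Along i o c (u ++ v) c' ↔ ∃ m, Along i o c u m ∧ Along i o m v c' := by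
  induction u generalizing c with
  | nil => simp
  | cons a u ih =>
    simp only [List.cons_append, along_cons, ih]
    constructor
    · rintro ⟨h, m, h1, h2⟩; exact ⟨m, ⟨h, h1⟩, h2⟩
    · rintro ⟨m, ⟨h, h1⟩, h2⟩; exact ⟨h, m, h1, h2⟩

lemma Along.unique {c c₁ c₂ : Y} {u : List Letter} (h₁ : Along i o c u c₁)
    (h₂ : Along i o c u c₂) : c₁ = c₂ := by
  induction u generalizing c with
  | nil => rw [along_nil] at h₁ h₂; rw [← h₁, ← h₂]
  | cons a u ih => exact ih h₁.2 h₂.2

lemma along_congr {i' o' : Letter → Y} {c c' : Y} {u : List Letter}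
    (hi : ∀ a ∈ u, i a = i' a) (ho : ∀ a ∈ u, o a = o' a) (h : Along i o c u c') :
    Along i' o' c u c' := by
  induction u generalizing c with
  | nil => exact h
  | cons a u ih =>
    rw [along_cons] at h ⊢
    refine ⟨?_, ?_⟩
    · rw [← hi a (by simp)]; exact h.1
    · rw [← ho a (by simp)]
      exact ih (fun b hb => hi b (by simp [hb])) (fun b hb => ho b (by simp [hb])) h.2

/-- a word closes up -/
def Closed (i o : Letter → Y) (w : List Letter) : Prop := ∃ c, Along i o c w c

lemma closed_congr {i' o' : Letter → Y} {u : List Letter}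
    (hi : ∀ a ∈ u, i a = i' a) (ho : ∀ a ∈ u, o a = o' a) (h : Closed i o u) :
    Closed i' o' u := by
  obtain ⟨c, hc⟩ := h
  exact ⟨c, along_congr hi ho hc⟩

lemma closed_rotate {u v : List Letter} (h : Closed i o (u ++ v)) : Closed i o (v ++ u) := by
  obtain ⟨c, hc⟩ := h
  obtain ⟨m, h1, h2⟩ := along_append.mp hc
  exact ⟨m, along_append.mpr ⟨c, h2, h1⟩⟩

lemma closed_cons {a : Letter} {u : List Letter} :
    Closed i o (a :: u) ↔ Along i o (o a) u (i a) := by
  constructor
  · rintro ⟨c, h1, h2⟩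
    rw [h1]; exact h2
  · intro h
    exact ⟨i a, rfl, h⟩

/-- the start value is the value before some letter, or the end value -/
lemma Along.start {c c' : Y} {u : List Letter} (h : Along i o c u c') :
    c = c' ∨ ∃ a ∈ u, i a = c := by
  cases u with
  | nil => exact Or.inl h
  | cons a u => exact Or.inr ⟨a, by simp, h.1⟩

lemma Along.out_mem {c c' : Y} {u : List Letter} (h : Along i o c u c') :
    ∀ a ∈ u, o a = c' ∨ ∃ b ∈ u, i b = o a := by
  induction u generalizing c with
  | nil => simp
  | cons a u ih =>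
    intro b hb
    rcases List.mem_cons.mp hb with rfl | hb
    · rcases h.2.start with h1 | ⟨d, hd, h1⟩
      · exact Or.inl h1
      · exact Or.inr ⟨d, by simp [hd], h1⟩
    · rcases ih h.2 b hb with h1 | ⟨d, hd, h1⟩
      · exact Or.inl h1
      · exact Or.inr ⟨d, by simp [hd], h1⟩

/-- integrate along a word -/
lemma exists_potential [DecidableEq Y] (δ : Letter → ℝ) (y₁ : Y) (u : List Letter) :
    ∀ (y₀ : Y) (v₀ : ℝ), Along i o y₀ u y₁ → (u.map i).Nodup → y₁ ∉ u.map i →
      ∃ Φ : Y → ℝ, Φ y₀ = v₀ ∧ Φ y₁ = v₀ + (u.map δ).sum ∧ ∀ a ∈ u, Φ (o a) = Φ (i a) + δ a := by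
  induction u with
  | nil =>
    intro y₀ v₀ h _ _
    rw [along_nil] at h
    subst h
    exact ⟨fun _ => v₀, rfl, by simp, by simp⟩
  | cons a u ih =>
    intro y₀ v₀ h hnd hy
    obtain ⟨h1, h2⟩ := h
    rw [List.map_cons, List.nodup_cons] at hnd
    rw [List.map_cons, List.mem_cons, not_or] at hy
    obtain ⟨Φ, hΦ0, hΦ1, hΦ⟩ := ih (o a) (v₀ + δ a) h2 hnd.2 hy.2
    have hout : ∀ b ∈ a :: u, o b ≠ y₀ := by
      intro b hb
      have hstart : ∀ y, (y = y₁ ∨ ∃ d ∈ u, i d = y) → y ≠ y₀ := by
        rintro y (rfl | ⟨d, hd, rfl⟩)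
        · rw [← h1]; exact hy.1
        · rw [← h1]
          intro heq
          exact hnd.1 (heq ▸ List.mem_map_of_mem hd)
      rcases List.mem_cons.mp hb with rfl | hb
      · exact hstart _ h2.start
      · exact hstart _ (h2.out_mem b hb)
    refine ⟨Function.update Φ y₀ v₀, by simp, ?_, ?_⟩
    · have : y₁ ≠ y₀ := by rw [← h1]; exact hy.1
      rw [Function.update_of_ne this, hΦ1, List.map_cons, List.sum_cons]; ring
    · intro b hb
      rw [Function.update_of_ne (hout b hb)]
      rcases List.mem_cons.mp hb with rfl | hb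
      · rw [h1, Function.update_self, hΦ0]
      · have : i b ≠ y₀ := by
          rw [← h1]; intro heq
          exact hnd.1 (heq ▸ List.mem_map_of_mem hb)
        rw [Function.update_of_ne this, hΦ b hb]

lemma const_potential {Φ : Y → ℝ} {y₀ y₁ : Y} {u : List Letter} (h : Along i o y₀ u y₁)
    (hΦ : ∀ a ∈ u, Φ (o a) = Φ (i a)) : (∀ a ∈ u, Φ (i a) = Φ y₀) ∧ Φ y₁ = Φ y₀ := by
  induction u generalizing y₀ with
  | nil => rw [along_nil] at h; subst h; simp
  | cons a u ih =>
    obtain ⟨h1, h2⟩ := h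
    obtain ⟨h3, h4⟩ := ih h2 (fun b hb => hΦ b (by simp [hb]))
    have h5 : Φ (o a) = Φ y₀ := by rw [hΦ a (by simp), h1]
    refine ⟨fun b hb => ?_, by rw [h4, h5]⟩
    rcases List.mem_cons.mp hb with rfl | hb
    · rw [h1]
    · rw [h3 b hb, h5]

end along

end Pool.Agent.Work.MP_63d866_gt
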