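import Pool.Agent.Work.MP_63d866_gt.AlongLemmas

/-! Operations preserving diagrams. -/

namespace Pool.Agent.Work.MP_63d866_gt

lemma bool_flip {x y : Bool} (h : ¬ x = y) : (!x) = y := by
  revert h; cases x <;> cases y <;> simp

lemma edgeFun_cons {w : List Letter} {R : Code} {i o : Letter → ℤ} :
    EdgeFun (w :: R) i o ↔ Closed i o w ∧ EdgeFun R i o := by
  unfold EdgeFun Closed
  simp

lemma edgeFun_congr {W : Code} {i o i' o' : Letter → ℤ} (hi : ∀ a ∈ W.flatten, i a = i' a)
    (ho : ∀ a ∈ W.flatten, o a = o' a) (h : EdgeFun W i o) : EdgeFun W i' o' := by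
  intro w hw
  have hmem : ∀ a ∈ w, a ∈ W.flatten := fun a ha => List.mem_flatten.mpr ⟨w, hw, ha⟩
  exact closed_congr (fun a ha => hi a (hmem a ha)) (fun a ha => ho a (hmem a ha)) (h w hw)

lemma Valid.of_perm {W W' : Code} (h : Valid W) (hp : W.flatten.Perm W'.flatten) : Valid W' := by
  obtain ⟨h1, h2, h3⟩ := h
  refine ⟨hp.nodup_iff.mp h1, fun a ha => hp.mem_iff.mp (h2 a (hp.mem_iff.mpr ha)),
    fun a ha b hb => h3 a (hp.mem_iff.mpr ha) b (hp.mem_iff.mpr hb)⟩

lemma Planar.of_iff {W W' : Code} (h : Planar W) (hp : ∀ a, a ∈ W.flatten ↔ a ∈ W'.flatten)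
    (he : ∀ i o : Letter → ℤ, EdgeFun W i o ↔ EdgeFun W' i o) : Planar W' := by
  intro i o hio hfl
  obtain ⟨gi, go, hg, hc⟩ := h i o ((he i o).mpr hio) (fun a ha => hfl a ((hp a).mp ha))
  exact ⟨gi, go, (he gi go).mp hg, fun a ha => hc a ((hp a).mpr ha)⟩

lemma Diagram.perm {W W' : Code} (h : Diagram W) (hp : List.Perm W W') : Diagram W' := by
  refine ⟨h.1.of_perm hp.flatten, h.2.of_iff (fun a => hp.flatten.mem_iff) fun i o => ?_⟩
  unfold EdgeFun
  exact ⟨fun H w hw => H w (hp.mem_iff.mpr hw), fun H w hw => H w (hp.mem_iff.mp hw)⟩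

lemma Diagram.rotate {u v : List Letter} {R : Code} (h : Diagram ((u ++ v) :: R)) :
    Diagram ((v ++ u) :: R) := by
  have hp : ((u ++ v) :: R).flatten.Perm ((v ++ u) :: R).flatten := by
    simp only [List.flatten_cons]
    exact List.Perm.append_right _ List.perm_append_comm
  refine ⟨h.1.of_perm hp, h.2.of_iff (fun a => hp.mem_iff) fun i o => ?_⟩
  rw [edgeFun_cons, edgeFun_cons]
  exact ⟨fun H => ⟨closed_rotate H.1, H.2⟩, fun H => ⟨closed_rotate H.1, H.2⟩⟩

/-- The letters `a`, `a.mate` do not occur elsewhere. -/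
lemma Valid.self_facts {a : Letter} {u v : List Letter} {R : Code}
    (h : Valid ((a :: u ++ a.mate :: v) :: R)) :
    ∀ c, c ∈ u ∨ c ∈ v ∨ c ∈ R.flatten → c.lab ≠ a.lab := by
  obtain ⟨h1, _, h3⟩ := h
  intro c hc hlab
  have hc' : c ∈ ((a :: u ++ a.mate :: v) :: R).flatten := by
    simp only [List.flatten_cons, List.mem_append, List.mem_cons]
    tauto
  have ha' : a ∈ ((a :: u ++ a.mate :: v) :: R).flatten := by simp
  have hnd : (a :: (u ++ a.mate :: (v ++ R.flatten))).Nodup := by simpa using h1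
  have hnd2 : (a.mate :: (u ++ (v ++ R.flatten))).Nodup :=
    (List.Perm.nodup_iff List.perm_middle).mp (List.nodup_cons.mp hnd).2
  rcases h3 a ha' c hc' hlab.symm with rfl | rfl
  · have := (List.nodup_cons.mp hnd).1
    apply this
    simp only [List.mem_append, List.mem_cons]
    tauto
  · have := (List.nodup_cons.mp hnd2).1
    apply this
    simp only [List.mem_append]
    tauto

lemma Valid.mixed_facts {a : Letter} {u v : List Letter} {R : Code}
    (h : Valid ((a :: u) :: (a.mate :: v) :: R)) :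
    ∀ c, c ∈ u ∨ c ∈ v ∨ c ∈ R.flatten → c.lab ≠ a.lab := by
  have h' : Valid ((a :: u ++ a.mate :: v) :: R) := by
    refine h.of_perm ?_
    simp
  exact h'.self_facts

section smoothing

variable {a : Letter} {u v : List Letter} {R : Code}

lemma Valid.smooth_self (h : Valid ((a :: u ++ a.mate :: v) :: R)) : Valid (u :: v :: R) := by
  have hf := h.self_facts
  obtain ⟨h1, h2, h3⟩ := h
  have hmem : ∀ c, c ∈ (u :: v :: R).flatten ↔ (c ∈ u ∨ c ∈ v ∨ c ∈ R.flatten) := by
    intro c; simp [List.flatten_cons]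
  have hsub : ∀ c, c ∈ (u :: v :: R).flatten → c ∈ ((a :: u ++ a.mate :: v) :: R).flatten := by
    intro c hc
    rw [hmem] at hc
    simp only [List.flatten_cons, List.mem_append, List.mem_cons]
    tauto
  refine ⟨?_, fun c hc => ?_, fun c hc d hd => h3 c (hsub c hc) d (hsub d hd)⟩
  · refine h1.sublist ?_
    simp only [List.flatten_cons]
    rw [← List.append_assoc]
    refine List.Sublist.append_right ?_ _
    simp only [List.cons_append]
    refine List.Sublist.cons _ (List.Sublist.append_left (List.sublist_cons_self _ _) _)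
  · have hc' := h2 c (hsub c hc)
    have hne := hf c ((hmem c).mp hc)
    rw [hmem]
    simp only [List.flatten_cons, List.mem_append, List.mem_cons] at hc'
    rcases hc' with ((h4 | h4) | h4 | h4) | h4
    · exact absurd (by rw [← h4]; rfl) hne
    · exact Or.inl h4
    · exact absurd (by have := congrArg Letter.lab h4; simpa using this) hne
    · exact Or.inr (Or.inl h4)
    · exact Or.inr (Or.inr h4)

lemma Valid.smooth_mixed (h : Valid ((a :: u) :: (a.mate :: v) :: R)) :
    Valid ((u ++ v) :: R) := by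
  have h' : Valid ((a :: u ++ a.mate :: v) :: R) := h.of_perm (by simp)
  exact h'.smooth_self.of_perm (by simp)

lemma Diagram.smooth_self (h : Diagram ((a :: u ++ a.mate :: v) :: R)) :
    Diagram (u :: v :: R) := by
  refine ⟨h.1.smooth_self, ?_⟩
  have hf := h.1.self_facts
  intro i o hio hfl
  rw [edgeFun_cons, edgeFun_cons] at hio
  obtain ⟨⟨c₁, hu⟩, ⟨c₂, hv⟩, hR⟩ := hio
  have hne : ∀ c, c ∈ u ∨ c ∈ v ∨ c ∈ R.flatten → c ≠ a ∧ c ≠ a.mate := by
    intro c hc
    have := hf c hc
    exact ⟨fun h => this (by rw [h]), fun h => this (by rw [h]; rfl)⟩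
  set i' : Letter → ℤ := fun c => if c = a then c₂ else if c = a.mate then c₁ else i c with hi'
  set o' : Letter → ℤ := fun c => if c = a then c₁ else if c = a.mate then c₂ else o c with ho'
  have hii : ∀ c, c ∈ u ∨ c ∈ v ∨ c ∈ R.flatten → i c = i' c := by
    intro c hc; simp [hi', (hne c hc).1, (hne c hc).2]
  have hoo : ∀ c, c ∈ u ∨ c ∈ v ∨ c ∈ R.flatten → o c = o' c := by
    intro c hc; simp [ho', (hne c hc).1, (hne c hc).2]
  have hma : a.mate ≠ a := a.mate_ne
  have e1 : i' a = c₂ := by simp [hi']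
  have e2 : o' a = c₁ := by simp [ho']
  have e3 : i' a.mate = c₁ := by simp [hi', hma]
  have e4 : o' a.mate = c₂ := by simp [ho', hma]
  obtain ⟨gi, go, hg, hc⟩ := h.2 i' o' (by
    rw [edgeFun_cons]
    refine ⟨?_, edgeFun_congr (fun c hc => hii c (by tauto)) (fun c hc => hoo c (by tauto)) hR⟩
    rw [List.cons_append, closed_cons, e1, e2]
    refine along_append.mpr ⟨c₁, along_congr (fun c hc => hii c (by tauto))
      (fun c hc => hoo c (by tauto)) hu, e3, ?_⟩
    rw [e4]
    exact along_congr (fun c hc => hii c (by tauto)) (fun c hc => hoo c (by tauto)) hv)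
    (by
      intro c hc
      by_cases hca : c.lab = a.lab
      · rcases h.1.2.2 a (by simp) c hc hca.symm with rfl | rfl
        · rw [e1, e2, e3, e4]; ring
        · rw [Letter.mate_mate, e1, e2, e3, e4]; ring
      · have hc' : c ∈ u ∨ c ∈ v ∨ c ∈ R.flatten := by
          simp only [List.flatten_cons, List.mem_append, List.mem_cons] at hc
          rcases hc with ((h4 | h4) | h4 | h4) | h4
          · exact absurd (by rw [h4]) hca
          · tauto
          · exact absurd (by rw [h4]; rfl) hca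
          · tauto
          · tauto
        have hcm : c.mate ∈ (u :: v :: R).flatten := h.1.smooth_self.2.1 c (by
          simpa [List.flatten_cons] using hc')
        have hcm' : c.mate ∈ u ∨ c.mate ∈ v ∨ c.mate ∈ R.flatten := by
          simpa [List.flatten_cons] using hcm
        rw [← hii c hc', ← hii _ hcm', ← hoo c hc', ← hoo _ hcm']
        exact hfl c (by simpa [List.flatten_cons] using hc'))
  rw [edgeFun_cons, List.cons_append, closed_cons] at hg
  obtain ⟨hg1, hgR⟩ := hg
  obtain ⟨m, hgu, hgm, hgv⟩ := along_append.mp hg1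
  have hkey : go a = gi a.mate ∧ go a.mate = gi a := by
    by_cases hap : a.top = a.pos
    · obtain ⟨h5, h6, h7⟩ := hc a (by simp) hap
      rw [e1] at h6
      rw [e4] at h7
      exact ⟨by rw [h6, h7], h5⟩
    · obtain ⟨h5, h6, h7⟩ := hc a.mate (by simp) (bool_flip hap)
      rw [Letter.mate_mate] at h5 h6 h7
      rw [e3] at h6
      rw [e2] at h7
      exact ⟨h5, by rw [h6, h7]⟩
  refine ⟨gi, go, ?_, ?_⟩
  · rw [edgeFun_cons, edgeFun_cons]
    refine ⟨⟨m, ?_⟩, ⟨gi a, ?_⟩, hgR⟩
    · rw [hkey.1, hgm] at hgu; exact hgu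
    · rw [← hkey.2] at hgv ⊢; exact hgv
  · intro c hcm hct
    have hc' : c ∈ u ∨ c ∈ v ∨ c ∈ R.flatten := by simpa [List.flatten_cons] using hcm
    have hcm2 : c.mate ∈ u ∨ c.mate ∈ v ∨ c.mate ∈ R.flatten := by
      have := h.1.smooth_self.2.1 c hcm
      simpa [List.flatten_cons] using this
    have := hc c (by
      simp only [List.flatten_cons, List.mem_append, List.mem_cons]; tauto) hct
    rw [← hii c hc', ← hoo _ hcm2] at this
    exact this

lemma Diagram.smooth_mixed (h : Diagram ((a :: u) :: (a.mate :: v) :: R)) :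
    Diagram ((u ++ v) :: R) := by
  refine ⟨h.1.smooth_mixed, ?_⟩
  have hf := h.1.mixed_facts
  have hval := h.1.smooth_mixed
  intro i o hio hfl
  rw [edgeFun_cons] at hio
  obtain ⟨⟨c, huv⟩, hR⟩ := hio
  obtain ⟨m, hu, hv⟩ := along_append.mp huv
  have hne : ∀ c, c ∈ u ∨ c ∈ v ∨ c ∈ R.flatten → c ≠ a ∧ c ≠ a.mate := by
    intro c hc
    have := hf c hc
    exact ⟨fun h => this (by rw [h]), fun h => this (by rw [h]; rfl)⟩
  set i' : Letter → ℤ := fun d => if d = a then m else if d = a.mate then c else i d with hi'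
  set o' : Letter → ℤ := fun d => if d = a then c else if d = a.mate then m else o d with ho'
  have hii : ∀ c, c ∈ u ∨ c ∈ v ∨ c ∈ R.flatten → i c = i' c := by
    intro c hc; simp [hi', (hne c hc).1, (hne c hc).2]
  have hoo : ∀ c, c ∈ u ∨ c ∈ v ∨ c ∈ R.flatten → o c = o' c := by
    intro c hc; simp [ho', (hne c hc).1, (hne c hc).2]
  have hma : a.mate ≠ a := a.mate_ne
  have e1 : i' a = m := by simp [hi']
  have e2 : o' a = c := by simp [ho']
  have e3 : i' a.mate = c := by simp [hi', hma]
  have e4 : o' a.mate = m := by simp [ho', hma]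
  obtain ⟨gi, go, hg, hc⟩ := h.2 i' o' (by
    rw [edgeFun_cons, edgeFun_cons]
    refine ⟨?_, ?_, edgeFun_congr (fun c hc => hii c (by tauto)) (fun c hc => hoo c (by tauto)) hR⟩
    · rw [closed_cons, e1, e2]
      exact along_congr (fun c hc => hii c (by tauto)) (fun c hc => hoo c (by tauto)) hu
    · rw [closed_cons, e3, e4]
      exact along_congr (fun c hc => hii c (by tauto)) (fun c hc => hoo c (by tauto)) hv)
    (by
      intro d hd
      by_cases hca : d.lab = a.lab
      · rcases h.1.2.2 a (by simp) d hd hca.symm with rfl | rfl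
        · rw [e1, e2, e3, e4]; ring
        · rw [Letter.mate_mate, e1, e2, e3, e4]; ring
      · have hc' : d ∈ u ∨ d ∈ v ∨ d ∈ R.flatten := by
          simp only [List.flatten_cons, List.mem_append, List.mem_cons] at hd
          rcases hd with (h4 | h4) | (h4 | h4) | h4
          · exact absurd (by rw [h4]) hca
          · tauto
          · exact absurd (by rw [h4]; rfl) hca
          · tauto
          · tauto
        have hcm : d.mate ∈ ((u ++ v) :: R).flatten := hval.2.1 d (by
          simpa [List.flatten_cons, or_assoc] using hc')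
        have hcm' : d.mate ∈ u ∨ d.mate ∈ v ∨ d.mate ∈ R.flatten := by
          simpa [List.flatten_cons, or_assoc] using hcm
        rw [← hii d hc', ← hii _ hcm', ← hoo d hc', ← hoo _ hcm']
        exact hfl d (by simpa [List.flatten_cons, or_assoc] using hc'))
  rw [edgeFun_cons, edgeFun_cons, closed_cons, closed_cons] at hg
  obtain ⟨hgu, hgv, hgR⟩ := hg
  have hkey : go a = gi a.mate ∧ go a.mate = gi a := by
    by_cases hap : a.top = a.pos
    · obtain ⟨h5, h6, h7⟩ := hc a (by simp) hap
      rw [e1] at h6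
      rw [e4] at h7
      exact ⟨by rw [h6, h7], h5⟩
    · obtain ⟨h5, h6, h7⟩ := hc a.mate (by simp) (bool_flip hap)
      rw [Letter.mate_mate] at h5 h6 h7
      rw [e3] at h6
      rw [e2] at h7
      exact ⟨h5, by rw [h6, h7]⟩
  refine ⟨gi, go, ?_, ?_⟩
  · rw [edgeFun_cons]
    refine ⟨⟨gi a.mate, along_append.mpr ⟨gi a, ?_, ?_⟩⟩, hgR⟩
    · rw [← hkey.1]; exact hgu
    · rw [← hkey.2]; exact hgv
  · intro d hcm hct
    have hc' : d ∈ u ∨ d ∈ v ∨ d ∈ R.flatten := by
      simpa [List.flatten_cons, or_assoc] using hcm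
    have hcm2 : d.mate ∈ u ∨ d.mate ∈ v ∨ d.mate ∈ R.flatten := by
      have := hval.2.1 d hcm
      simpa [List.flatten_cons, or_assoc] using this
    have := hc d (by
      simp only [List.flatten_cons, List.mem_append, List.mem_cons]; tauto) hct
    rw [← hii d hc', ← hoo _ hcm2] at this
    exact this

end smoothing

end Pool.Agent.Work.MP_63d866_gt
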