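import Pool.Agent.Work.MP_63d866_gt.Closure

/-! More operations preserving diagrams. -/

namespace Pool.Agent.Work.MP_63d866_gt

lemma ext_word (q : Letter → Bool) (w : List Letter) : ∀ (c c' : ℤ) (i o : Letter → ℤ),
    w.Nodup → Along i o c (w.filter q) c' →
    ∃ i' o' : Letter → ℤ, (∀ a, a ∉ w ∨ q a = true → i' a = i a ∧ o' a = o a) ∧
      (∀ a ∈ w, q a = false → i' a = o' a) ∧ Along i' o' c w c' := by
  induction w with
  | nil =>
    intro c c' i o _ h
    exact ⟨i, o, fun _ _ => ⟨rfl, rfl⟩, by simp, by simpa using h⟩
  | cons a w ih =>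
    intro c c' i o hnd h
    obtain ⟨ha, hw⟩ := List.nodup_cons.mp hnd
    cases hq : q a
    · rw [List.filter_cons_of_neg (by simp [hq])] at h
      obtain ⟨i', o', h1, h2, h3⟩ := ih c c' i o hw h
      refine ⟨Function.update i' a c, Function.update o' a c, ?_, ?_, ?_⟩
      · intro b hb
        have hba : b ≠ a := by
          rintro rfl
          rcases hb with hb | hb
          · exact hb (by simp)
          · rw [hq] at hb; exact Bool.noConfusion hb
        rw [Function.update_of_ne hba, Function.update_of_ne hba]
        refine h1 b ?_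
        rcases hb with hb | hb
        · exact Or.inl fun h => hb (by simp [h])
        · exact Or.inr hb
      · intro b hb hqb
        by_cases hba : b = a
        · subst hba; simp
        · rw [Function.update_of_ne hba, Function.update_of_ne hba]
          exact h2 b (by rcases List.mem_cons.mp hb with h | h
                         · exact absurd h hba
                         · exact h) hqb
      · refine ⟨by simp, ?_⟩
        rw [Function.update_self]
        refine along_congr (fun b hb => ?_) (fun b hb => ?_) h3
        · rw [Function.update_of_ne (by rintro rfl; exact ha hb)]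
        · rw [Function.update_of_ne (by rintro rfl; exact ha hb)]
    · rw [List.filter_cons_of_pos (by simp [hq])] at h
      obtain ⟨h0, h⟩ := h
      obtain ⟨i', o', h1, h2, h3⟩ := ih (o a) c' i o hw h
      refine ⟨i', o', ?_, ?_, ?_⟩
      · intro b hb
        refine h1 b ?_
        rcases hb with hb | hb
        · exact Or.inl fun h => hb (by simp [h])
        · exact Or.inr hb
      · intro b hb hqb
        rcases List.mem_cons.mp hb with h4 | h4
        · rw [h4, hq] at hqb; exact Bool.noConfusion hqb
        · exact h2 b h4 hqb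
      · refine ⟨?_, ?_⟩
        · rw [(h1 a (Or.inr hq)).1]; exact h0
        · rw [(h1 a (Or.inr hq)).2]; exact h3

lemma ext_code (q : Letter → Bool) (R : Code) : ∀ (i o : Letter → ℤ),
    R.flatten.Nodup → EdgeFun (R.map (List.filter q)) i o →
    ∃ i' o' : Letter → ℤ, (∀ a, a ∉ R.flatten ∨ q a = true → i' a = i a ∧ o' a = o a) ∧
      (∀ a ∈ R.flatten, q a = false → i' a = o' a) ∧ EdgeFun R i' o' := by
  induction R with
  | nil =>
    intro i o _ _
    exact ⟨i, o, fun _ _ => ⟨rfl, rfl⟩, by simp, by intro w hw; simp at hw⟩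
  | cons w R ih =>
    intro i o hnd h
    rw [List.flatten_cons] at hnd
    obtain ⟨hw, hR, hdis⟩ := List.nodup_append.mp hnd
    rw [List.map_cons, edgeFun_cons] at h
    obtain ⟨⟨c, hc⟩, h⟩ := h
    obtain ⟨i₁, o₁, h1, h2, h3⟩ := ih i o hR h
    have hc' : Along i₁ o₁ c (w.filter q) c :=
      along_congr (fun a ha => ((h1 a (Or.inr (List.mem_filter.mp ha).2)).1).symm)
        (fun a ha => ((h1 a (Or.inr (List.mem_filter.mp ha).2)).2).symm) hc
    obtain ⟨i₂, o₂, h4, h5, h6⟩ := ext_word q w c c i₁ o₁ hw hc'
    refine ⟨i₂, o₂, ?_, ?_, ?_⟩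
    · intro a ha
      have ha1 : a ∉ w ∨ q a = true := by
        rcases ha with ha | ha
        · exact Or.inl fun h => ha (by simp [List.flatten_cons, h])
        · exact Or.inr ha
      have ha2 : a ∉ R.flatten ∨ q a = true := by
        rcases ha with ha | ha
        · exact Or.inl fun h => ha (by rw [List.flatten_cons]; exact List.mem_append_right _ h)
        · exact Or.inr ha
      rw [(h4 a ha1).1, (h4 a ha1).2, (h1 a ha2).1, (h1 a ha2).2]
      exact ⟨rfl, rfl⟩
    · intro a ha hqa
      rw [List.flatten_cons] at ha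
      rcases List.mem_append.mp ha with ha | ha
      · exact h5 a ha hqa
      · have : a ∉ w := fun h => hdis a h a ha rfl
        rw [(h4 a (Or.inl this)).1, (h4 a (Or.inl this)).2]
        exact h2 a ha hqa
    · rw [edgeFun_cons]
      refine ⟨⟨c, h6⟩, edgeFun_congr (fun a ha => ?_) (fun a ha => ?_) h3⟩
      · exact ((h4 a (Or.inl fun h => hdis a h a ha rfl)).1).symm
      · exact ((h4 a (Or.inl fun h => hdis a h a ha rfl)).2).symm

lemma along_filter (q : Letter → Bool) {i o : Letter → ℤ} {c c' : ℤ} {w : List Letter}
    (h : Along i o c w c') (hq : ∀ a ∈ w, q a = false → i a = o a) :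
    Along i o c (w.filter q) c' := by
  induction w generalizing c with
  | nil => exact h
  | cons a w ih =>
    obtain ⟨h0, h⟩ := h
    have ih' := ih h (fun b hb => hq b (by simp [hb]))
    cases hqa : q a
    · rw [List.filter_cons_of_neg (by simp [hqa])]
      rw [← hq a (by simp) hqa, h0] at ih'
      exact ih'
    · rw [List.filter_cons_of_pos (by simp [hqa])]
      exact ⟨h0, ih'⟩

lemma mem_flatten_filter {q : Letter → Bool} {R : Code} {a : Letter} :
    a ∈ (R.map (List.filter q)).flatten ↔ a ∈ R.flatten ∧ q a = true := by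
  rw [List.mem_flatten, List.mem_flatten]
  constructor
  · rintro ⟨w, hw, ha⟩
    obtain ⟨w', hw', rfl⟩ := List.mem_map.mp hw
    exact ⟨⟨w', hw', (List.mem_filter.mp ha).1⟩, (List.mem_filter.mp ha).2⟩
  · rintro ⟨⟨w, hw, ha⟩, hq⟩
    exact ⟨w.filter q, List.mem_map_of_mem hw, List.mem_filter.mpr ⟨ha, hq⟩⟩

lemma flatten_filter (q : Letter → Bool) (R : Code) :
    (R.map (List.filter q)).flatten = R.flatten.filter q := by
  induction R with
  | nil => rfl
  | cons w R ih => rw [List.map_cons, List.flatten_cons, List.flatten_cons, List.filter_append, ih]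

lemma eraseLabs_eq (α : List Letter) :
    eraseLabs α = List.filter (fun b => !(α.map Letter.lab).contains b.lab) := rfl

lemma eq_false_iff_lab {α : List Letter} {b : Letter} :
    (!(α.map Letter.lab).contains b.lab) = false ↔ ∃ a ∈ α, a.lab = b.lab := by
  simp

lemma eq_true_iff_lab {α : List Letter} {b : Letter} :
    (!(α.map Letter.lab).contains b.lab) = true ↔ ∀ a ∈ α, a.lab ≠ b.lab := by
  simp

/-- deleting a component -/
lemma Diagram.delete {α : List Letter} {R : Code} (h : Diagram (α :: R)) :
    Diagram (R.map (eraseLabs α)) := by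
  set q : Letter → Bool := fun b => !(α.map Letter.lab).contains b.lab with hq
  have heq : R.map (eraseLabs α) = R.map (List.filter q) := rfl
  rw [heq]
  have hmem := fun a => mem_flatten_filter (q := q) (R := R) (a := a)
  have hqf : ∀ b, q b = false ↔ ∃ a ∈ α, a.lab = b.lab := fun b => eq_false_iff_lab
  have hnd := h.1.1
  rw [List.flatten_cons] at hnd
  obtain ⟨hα, hR, hdis⟩ := List.nodup_append.mp hnd
  have hmatemem : ∀ a ∈ R.flatten, q a = true → a.mate ∈ R.flatten ∧ q a.mate = true := by
    intro a ha hqa
    have h1 := h.1.2.1 a (by rw [List.flatten_cons]; exact List.mem_append_right _ ha)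
    rw [List.flatten_cons] at h1
    have hqm : q a.mate = true := hqa
    refine ⟨?_, hqm⟩
    rcases List.mem_append.mp h1 with h2 | h2
    · have := (hqf a).mpr ⟨a.mate, h2, rfl⟩
      rw [hqa] at this; exact Bool.noConfusion this
    · exact h2
  -- letters of `R` removed have their mate in `α`
  have hremoved : ∀ a ∈ R.flatten, q a = false → a.mate ∈ α := by
    intro a ha hqa
    obtain ⟨b, hb, hba⟩ := (hqf a).mp hqa
    rcases h.1.2.2 a (by rw [List.flatten_cons]; exact List.mem_append_right _ ha) b
      (by rw [List.flatten_cons]; exact List.mem_append_left _ hb) hba.symm with h1 | h1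
    · exact absurd h1 (hdis b hb a ha)
    · rw [← h1]; exact hb
  refine ⟨⟨?_, ?_, ?_⟩, ?_⟩
  · rw [flatten_filter]; exact hR.filter _
  · intro a ha
    rw [hmem] at ha ⊢
    exact hmatemem a ha.1 ha.2
  · intro a ha b hb
    rw [hmem] at ha hb
    exact h.1.2.2 a (by rw [List.flatten_cons]; exact List.mem_append_right _ ha.1) b
      (by rw [List.flatten_cons]; exact List.mem_append_right _ hb.1)
  · intro i o hio hfl
    obtain ⟨i₁, o₁, h1, h2, h3⟩ := ext_code q R i o hR hio
    set i' : Letter → ℤ := fun a => if a ∈ α then 0 else i₁ a with hi'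
    set o' : Letter → ℤ := fun a => if a ∈ α then 0 else o₁ a with ho'
    have hnα : ∀ a ∈ R.flatten, a ∉ α := fun a ha h' => hdis a h' a ha rfl
    obtain ⟨gi, go, hg, hc⟩ := h.2 i' o' (by
      rw [edgeFun_cons]
      refine ⟨⟨0, ?_⟩, edgeFun_congr (fun a ha => ?_) (fun a ha => ?_) h3⟩
      · have : ∀ u : List Letter, (∀ a ∈ u, a ∈ α) → Along i' o' 0 u 0 := by
          intro u
          induction u with
          | nil => intro _; rfl
          | cons a u ih =>
            intro hu
            have ha : a ∈ α := hu a (by simp)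
            refine ⟨by simp [hi', ha], ?_⟩
            have : o' a = 0 := by simp [ho', ha]
            rw [this]
            exact ih fun b hb => hu b (by simp [hb])
        exact this α fun a ha => ha
      · simp [hi', hnα a ha]
      · simp [ho', hnα a ha])
      (by
        intro a ha
        rw [List.flatten_cons] at ha
        rcases List.mem_append.mp ha with ha | ha
        · -- `a ∈ α`
          have hm := h.1.2.1 a (by rw [List.flatten_cons]; exact List.mem_append_left _ ha)
          rw [List.flatten_cons] at hm
          rcases List.mem_append.mp hm with hm | hm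
          · simp [hi', ho', ha, hm]
          · have hqm : q a.mate = false := (hqf _).mpr ⟨a, ha, rfl⟩
            have := h2 a.mate hm hqm
            simp [hi', ho', ha, hnα _ hm, this]
        · cases hqa : q a
          · have hm := hremoved a ha hqa
            have := h2 a ha hqa
            simp [hi', ho', hm, hnα _ ha, this]
          · have hm := hmatemem a ha hqa
            have h4 := hfl a ((hmem a).mpr ⟨ha, hqa⟩)
            simp only [hi', ho', hnα _ ha, hnα _ hm.1, if_false]
            rw [(h1 a (Or.inr hqa)).1, (h1 a (Or.inr hqa)).2, (h1 _ (Or.inr hm.2)).1,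
              (h1 _ (Or.inr hm.2)).2]
            exact h4)
    rw [edgeFun_cons] at hg
    have hpass : ∀ a ∈ R.flatten, q a = false → gi a = go a := by
      intro a ha hqa
      have hm := hremoved a ha hqa
      by_cases hap : a.top = a.pos
      · obtain ⟨_, _, h7⟩ := hc a (by rw [List.flatten_cons]; exact List.mem_append_right _ ha) hap
        have : o' a.mate = 0 := by simp [ho', hm]
        rw [this] at h7
        rw [h7]; ring
      · obtain ⟨h5, h6, _⟩ := hc a.mate
          (by rw [List.flatten_cons]; exact List.mem_append_left _ hm) (bool_flip hap)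
        rw [Letter.mate_mate] at h5 h6
        have : i' a.mate = 0 := by simp [hi', hm]
        rw [this] at h6
        rw [h5, h6]; ring
    refine ⟨gi, go, ?_, ?_⟩
    · intro w hw
      obtain ⟨w', hw', rfl⟩ := List.mem_map.mp hw
      obtain ⟨c, hcw⟩ := hg.2 w' hw'
      exact ⟨c, along_filter q hcw fun a ha => hpass a (List.mem_flatten.mpr ⟨w', hw', ha⟩)⟩
    · intro a ha hap
      rw [hmem] at ha
      have hm := hmatemem a ha.1 ha.2
      have := hc a (by rw [List.flatten_cons]; exact List.mem_append_right _ ha.1) hap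
      simp only [hi', ho', hnα _ ha.1, hnα _ hm.1, if_false] at this
      rw [(h1 a (Or.inr ha.2)).1, (h1 _ (Or.inr hm.2)).2] at this
      exact this

/-- adding a component without crossings -/
lemma Diagram.circle {R : Code} (h : Diagram R) : Diagram ([] :: R) := by
  have he : ([] :: R : Code).flatten = R.flatten := by simp
  refine ⟨by unfold Valid; rw [he]; exact h.1, h.2.of_iff (fun a => by rw [he]) fun i o => ?_⟩
  rw [edgeFun_cons]
  exact ⟨fun H => ⟨⟨0, rfl⟩, H⟩, fun H => H.2⟩

lemma along_map (f : Letter → Letter) {i o : Letter → ℤ} {c c' : ℤ} {w : List Letter} :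
    Along i o c (w.map f) c' ↔ Along (i ∘ f) (o ∘ f) c w c' := by
  induction w generalizing c with
  | nil => rfl
  | cons a w ih => simp only [List.map_cons, along_cons, ih, Function.comp]

lemma flatten_map (f : Letter → Letter) (W : Code) :
    (W.map (List.map f)).flatten = W.flatten.map f := by
  induction W with
  | nil => rfl
  | cons w R ih => rw [List.map_cons, List.flatten_cons, List.flatten_cons, List.map_append, ih]

instance : Nonempty Letter := ⟨⟨0, true, true⟩⟩

/-- renaming, crossing changes -/
lemma Diagram.map {W : Code} (h : Diagram W) (f : Letter → Letter) (hf : Function.Injective f)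
    (hm : ∀ a, (f a).mate = f a.mate) (hl : ∀ a b, (f a).lab = (f b).lab → a.lab = b.lab)
    (htp : ∀ a, (f a).top = (f a).pos ↔ a.top = a.pos) : Diagram (W.map (List.map f)) := by
  have hfl := flatten_map f W
  refine ⟨⟨?_, ?_, ?_⟩, ?_⟩
  · rw [hfl]; exact h.1.1.map hf
  · rw [hfl]
    intro a ha
    obtain ⟨b, hb, rfl⟩ := List.mem_map.mp ha
    rw [hm]
    exact List.mem_map_of_mem (h.1.2.1 b hb)
  · rw [hfl]
    intro a ha b hb hab
    obtain ⟨a', ha', rfl⟩ := List.mem_map.mp ha
    obtain ⟨b', hb', rfl⟩ := List.mem_map.mp hb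
    rcases h.1.2.2 a' ha' b' hb' (hl _ _ hab) with h1 | h1
    · left; rw [h1]
    · right; rw [h1, hm]
  · intro i o hio hflow
    rw [hfl] at hflow
    obtain ⟨gi, go, hg, hc⟩ := h.2 (i ∘ f) (o ∘ f) (by
      intro w hw
      obtain ⟨c, hcw⟩ := hio (w.map f) (List.mem_map_of_mem hw)
      exact ⟨c, (along_map f).mp hcw⟩) (by
      intro a ha
      have := hflow (f a) (List.mem_map_of_mem ha)
      rw [hm] at this
      exact this)
    have hinv : ∀ a, Function.invFun f (f a) = a := Function.leftInverse_invFun hf
    refine ⟨gi ∘ Function.invFun f, go ∘ Function.invFun f, ?_, ?_⟩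
    · intro w hw
      obtain ⟨w', hw', rfl⟩ := List.mem_map.mp hw
      obtain ⟨c, hcw⟩ := hg w' hw'
      refine ⟨c, (along_map f).mpr ?_⟩
      have e1 : (gi ∘ Function.invFun f) ∘ f = gi := by funext a; simp [hinv]
      have e2 : (go ∘ Function.invFun f) ∘ f = go := by funext a; simp [hinv]
      rw [e1, e2]; exact hcw
    · rw [hfl]
      intro a ha hap
      obtain ⟨b, hb, rfl⟩ := List.mem_map.mp ha
      have := hc b hb ((htp b).mp hap)
      rw [hm]
      simp only [Function.comp, hinv] at this ⊢
      exact this

/-- change the crossings with name in `Q` -/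
def swL (Q : Finset ℕ) (a : Letter) : Letter := if a.lab ∈ Q then a.switch else a

lemma swL_lab (Q : Finset ℕ) (a : Letter) : (swL Q a).lab = a.lab := by
  unfold swL; split_ifs <;> rfl

lemma swL_mate (Q : Finset ℕ) (a : Letter) : (swL Q a).mate = swL Q a.mate := by
  unfold swL
  simp only [Letter.mate_lab]
  split_ifs
  · exact (Letter.mate_switch a).symm
  · rfl

lemma swL_inj (Q : Finset ℕ) : Function.Injective (swL Q) := by
  intro a b hab
  have hl : a.lab = b.lab := by
    have := congrArg Letter.lab hab
    rwa [swL_lab, swL_lab] at this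
  unfold swL at hab
  rw [hl] at hab
  split_ifs at hab with h
  · exact Letter.switch_inj hab
  · exact hab

lemma Diagram.switch {W : Code} (h : Diagram W) (Q : Finset ℕ) :
    Diagram (W.map (List.map (swL Q))) := by
  refine h.map (swL Q) (swL_inj Q) (swL_mate Q) (fun a b hab => ?_) (fun a => ?_)
  · rwa [swL_lab, swL_lab] at hab
  · unfold swL
    split_ifs
    · simp only [Letter.switch_top, Letter.switch_pos]
      cases a.top <;> cases a.pos <;> simp
    · rfl

lemma Diagram.rename {W : Code} (h : Diagram W) (f : ℕ → ℕ) (hf : Function.Injective f) :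
    Diagram (W.map (List.map fun a => ⟨f a.lab, a.top, a.pos⟩)) := by
  refine h.map _ ?_ (fun a => rfl) (fun a b hab => hf hab) (fun a => Iff.rfl)
  intro a b hab
  obtain ⟨l, t, s⟩ := a
  obtain ⟨l', t', s'⟩ := b
  simp only [Letter.mk.injEq] at hab ⊢
  exact ⟨hf hab.1, hab.2⟩

/-- adding a kink -/
lemma Diagram.kink {w : List Letter} {R : Code} (h : Diagram (w :: R)) (a : Letter)
    (ha : ∀ b ∈ (w :: R).flatten, b.lab ≠ a.lab) : Diagram ((a :: a.mate :: w) :: R) := by
  have hfl : ((a :: a.mate :: w) :: R).flatten = a :: a.mate :: (w :: R).flatten := by simp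
  have hne : ∀ c ∈ (w :: R).flatten, c ≠ a ∧ c ≠ a.mate := by
    intro c hc
    have := ha c hc
    exact ⟨fun h => this (by rw [h]), fun h => this (by rw [h]; rfl)⟩
  have hma : a.mate ≠ a := a.mate_ne
  refine ⟨⟨?_, ?_, ?_⟩, ?_⟩
  · rw [hfl, List.nodup_cons, List.nodup_cons]
    refine ⟨?_, fun h' => (hne _ h').2 rfl, h.1.1⟩
    rw [List.mem_cons, not_or]
    exact ⟨hma.symm, fun h' => (hne _ h').1 rfl⟩
  · rw [hfl]
    intro b hb
    rcases List.mem_cons.mp hb with rfl | hb
    · simp
    · rcases List.mem_cons.mp hb with rfl | hb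
      · simp
      · exact List.mem_cons_of_mem _ (List.mem_cons_of_mem _ (h.1.2.1 b hb))
  · rw [hfl]
    intro b hb c hc hbc
    have hsp : ∀ c ∈ a :: a.mate :: (w :: R).flatten,
        c = a ∨ c = a.mate ∨ c ∈ (w :: R).flatten := by
      intro c hc
      rcases List.mem_cons.mp hc with h1 | hc
      · exact Or.inl h1
      · rcases List.mem_cons.mp hc with h1 | hc
        · exact Or.inr (Or.inl h1)
        · exact Or.inr (Or.inr hc)
    rcases hsp b hb with h1 | h1 | h1 <;> rcases hsp c hc with h2 | h2 | h2
    · left; rw [h1, h2]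
    · right; rw [h1, h2]
    · exact absurd (by rw [← hbc, h1]) (ha c h2)
    · right; rw [h1, h2, Letter.mate_mate]
    · left; rw [h1, h2]
    · exact absurd (by rw [← hbc, h1]; rfl) (ha c h2)
    · exact absurd (by rw [hbc, h2]) (ha b h1)
    · exact absurd (by rw [hbc, h2]; rfl) (ha b h1)
    · exact h.1.2.2 b h1 c h2 hbc
  · intro i o hio hflow
    rw [edgeFun_cons, closed_cons, along_cons] at hio
    obtain ⟨⟨h1, h2⟩, h3⟩ := hio
    have h4 := hflow a (by simp)
    have h5 : o a.mate = i a := by rw [h1] at h4; linarith
    obtain ⟨gi, go, hg, hc⟩ := h.2 i o (by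
      rw [edgeFun_cons]
      exact ⟨⟨i a, by rw [← h5] at h2 ⊢; exact h2⟩, h3⟩)
      (fun b hb => hflow b (by
        rw [hfl]; exact List.mem_cons_of_mem _ (List.mem_cons_of_mem _ hb)))
    rw [edgeFun_cons] at hg
    obtain ⟨⟨d, hd⟩, hgR⟩ := hg
    -- the value inside the kink
    set d' : ℤ := if a.top = a.pos then d - i a else d + i a.mate with hd'
    set gi' : Letter → ℤ := fun c => if c = a then d else if c = a.mate then d' else gi c
      with hgi'
    set go' : Letter → ℤ := fun c => if c = a then d' else if c = a.mate then d else go c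
      with hgo'
    have e1 : gi' a = d := by simp [hgi']
    have e2 : go' a = d' := by simp [hgo']
    have e3 : gi' a.mate = d' := by simp [hgi', hma]
    have e4 : go' a.mate = d := by simp [hgo', hma]
    have hii : ∀ c ∈ (w :: R).flatten, gi c = gi' c := by
      intro c hc; simp [hgi', (hne c hc).1, (hne c hc).2]
    have hoo : ∀ c ∈ (w :: R).flatten, go c = go' c := by
      intro c hc; simp [hgo', (hne c hc).1, (hne c hc).2]
    have hmw : ∀ c ∈ w, c ∈ (w :: R).flatten := fun c hc => by
      rw [List.flatten_cons]; exact List.mem_append_left _ hc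
    have hmR : ∀ c ∈ R.flatten, c ∈ (w :: R).flatten := fun c hc => by
      rw [List.flatten_cons]; exact List.mem_append_right _ hc
    refine ⟨gi', go', ?_, ?_⟩
    · rw [edgeFun_cons, closed_cons, along_cons]
      refine ⟨⟨?_, ?_⟩, edgeFun_congr (fun c hc => hii c (hmR c hc))
        (fun c hc => hoo c (hmR c hc)) hgR⟩
      · rw [e3, e2]
      · rw [e4, e1]
        exact along_congr (fun c hc => hii c (hmw c hc)) (fun c hc => hoo c (hmw c hc)) hd
    · rw [hfl]
      intro c hcm hct
      rcases List.mem_cons.mp hcm with rfl | hcm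
      · rw [e1, e2, e3, e4, hd', if_pos hct, h5]
        exact ⟨rfl, rfl, rfl⟩
      · rcases List.mem_cons.mp hcm with rfl | hcm
        · have hnt : ¬ a.top = a.pos := by
            intro h'
            have : (!a.top) = a.pos := hct
            rw [h'] at this
            cases h8 : a.pos <;> rw [h8] at this <;> exact Bool.noConfusion this
          rw [Letter.mate_mate, e1, e2, e3, e4, hd', if_neg hnt]
          refine ⟨rfl, by ring, ?_⟩
          rw [← h1]; ring
        · have h6 := h.1.2.1 c hcm
          rw [← hii c hcm, ← hoo c hcm, ← hii _ h6, ← hoo _ h6]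
          exact hc c hcm hct

end Pool.Agent.Work.MP_63d866_gt
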