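import Mathlib

/-! Double counting: the combinatorial heart of the bound. -/

namespace Pool.Agent.Work.MP_63d866_gt

open Finset

/-- the weight of a set of size `u` -/
noncomputable def wt (n s k u : ℕ) : ℤ :=
  if u ≤ k then (-1) ^ (k - u) * Ring.choose ((n : ℤ) - u - s) (k - u) else 0

lemma choose_neg_int (r : ℤ) (n : ℕ) :
    Ring.choose (-r) n = (-1) ^ n * Ring.choose (r + n - 1) n := by
  rw [Ring.choose_neg]
  rw [Int.negOnePow_def, Units.smul_def]
  simp

/-- reflection: `(-1)^b * choose (x - t) b = choose (a - 1 - x) b` with `b = a - t`. -/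
lemma refl_choose (x : ℤ) (a t : ℕ) (h : t ≤ a) :
    (-1) ^ (a - t) * Ring.choose (x - t) (a - t) = Ring.choose ((a : ℤ) - 1 - x) (a - t) := by
  have := choose_neg_int (x - a + 1) (a - t)
  rw [show -(x - (a : ℤ) + 1) = (a : ℤ) - 1 - x by ring] at this
  rw [this]
  congr 2
  push_cast [Nat.cast_sub h]
  ring

lemma inner_sum (N m i n s k : ℕ) (hn : N + m + i = n) (hm : m ≤ k) :
    ∑ t ∈ range (N + 1), (N.choose t) • wt n s k (m + t)
      = (-1) ^ (k - m) * Ring.choose ((i : ℤ) - s) (k - m) := by
  obtain ⟨a, rfl⟩ := Nat.exists_eq_add_of_le hm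
  have hx : (-1 : ℤ) ^ a * Ring.choose ((i : ℤ) - s) a
      = Ring.choose ((N : ℤ) + ((a : ℤ) - 1 - ((N : ℤ) + i - s))) a := by
    have := refl_choose ((i : ℤ) - s) a 0 (Nat.zero_le _)
    simp only [Nat.sub_zero, Nat.cast_zero, sub_zero] at this
    rw [this]
    congr 1
    ring
  have e1 : m + a - m = a := by omega
  rw [e1, hx, Ring.add_choose_eq a (Commute.all _ _)]
  -- right side: sum over antidiagonal
  rw [Finset.Nat.sum_antidiagonal_eq_sum_range_succ_mk]
  -- both sides as sums over a big range
  have hL : ∑ t ∈ range (N + 1), (N.choose t) • wt n s (m + a) (m + t)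
      = ∑ t ∈ range (N + 1 + (a + 1)), (N.choose t) • wt n s (m + a) (m + t) := by
    refine sum_subset (fun x hx => ?_) (fun x _ hx => ?_)
    · simp only [mem_range] at hx ⊢; omega
    · simp only [mem_range] at hx
      rw [Nat.choose_eq_zero_of_lt (by omega), zero_smul]
  have hR : ∑ t ∈ range (a + 1), (N.choose t) • wt n s (m + a) (m + t)
      = ∑ t ∈ range (N + 1 + (a + 1)), (N.choose t) • wt n s (m + a) (m + t) := by
    refine sum_subset (fun x hx => ?_) (fun x _ hx => ?_)
    · simp only [mem_range] at hx ⊢; omega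
    · simp only [mem_range] at hx
      have : ¬ (m + x ≤ m + a) := by omega
      simp [wt, this]
  rw [hL, ← hR]
  refine sum_congr rfl fun t ht => ?_
  simp only [mem_range] at ht
  have h1 : m + t ≤ m + a := by omega
  have h2 : m + a - (m + t) = a - t := by omega
  rw [wt, if_pos h1, h2, Ring.choose_natCast, nsmul_eq_mul]
  congr 1
  rw [← refl_choose ((N : ℤ) + i - s) a t (by omega)]
  congr 2
  subst hn
  push_cast
  ring

lemma choose_nonneg_of_even (x : ℤ) {a : ℕ} (ha : Even a) : 0 ≤ Ring.choose x a := by
  rcases Int.eq_nat_or_neg x with ⟨y, rfl | rfl⟩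
  · rw [Ring.choose_natCast]; positivity
  · rw [choose_neg_int, ha.neg_one_pow, one_mul]
    rcases Nat.eq_zero_or_pos (y + a) with h | h
    · have : a = 0 := by omega
      subst this
      simp
    · have : (y : ℤ) + a - 1 = ((y + a - 1 : ℕ) : ℤ) := by omega
      rw [this, Ring.choose_natCast]; positivity

/-- The main counting theorem. -/
theorem count_bound {ι J : Type*} [DecidableEq ι] (V : Finset ι) (k s : ℕ) (hs : s ≤ V.card)
    (I : Finset J) (S P : J → Finset ι)
    (hS : ∀ j ∈ I, S j ⊆ V) (hP : ∀ j ∈ I, P j ⊆ V) (hd : ∀ j ∈ I, Disjoint (S j) (P j))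
    (hpar : ∀ j ∈ I, Even (k + (S j).card))
    (hU : ∀ U ⊆ V, U.Nonempty → (I.filter (fun j => S j ⊆ U ∧ Disjoint (P j) U)).card = 1)
    (h0 : ((I.filter (fun j => S j = ∅)).card : ℤ) = 1 + (-1) ^ k) :
    (I.filter (fun j => (S j).card = k)).card
      ≤ (V.card - s).choose k + (s + k - 1).choose k := by
  classical
  set n := V.card with hn
  -- double sum
  have hdouble : ∑ U ∈ V.powerset, wt n s k U.card *
        ((I.filter (fun j => S j ⊆ U ∧ Disjoint (P j) U)).card : ℤ)
      = ∑ j ∈ I, ∑ U ∈ V.powerset.filter (fun U => S j ⊆ U ∧ Disjoint (P j) U),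
          wt n s k U.card := by
    have : ∀ U ∈ V.powerset, wt n s k U.card *
        ((I.filter (fun j => S j ⊆ U ∧ Disjoint (P j) U)).card : ℤ)
        = ∑ j ∈ I, if (S j ⊆ U ∧ Disjoint (P j) U) then wt n s k U.card else 0 := by
      intro U _
      rw [← sum_filter, sum_const, nsmul_eq_mul, mul_comm]
    rw [sum_congr rfl this, sum_comm]
    refine sum_congr rfl fun j _ => ?_
    rw [sum_filter]
  -- inner sums
  have hinner : ∀ j ∈ I, ∑ U ∈ V.powerset.filter (fun U => S j ⊆ U ∧ Disjoint (P j) U),
          wt n s k U.card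
      = ∑ t ∈ range ((n - (S j).card - (P j).card) + 1),
          ((n - (S j).card - (P j).card).choose t) • wt n s k ((S j).card + t) := by
    intro j hj
    have hcard : ((V \ S j) \ P j).card = n - (S j).card - (P j).card := by
      rw [card_sdiff_of_subset, card_sdiff_of_subset (hS j hj)]
      intro x hx
      rw [mem_sdiff]
      exact ⟨hP j hj hx, fun h => (disjoint_left.mp (hd j hj) h) hx⟩
    rw [← hcard, ← Finset.sum_powerset_apply_card (fun t => wt n s k ((S j).card + t))]
    refine (sum_bij' (fun Y _ => S j ∪ Y) (fun U _ => U \ S j) ?_ ?_ ?_ ?_ ?_).symm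
    · intro Y hY
      rw [mem_powerset] at hY
      rw [mem_filter, mem_powerset]
      refine ⟨union_subset (hS j hj) (fun x hx => ?_), subset_union_left, ?_⟩
      · exact (mem_sdiff.mp (mem_sdiff.mp (hY hx)).1).1
      · rw [disjoint_union_right]
        refine ⟨(hd j hj).symm, ?_⟩
        rw [disjoint_left]
        intro x hx hx'
        exact (mem_sdiff.mp (hY hx')).2 hx
    · intro U hU'
      rw [mem_filter, mem_powerset] at hU'
      rw [mem_powerset]
      intro x hx
      rw [mem_sdiff] at hx
      rw [mem_sdiff, mem_sdiff]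
      exact ⟨⟨hU'.1 hx.1, hx.2⟩, fun h => (disjoint_left.mp hU'.2.2 h) hx.1⟩
    · intro Y hY
      rw [mem_powerset] at hY
      ext x
      simp only [mem_sdiff, mem_union]
      constructor
      · rintro ⟨h | h, h'⟩
        · exact absurd h h'
        · exact h
      · intro h
        exact ⟨Or.inr h, (mem_sdiff.mp (mem_sdiff.mp (hY h)).1).2⟩
    · intro U hU'
      rw [mem_filter, mem_powerset] at hU'
      exact union_sdiff_of_subset hU'.2.1
    · intro Y hY
      rw [mem_powerset] at hY
      have hdis : Disjoint (S j) Y := by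
        rw [disjoint_left]
        intro x hx hx'
        exact (mem_sdiff.mp (mem_sdiff.mp (hY hx')).1).2 hx
      rw [card_union_of_disjoint hdis]
  have hsub : ∀ j ∈ I, (S j).card + (P j).card ≤ n := by
    intro j hj
    rw [← card_union_of_disjoint (hd j hj)]
    exact card_le_card (union_subset (hS j hj) (hP j hj))
  -- lower bound for the inner sums
  have hlow : ∀ j ∈ I, (if (S j).card = k then (1 : ℤ) else 0)
      ≤ ∑ U ∈ V.powerset.filter (fun U => S j ⊆ U ∧ Disjoint (P j) U), wt n s k U.card := by
    intro j hj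
    rw [hinner j hj]
    rcases lt_or_ge k (S j).card with h | h
    · rw [if_neg (by omega)]
      rw [sum_eq_zero]
      intro t _
      have : ¬ ((S j).card + t ≤ k) := by omega
      simp [wt, this]
    · rw [inner_sum (n - (S j).card - (P j).card) (S j).card (P j).card n s k
        (by have := hsub j hj; omega) h]
      have hev : Even (k - (S j).card) := by
        have := hpar j hj
        rw [Nat.even_sub h]
        exact (Nat.even_add.mp this)
      rw [hev.neg_one_pow, one_mul]
      by_cases hk : (S j).card = k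
      · simp [hk]
      · rw [if_neg hk]
        exact choose_nonneg_of_even _ hev
  -- evaluation of the total
  have htotal : ∑ U ∈ V.powerset, wt n s k U.card *
        ((I.filter (fun j => S j ⊆ U ∧ Disjoint (P j) U)).card : ℤ)
      = Ring.choose ((s : ℤ) + k - 1) k + Ring.choose ((n : ℤ) - s) k := by
    have hc : ∀ U ∈ V.powerset, wt n s k U.card *
        ((I.filter (fun j => S j ⊆ U ∧ Disjoint (P j) U)).card : ℤ)
        = wt n s k U.card + (if U = ∅ then (-1) ^ k * wt n s k 0 else 0) := by
      intro U hUV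
      rw [mem_powerset] at hUV
      by_cases hE : U = ∅
      · subst hE
        have : (I.filter (fun j => S j ⊆ ∅ ∧ Disjoint (P j) ∅))
            = I.filter (fun j => S j = ∅) := by
          refine filter_congr fun j _ => ?_
          simp [subset_empty]
        rw [this, h0]
        simp only [card_empty, if_true]
        ring
      · rw [hU U hUV (nonempty_iff_ne_empty.mpr hE), if_neg hE]
        simp
    rw [sum_congr rfl hc, sum_add_distrib]
    congr 1
    · rw [Finset.sum_powerset_apply_card (fun t => wt n s k t)]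
      have := inner_sum n 0 0 n s k (by omega) (Nat.zero_le _)
      simp only [Nat.zero_add, Nat.sub_zero] at this
      rw [← hn, this]
      have h2 := choose_neg_int (s : ℤ) k
      rw [show ((0 : ℕ) : ℤ) - (s : ℤ) = -(s : ℤ) by simp, h2, ← mul_assoc, ← pow_add,
        Even.neg_one_pow ⟨k, rfl⟩, one_mul]
    · rw [sum_ite_eq' V.powerset ∅ (fun _ => (-1) ^ k * wt n s k 0), if_pos (by simp)]
      simp only [wt, Nat.zero_le, if_true, Nat.sub_zero, Nat.cast_zero, sub_zero]
      rw [← mul_assoc, ← pow_add, Even.neg_one_pow ⟨k, rfl⟩, one_mul]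
  have hfin : ((I.filter (fun j => (S j).card = k)).card : ℤ)
      ≤ Ring.choose ((s : ℤ) + k - 1) k + Ring.choose ((n : ℤ) - s) k := by
    rw [← htotal, hdouble]
    calc ((I.filter (fun j => (S j).card = k)).card : ℤ)
        = ∑ j ∈ I, (if (S j).card = k then (1 : ℤ) else 0) := by
          rw [← sum_filter]; simp
      _ ≤ _ := sum_le_sum hlow
  have hA : Ring.choose ((n : ℤ) - s) k = ((n - s).choose k : ℤ) := by
    rw [show (n : ℤ) - s = ((n - s : ℕ) : ℤ) by omega, Ring.choose_natCast]
  have hB : Ring.choose ((s : ℤ) + k - 1) k = ((s + k - 1).choose k : ℤ) := by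
    rcases Nat.eq_zero_or_pos (s + k) with h | h
    · have h1 : k = 0 := by omega
      subst h1
      simp
    · rw [show (s : ℤ) + k - 1 = ((s + k - 1 : ℕ) : ℤ) by omega, Ring.choose_natCast]
  rw [hA, hB] at hfin
  have : ((I.filter (fun j => (S j).card = k)).card : ℤ)
      ≤ (((n - s).choose k + (s + k - 1).choose k : ℕ) : ℤ) := by
    push_cast
    linarith
  exact_mod_cast this

end Pool.Agent.Work.MP_63d866_gt
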