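import Mathlib

/-!
Oriented link diagrams on the sphere, given by their signed Gauss codes, isotopy of link
diagrams, the Conway polynomial, the crossing number, and the torus links `T(2,n)`.
-/

namespace Pool.Agent.Work.MP_63d866_gt

open Polynomial

/-- One passage of a strand through a crossing. -/
structure Letter where
  /-- the name of the crossing -/
  lab : ℕ
  /-- `true` if this is the passage over the crossing, `false` if it is the one under it -/
  top : Bool
  /-- `true` if the crossing is positive, `false` if it is negative -/
  pos : Bool
deriving DecidableEq

/-- The other passage through the same crossing. -/
def Letter.mate (a : Letter) : Letter := ⟨a.lab, !a.top, a.pos⟩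

/-- The same passage after the crossing has been changed. -/
def Letter.switch (a : Letter) : Letter := ⟨a.lab, !a.top, !a.pos⟩

/-- A signed Gauss code: one cyclic word for every component of the link, listing the passages
in the order in which they are met along the oriented component.  The empty word is a component
without crossings. -/
abbrev Code := List (List Letter)

/-- Every crossing is passed exactly twice, once over and once under. -/
def Valid (W : Code) : Prop :=
  W.flatten.Nodup ∧ (∀ a ∈ W.flatten, a.mate ∈ W.flatten) ∧
    ∀ a ∈ W.flatten, ∀ b ∈ W.flatten, a.lab = b.lab → b = a ∨ b = a.mate

/-- `i a` is read before the letter `a` and `o a` after it: reading the word from the value `c`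
one ends at the value `c'`. -/
def Along {Y : Type} (i o : Letter → Y) : Y → List Letter → Y → Prop
  | c, [], c' => c = c'
  | c, a :: w, c' => i a = c ∧ Along i o (o a) w c'

/-- `i`, `o` describe an integer-valued function on the edges of the diagram: `i a` is its
value on the edge entering the passage `a` and `o a` its value on the edge leaving it, so that
the value leaving a letter is the value entering the next letter of the cyclic word. -/
def EdgeFun (W : Code) (i o : Letter → ℤ) : Prop := ∀ w ∈ W, ∃ c, Along i o c w c

/-- The code is the code of a diagram on the sphere (or of a disjoint union of such diagrams):
every integral circulation `(i, o)` on the edges (a function with total inflow equal to total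
outflow at each crossing) is the boundary of an integer-valued function on the regions, i.e. the
closed oriented surface obtained from the diagram by glueing a disc to every boundary walk has
`H₁ = 0`.  The value of the region function on the left of an edge is `gi` or `go`
(seen from the end or from the start of the edge); its value on the right of the edge is smaller
by the circulation through the edge.  The passage `a` with `a.top = a.pos` enters the
crossing as the left incoming strand and leaves as the right outgoing strand, its mate enters as
the right incoming strand and leaves as the left outgoing strand. -/
def Planar (W : Code) : Prop :=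
  ∀ i o : Letter → ℤ, EdgeFun W i o →
    (∀ a ∈ W.flatten, i a + i a.mate = o a + o a.mate) →
    ∃ gi go : Letter → ℤ, EdgeFun W gi go ∧
      ∀ a ∈ W.flatten, a.top = a.pos →
        go a.mate = gi a ∧ gi a.mate = gi a - i a ∧ go a = gi a - o a.mate

/-- Oriented link diagrams. -/
def Diagram (W : Code) : Prop := Valid W ∧ Planar W

/-- Delete from `w` the passages through the crossings met by `α`. -/
def eraseLabs (α w : List Letter) : List Letter :=
  w.filter (fun b => !(α.map Letter.lab).contains b.lab)

/-- The moves.  The first three do not change the diagram (reordering the components, choosing
another starting point on a component, renaming the crossings).  The last one replaces an arc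
`α` which passes over (if `b = true`) or under (if `b = false`) everything it meets by another
such arc `α'` with the same end points; the rest of the diagram is unchanged.  All
Reidemeister moves are of this form. -/
inductive Move : Code → Code → Prop
  | perm (W W' : Code) : List.Perm W W' → Move W W'
  | rotate (u v : List Letter) (R : Code) : Move ((u ++ v) :: R) ((v ++ u) :: R)
  | rename (f : ℕ → ℕ) (W : Code) : Function.Injective f →
      Move W (W.map (List.map fun a => ⟨f a.lab, a.top, a.pos⟩))
  | arc (b : Bool) (α α' u u' : List Letter) (R R' : Code) :
      (∀ a ∈ α, a.top = b) → (∀ a ∈ α', a.top = b) →
      (u :: R).map (eraseLabs α) = (u' :: R').map (eraseLabs α') →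
      Move ((α ++ u) :: R) ((α' ++ u') :: R')

/-- Two diagrams are diagrams of the same link. -/
def Isotopic : Code → Code → Prop :=
  Relation.EqvGen fun W W' => Diagram W ∧ Diagram W' ∧ Move W W'

/-- Skein triples `(L₊, L₋, L₀)`: the positive crossing `a` is changed, resp. smoothed.  The two
passages are on the same component or on two components. -/
inductive Skein : Code → Code → Code → Prop
  | self (a : Letter) (u v : List Letter) (R : Code) : a.pos = true →
      Skein ((a :: u ++ a.mate :: v) :: R) ((a.switch :: u ++ a.mate.switch :: v) :: R)
        (u :: v :: R)
  | mixed (a : Letter) (u v : List Letter) (R : Code) : a.pos = true →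
      Skein ((a :: u) :: (a.mate :: v) :: R) ((a.switch :: u) :: (a.mate.switch :: v) :: R)
        ((u ++ v) :: R)

/-- `P` assigns to every link diagram the Conway polynomial of the link. -/
structure IsConway (P : Code → ℤ[X]) : Prop where
  /-- `P` is a link invariant -/
  isotopy : ∀ W W', Isotopic W W' → P W = P W'
  /-- normalisation on the unknot -/
  unknot : P [[]] = 1
  /-- the skein relation -/
  skein : ∀ Wp Wm W0, Diagram Wp → Skein Wp Wm W0 → P Wp - P Wm = X * P W0

/-- The number of crossings of a diagram. -/
def crossings (W : Code) : ℕ := (W.flatten.filter fun a => a.top).length

/-- The crossing number of the link with diagram `W`. -/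
noncomputable def crossingNumber (W : Code) : ℕ :=
  sInf {n | ∃ W', Isotopic W W' ∧ crossings W' = n}

/-- One strand of the braid `σ₁ⁿ`: it passes the crossings `0, 1, …, n - 1`, all positive,
alternately over and under, and it passes over the crossing `0` if `b = true`. -/
def strand (n : ℕ) (b : Bool) : List Letter :=
  (List.range n).map fun i => ⟨i, xor b (decide (i % 2 = 1)), true⟩

/-- The closure of the braid `σ₁ⁿ`, i.e. the torus link `T(2,n)` with parallel orientation. -/
def torus (n : ℕ) : Code :=
  if n % 2 = 0 then [strand n true, strand n false] else [strand n true ++ strand n false]

end Pool.Agent.Work.MP_63d866_gt
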