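import Pool.Agent.Work.MP_63d866_gt.Perturb

/-! Eliminating the auxiliary indices, and the linear-algebraic bound. -/

namespace Pool.Agent.Work.MP_63d866_gt

open Finset Filter Topology

set_option linter.unusedSectionVars false

section
variable {ι : Type*} [Fintype ι] [DecidableEq ι]

lemma exists_adapted {N : ι → ι → ℝ} {E : Finset ι} (hG : Gen N E) (hE : Even E.card)
    {i : ι} (hi : i ∉ E) :
    ∃ a : ι → ℝ, a i = 1 ∧ (∀ l, l ∉ insert i E → a l = 0) ∧ ∀ e ∈ E, ap N a e = 0 := by
  classical
  set B : Matrix E E ℝ := Matrix.of fun a b => N a b with hB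
  set ex : (E → ℝ) → ι → ℝ := fun v l => if h : l ∈ E then v ⟨l, h⟩ else 0 with hex
  have hsum : ∀ (f : ι → ℝ) (v : E → ℝ), ∑ j, f j * ex v j = ∑ j : E, f j * v j := by
    intro f v
    have h1 : ∑ j, f j * ex v j = ∑ j ∈ E, f j * ex v j := by
      symm
      refine sum_subset (subset_univ _) fun j _ hj => ?_
      simp [hex, hj]
    rw [h1, ← sum_coe_sort E (fun j => f j * ex v j)]
    refine sum_congr rfl fun j _ => ?_
    simp [hex]
  have hdet : B.det ≠ 0 := by
    intro h0
    obtain ⟨v, hv, hv0⟩ := Matrix.exists_mulVec_eq_zero_iff.mpr h0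
    apply hv
    have := hG E (Subset.refl _) hE (ex v) (fun l hl => by simp [hex, hl]) (fun l hl => by
      unfold ap
      rw [hsum (fun j => N l j) v]
      have h2 := congrFun hv0 ⟨l, hl⟩
      simpa [Matrix.mulVec, dotProduct, hB] using h2)
    funext l
    have h3 := congrFun this l
    simpa [hex] using h3
  set w : E → ℝ := fun e => - N e i with hw
  set v : E → ℝ := B.det⁻¹ • B.adjugate.mulVec w with hv
  have hBv : B.mulVec v = w := by
    rw [hv, Matrix.mulVec_smul, Matrix.mulVec_mulVec, Matrix.mul_adjugate, Matrix.smul_mulVec,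
      Matrix.one_mulVec, smul_smul, inv_mul_cancel₀ hdet, one_smul]
  refine ⟨fun l => if l = i then 1 else ex v l, by simp, fun l hl => ?_, fun e he => ?_⟩
  · have h1 : l ≠ i := fun h => hl (h ▸ mem_insert_self _ _)
    have h2 : l ∉ E := fun h => hl (mem_insert_of_mem h)
    simp [h1, hex, h2]
  · have h1 : ap N (fun l => if l = i then 1 else ex v l) e
        = N e i + ∑ j, N e j * ex v j := by
      unfold ap
      rw [← add_sum_erase univ _ (mem_univ i), ← add_sum_erase univ (fun j => N e j * ex v j)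
        (mem_univ i)]
      have h2 : ex v i = 0 := by simp [hex, hi]
      rw [h2]
      simp only [if_true, mul_one, mul_zero, zero_add]
      congr 1
      refine sum_congr rfl fun j hj => ?_
      rw [if_neg (ne_of_mem_erase hj)]
    rw [h1, hsum (fun j => N e j) v]
    have h2 := congrFun hBv ⟨e, he⟩
    simp only [Matrix.mulVec, dotProduct, hB, Matrix.of_apply, hw] at h2
    rw [h2]; ring

/-- Schur complement, in terms of adapted vectors. -/
lemma exists_schur {N : ι → ι → ℝ} (hN : Skew N) (hG : ∀ V, Gen N V) {E : Finset ι}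
    (hE : Even E.card) :
    ∃ A : ι → ι → ℝ, Skew A ∧ (∀ V, Disjoint V E → Gen A V) ∧
      ∀ (W : Finset ι) (x : ι → ℝ), Disjoint W E → (∀ l, l ∉ W ∪ E → x l = 0) →
        (∀ l ∈ W ∪ E, ap N x l = 0) →
        ∀ l ∈ W, ap A (fun l => if l ∈ W then x l else 0) l = 0 := by
  classical
  have hch : ∀ i, i ∉ E → ∃ a : ι → ℝ, a i = 1 ∧ (∀ l, l ∉ insert i E → a l = 0) ∧
      ∀ e ∈ E, ap N a e = 0 := fun i hi => exists_adapted (hG E) hE hi
  choose! a ha1 ha2 ha3 using hch
  set b : ι → ι → ℝ := fun i => if i ∈ E then 0 else a i with hb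
  have hb3 : ∀ i, ∀ e ∈ E, ap N (b i) e = 0 := by
    intro i e he
    by_cases hi : i ∈ E
    · simp [hb, hi, ap]
    · simp only [hb, if_neg hi]; exact ha3 i hi e he
  -- values outside `E`
  have hb2 : ∀ i l, i ∉ E → l ∉ E → b i l = if l = i then 1 else 0 := by
    intro i l hi hl
    simp only [hb, if_neg hi]
    split_ifs with h
    · rw [h]; exact ha1 i hi
    · exact ha2 i hi l (by simp [h, hl])
  set hat : (ι → ℝ) → ι → ℝ := fun x => ∑ i, x i • b i with hhat
  have hap : ∀ x l, ap N (hat x) l = ∑ i, x i * ap N (b i) l := by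
    intro x l
    simp only [ap, hhat, Finset.sum_apply, Pi.smul_apply, smul_eq_mul, mul_sum]
    rw [sum_comm]
    exact sum_congr rfl fun j _ => sum_congr rfl fun m _ => by ring
  have hapE : ∀ x, ∀ e ∈ E, ap N (hat x) e = 0 := by
    intro x e he
    rw [hap]
    exact sum_eq_zero fun i _ => by rw [hb3 i e he, mul_zero]
  have hval : ∀ x l, (∀ e ∈ E, x e = 0) → l ∉ E → hat x l = x l := by
    intro x l hx hl
    simp only [hhat, Finset.sum_apply, Pi.smul_apply, smul_eq_mul]
    rw [sum_eq_single l]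
    · rw [hb2 l l hl hl]; simp
    · intro i _ hil
      by_cases hi : i ∈ E
      · rw [hx i hi, zero_mul]
      · rw [hb2 i l hi hl, if_neg (Ne.symm hil), mul_zero]
    · intro h; exact absurd (mem_univ l) h
  set A : ι → ι → ℝ := fun i j => ∑ l, b i l * ap N (b j) l with hA
  have hAap : ∀ x l, (∀ e ∈ E, x e = 0) → l ∉ E → ap A x l = ap N (hat x) l := by
    intro x l hx hl
    have h1 : ap A x l = ∑ m, b l m * ap N (hat x) m := by
      calc ap A x l = ∑ j, (∑ m, b l m * ap N (b j) m) * x j := rfl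
        _ = ∑ j, ∑ m, b l m * (x j * ap N (b j) m) := by
            refine sum_congr rfl fun j _ => ?_
            rw [sum_mul]
            exact sum_congr rfl fun m _ => by ring
        _ = ∑ m, ∑ j, b l m * (x j * ap N (b j) m) := sum_comm
        _ = ∑ m, b l m * ap N (hat x) m := by
            refine sum_congr rfl fun m _ => ?_
            rw [hap, mul_sum]
    rw [h1, sum_eq_single l]
    · rw [hb2 l l hl hl]; simp
    · intro m _ hm
      by_cases hmE : m ∈ E
      · rw [hapE x m hmE, mul_zero]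
      · rw [hb2 l m hl hmE, if_neg hm, zero_mul]
    · intro h; exact absurd (mem_univ l) h
  have hhatsup : ∀ (W : Finset ι) (x : ι → ℝ), (∀ l, l ∉ W → x l = 0) → Disjoint W E →
      ∀ l, l ∉ W ∪ E → hat x l = 0 := by
    intro W x hx hWE l hl
    rw [mem_union, not_or] at hl
    rw [hval x l (fun e he => hx e (fun h => disjoint_left.mp hWE h he)) hl.2]
    exact hx l hl.1
  refine ⟨A, ?_, ?_, ?_⟩
  · intro i j
    simp only [hA]
    have := skew_pair hN (b j) (b i)
    exact this
  · intro V hVE T hT hTe y hy hk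
    have hTE : Disjoint T E := disjoint_of_subset_left hT hVE
    have hyE : ∀ e ∈ E, y e = 0 := fun e he => hy e (fun h => disjoint_left.mp hTE h he)
    have h0 := hG (T ∪ E) (T ∪ E) (Subset.refl _) (by
      rw [card_union_of_disjoint hTE]; exact hTe.add hE) (hat y) (hhatsup T y hy hTE)
      (fun l hl => by
        rcases mem_union.mp hl with h | h
        · rw [← hAap y l hyE (fun h' => disjoint_left.mp hTE h h')]; exact hk l h
        · exact hapE y l h)
    funext l
    by_cases hl : l ∈ E
    · simp [hyE l hl]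
    · rw [← hval y l hyE hl, h0]
  · intro W x hWE hxz hxk l hl
    set y : ι → ℝ := fun l => if l ∈ W then x l else 0 with hy
    have hyW : ∀ l, l ∉ W → y l = 0 := fun l hl => by simp [hy, hl]
    have hyE : ∀ e ∈ E, y e = 0 := fun e he => hyW e (fun h => disjoint_left.mp hWE h he)
    have hlE : l ∉ E := fun h => disjoint_left.mp hWE hl h
    have h0 : x - hat y = 0 := by
      refine hG E E (Subset.refl _) hE (x - hat y) (fun m hm => ?_) (fun m hm => ?_)
      · rw [Pi.sub_apply, hval y m hyE hm]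
        by_cases hmW : m ∈ W
        · simp [hy, hmW]
        · rw [hyW m hmW, hxz m (by rw [mem_union, not_or]; exact ⟨hmW, hm⟩)]; simp
      · rw [ap_sub, hapE y m hm, hxk m (mem_union_right _ hm)]; simp
    rw [hAap y l hyE hlE, ← sub_eq_zero.mp h0]
    exact hxk l (mem_union_left _ hl)

end

variable {ι : Type*} [Fintype ι] [LinearOrder ι]

/-- The linear-algebraic upper bound theorem. -/
theorem lin_bound {M : ι → ι → ℝ} (hM : Skew M) (V X : Finset ι) (p : ι) (hVX : Disjoint V X)
    (hpV : p ∉ V) (hpX : p ∉ X) (k s : ℕ) (hs : s ≤ V.card) (F : Finset (Finset ι × Bool))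
    (hF : ∀ j ∈ F, j.1 ⊆ V ∧ j.1.card = k ∧
      (∀ y : ι → ℝ, (∀ i, i ∉ j.1 ∪ X → y i = 0) → (∀ i ∈ j.1 ∪ X, ap M y i = 0) → y = 0) ∧
      ∃ x : ι → ℝ, (∀ i ∈ j.1, 0 < x i) ∧ (∀ i, i ∉ insert p (j.1 ∪ X) → x i = 0) ∧
        x p = sg j.2 ∧ (∀ i ∈ insert p (j.1 ∪ X), ap M x i = 0)) :
    F.card ≤ (V.card - s).choose k + (s + k - 1).choose k := by
  classical
  -- a generic perturbation
  have hpj : ∀ j ∈ F, p ∉ j.1 ∪ X := by
    intro j hj h
    rcases mem_union.mp h with h | h
    · exact hpV ((hF j hj).1 h)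
    · exact hpX h
  have hev : ∀ᶠ e in 𝓝 (0 : ℝ), ∀ j ∈ F, ∃ x : ι → ℝ, (∀ i ∈ j.1, 0 < x i) ∧
      (∀ i, i ∉ insert p (j.1 ∪ X) → x i = 0) ∧ x p = sg j.2 ∧
      (∀ i ∈ insert p (j.1 ∪ X), ap (Mp M e) x i = 0) := by
    rw [eventually_all_finset]
    intro j hj
    obtain ⟨_, _, h3, x, hx1, hx2, hx3, hx4⟩ := hF j hj
    exact persist hM subset_union_left (hpj j hj) h3 hx1 hx2 hx3 hx4
  have hev' := (eventually_nhdsWithin_of_eventually_nhds (s := ({0}ᶜ : Set ℝ)) hev).and
    (eventually_gen M)
  obtain ⟨e, he1, he2⟩ := hev'.exists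
  set N := Mp M e with hN
  have hNs : Skew N := Mp_skew hM e
  rcases F.eq_empty_or_nonempty with hFe | ⟨j₀, hj₀⟩
  · rw [hFe]; simp
  -- parity
  have hpar : Even (k + X.card) := by
    obtain ⟨h1, h2, _⟩ := hF j₀ hj₀
    obtain ⟨x, _, hx2, hx3, hx4⟩ := he1 j₀ hj₀
    have hc : (j₀.1 ∪ X).card = k + X.card := by
      rw [card_union_of_disjoint (disjoint_of_subset_left h1 hVX), h2]
    by_contra hcon
    have hev : Even (insert p (j₀.1 ∪ X)).card := by
      rw [card_insert_of_notMem (hpj j₀ hj₀), hc, Nat.even_add_one]; exact hcon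
    have := he2 _ _ (Subset.refl _) hev x hx2 hx4
    rw [this] at hx3
    exact sg_ne j₀.2 hx3.symm
  have hoddc : ∀ j ∈ F, ¬ Even (insert p (j.1 ∪ X)).card := by
    intro j hj
    obtain ⟨h1, h2, _⟩ := hF j hj
    rw [card_insert_of_notMem (hpj j hj), card_union_of_disjoint
      (disjoint_of_subset_left h1 hVX), h2, Nat.even_add_one, not_not]
    exact hpar
  rcases Nat.even_or_odd k with hk | hk
  · -- even case
    have hX : Even X.card := by
      rcases Nat.even_or_odd X.card with h | h
      · exact h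
      · exact absurd hpar (Nat.not_even_iff_odd.mpr (hk.add_odd h))
    obtain ⟨A, hAs, hAG, hAk⟩ := exists_schur hNs he2 hX
    have hVpX : Disjoint (insert p V) X := by
      rw [disjoint_insert_left]; exact ⟨hpX, hVX⟩
    refine even_bound hAs V p hpV (hAG _ hVpX) k s hk hs F fun j hj => ?_
    obtain ⟨h1, h2, _⟩ := hF j hj
    obtain ⟨x, hx1, hx2, hx3, hx4⟩ := he1 j hj
    have hjX : Disjoint (insert p j.1) X :=
      disjoint_of_subset_left (insert_subset_insert p h1) hVpX
    have hins : insert p (j.1 ∪ X) = insert p j.1 ∪ X := by rw [insert_union]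
    have hker := hAk (insert p j.1) x hjX (fun l hl => hx2 l (by rw [hins]; exact hl))
      (fun l hl => hx4 l (by rw [hins]; exact hl))
    refine ⟨h1, h2, fun l => if l ∈ insert p j.1 then x l else 0, fun i hi => ?_, fun i hi => ?_,
      ?_, hker⟩
    · rw [if_pos (mem_insert_of_mem hi)]; exact hx1 i hi
    · simp only [if_neg hi]
    · rw [if_pos (mem_insert_self _ _)]; exact hx3
  · -- odd case
    have hX : Even (insert p X).card := by
      rw [card_insert_of_notMem hpX, Nat.even_add_one]
      intro h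
      exact absurd hpar (Nat.not_even_iff_odd.mpr (hk.add_even h))
    obtain ⟨A, hAs, hAG, hAk⟩ := exists_schur hNs he2 hX
    have hVpX : Disjoint V (insert p X) := by
      rw [disjoint_insert_right]; exact ⟨hpV, hVX⟩
    -- the projection to the first coordinate is injective on `F`
    have hinj : Set.InjOn Prod.fst (F : Set (Finset ι × Bool)) := by
      rintro ⟨S, t⟩ hj ⟨S', t'⟩ hj' hSS
      simp only at hSS
      subst hSS
      by_contra hne
      have htt : t ≠ t' := fun h => hne (by rw [h])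
      obtain ⟨x, hx1, hx2, hx3, hx4⟩ := he1 _ hj
      obtain ⟨x', hx1', hx2', hx3', hx4'⟩ := he1 _ hj'
      simp only at hx1 hx2 hx3 hx4 hx1' hx2' hx3' hx4'
      have hprop := ker_unique (x := x) (x' := x') (he2 _) (Subset.refl _)
        (mem_insert_self p (S ∪ X)) (hoddc _ hj) (by rw [hx3]; exact sg_ne t) hx2 hx4 hx2' hx4'
      have hratio : x' p / x p = -1 := by
        have htn : t' = !t := by
          rcases t with _ | _ <;> rcases t' with _ | _
          · exact absurd rfl htt
          · rfl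
          · rfl
          · exact absurd rfl htt
        rw [hx3, hx3', htn, sg_not, neg_div, div_self (sg_ne t)]
      rw [hratio] at hprop
      have hSne : S.Nonempty := by
        rw [← card_pos, (hF _ hj).2.1]; exact hk.pos
      obtain ⟨i, hi⟩ := hSne
      have h1 := hx1 i hi
      have h2 := hx1' i hi
      have h3 := congrFun hprop i
      simp only [Pi.smul_apply, smul_eq_mul] at h3
      linarith
    rw [← card_image_of_injOn hinj]
    refine odd_bound hAs V (hAG _ hVpX) k s hk hs _ fun S hS => ?_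
    obtain ⟨⟨S', t⟩, hj, rfl⟩ := mem_image.mp hS
    simp only
    obtain ⟨h1, h2, _⟩ := hF _ hj
    obtain ⟨x, hx1, hx2, hx3, hx4⟩ := he1 _ hj
    simp only at h1 h2 hx1 hx2 hx3 hx4
    have hjX : Disjoint S' (insert p X) := disjoint_of_subset_left h1 hVpX
    have hins : insert p (S' ∪ X) = S' ∪ insert p X := by rw [union_insert]
    have hker := hAk S' x hjX (fun l hl => hx2 l (by rw [hins]; exact hl))
      (fun l hl => hx4 l (by rw [hins]; exact hl))
    refine ⟨h1, h2, fun l => if l ∈ S' then x l else 0, ?_, fun i hi => ?_, fun i hi => ?_, hker⟩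
    · rw [← card_pos, h2]; exact hk.pos
    · rw [if_pos hi]; exact hx1 i hi
    · rw [if_neg hi]

end Pool.Agent.Work.MP_63d866_gt
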