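import Pool.Agent.Work.MP_63d866_gt.Walk

/-! The bound for families of smoothed walks. -/

namespace Pool.Agent.Work.MP_63d866_gt

open Finset

/-- the bordered interlacement matrix -/
noncomputable def MM (W : List Letter) (p u v : ℕ) : ℝ :=
  if u = p then (if v = p then 0 else - (if v ∈ labs W then bb W v else 0))
  else if v = p then (if u ∈ labs W then bb W u else 0) else BB W u v

lemma MM_skew {W : List Letter} (h : LinWord W) (p u v : ℕ) : MM W p u v = - MM W p v u := by
  unfold MM
  by_cases hu : u = p <;> by_cases hv : v = p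
  · simp [hu, hv]
  · simp [hu, hv]
  · simp [hu, hv]
  · rw [if_neg hu, if_neg hv, if_neg hv, if_neg hu]; exact BB_skew h u v

theorem walk_bound {W : List Letter} (h : LinWord W) (V X : Finset ℕ) (hVX : Disjoint V X)
    (hl : labs W = V ∪ X) (k s : ℕ) (hs : s ≤ V.card) (F : Finset (Finset ℕ × Bool))
    (hF : ∀ j ∈ F, j.1 ⊆ V ∧ j.1.card = k ∧
      ∃ l, Walk W (j.1 ∪ X) l ∧ ∀ u ∈ j.1, FirstTop l u j.2) :
    F.card ≤ (V.card - s).choose k + (s + k - 1).choose k := by
  classical
  set p : ℕ := (labs W).sup id + 1 with hp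
  have hlt : ∀ u ∈ labs W, u < p := by
    intro u hu
    have : u ≤ (labs W).sup id := le_sup (f := id) hu
    omega
  have hpl : p ∉ labs W := fun hcon => lt_irrefl _ (hlt p hcon)
  -- lifting finsets
  set lift : Finset ℕ → Finset (Fin (p + 1)) := fun S => univ.filter (fun i => (i : ℕ) ∈ S)
    with hlift
  have mem_lift : ∀ (S : Finset ℕ) (i : Fin (p + 1)), i ∈ lift S ↔ (i : ℕ) ∈ S := by
    intro S i; simp [hlift]
  have card_lift : ∀ S : Finset ℕ, S ⊆ labs W → (lift S).card = S.card := by
    intro S hS
    refine card_bij (fun i _ => (i : ℕ)) (fun i hi => (mem_lift S i).mp hi)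
      (fun i _ j _ hij => Fin.ext hij) (fun u hu => ?_)
    exact ⟨⟨u, by have := hlt u (hS hu); omega⟩, (mem_lift S _).mpr hu, rfl⟩
  have lift_inj : ∀ S S' : Finset ℕ, S ⊆ labs W → S' ⊆ labs W → lift S = lift S' → S = S' := by
    intro S S' hS hS' heq
    ext u
    constructor
    · intro hu
      have : (⟨u, by have := hlt u (hS hu); omega⟩ : Fin (p + 1)) ∈ lift S' := by
        rw [← heq]; exact (mem_lift S _).mpr hu
      exact (mem_lift S' _).mp this
    · intro hu
      have : (⟨u, by have := hlt u (hS' hu); omega⟩ : Fin (p + 1)) ∈ lift S := by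
        rw [heq]; exact (mem_lift S' _).mpr hu
      exact (mem_lift S _).mp this
  set M : Fin (p + 1) → Fin (p + 1) → ℝ := fun i j => MM W p i j with hM
  have hMs : Skew M := fun i j => MM_skew h p i j
  have hap : ∀ (f : ℕ → ℝ) (i : Fin (p + 1)), (i : ℕ) ∈ labs W →
      ap M (fun j => f j) i = (∑ v ∈ labs W, BB W i v * f v) + bb W i * f p := by
    intro f i hi
    have hip : (i : ℕ) ≠ p := fun hcon => hpl (hcon ▸ hi)
    have h1 : ap M (fun j => f j) i = ∑ n ∈ range (p + 1), MM W p i n * f n := by
      unfold ap
      rw [← Fin.sum_univ_eq_sum_range (fun n => MM W p i n * f n)]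
    rw [h1]
    have h2 : ∑ n ∈ range (p + 1), MM W p i n * f n
        = ∑ n ∈ insert p (labs W), MM W p i n * f n := by
      symm
      refine sum_subset (fun n hn => ?_) (fun n _ hn => ?_)
      · rw [mem_range]
        rcases mem_insert.mp hn with rfl | h'
        · omega
        · have := hlt n h'; omega
      · rw [mem_insert, not_or] at hn
        unfold MM
        rw [if_neg hip, if_neg hn.1]
        unfold BB
        rw [if_neg (fun h' => hn.2 h'.2), zero_mul]
    rw [h2, sum_insert hpl, add_comm]
    congr 1
    · refine sum_congr rfl fun v hv => ?_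
      unfold MM
      have hvp : v ≠ p := by rintro rfl; exact hpl hv
      rw [if_neg hip, if_neg hvp]
    · unfold MM
      rw [if_neg hip, if_pos rfl, if_pos hi]
  have hVl : V ⊆ labs W := by rw [hl]; exact subset_union_left
  have hXl : X ⊆ labs W := by rw [hl]; exact subset_union_right
  -- the lifted family
  have hinj : Set.InjOn (fun j : Finset ℕ × Bool => (lift j.1, j.2)) (F : Set (Finset ℕ × Bool)) := by
    rintro ⟨S, t⟩ hj ⟨S', t'⟩ hj' heq
    simp only [Prod.mk.injEq] at heq
    have h1 := lift_inj S S' ((hF _ hj).1.trans hVl) ((hF _ hj').1.trans hVl) heq.1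
    rw [h1, heq.2]
  rw [← card_image_of_injOn hinj]
  have hcV : (lift V).card = V.card := card_lift V hVl
  rw [← hcV]
  refine lin_bound hMs (lift V) (lift X) (Fin.last p) ?_ ?_ ?_ k s (by rw [hcV]; exact hs) _ ?_
  · rw [disjoint_left]
    intro i hi hi'
    exact disjoint_left.mp hVX ((mem_lift V i).mp hi) ((mem_lift X i).mp hi')
  · intro hcon
    exact hpl (hVl (by simpa using (mem_lift V _).mp hcon))
  · intro hcon
    exact hpl (hXl (by simpa using (mem_lift X _).mp hcon))
  · intro j' hj'
    obtain ⟨⟨S, t⟩, hj, rfl⟩ := mem_image.mp hj'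
    simp only
    obtain ⟨hSV, hSk, l, hw, hft⟩ := hF _ hj
    simp only at hSV hSk hw hft
    have hSl : S ⊆ labs W := hSV.trans hVl
    have hTl : S ∪ X ⊆ labs W := union_subset hSl hXl
    have hmT : ∀ i : Fin (p + 1), i ∈ lift S ∪ lift X ↔ (i : ℕ) ∈ S ∪ X := by
      intro i; rw [mem_union, mem_lift, mem_lift, mem_union]
    obtain ⟨x, hx1, hx2, hx3⟩ := walk_kernel h hTl hw t
    refine ⟨fun i hi => (mem_lift V i).mpr (hSV ((mem_lift S i).mp hi)),
      by rw [card_lift S hSl, hSk], fun y hy0 hyk => ?_, ?_⟩
    · -- uniqueness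
      set f : ℕ → ℝ := fun n => if hn : n < p + 1 then y ⟨n, hn⟩ else 0 with hf
      have hfy : (fun j : Fin (p + 1) => f j) = y := by
        funext j
        simp only [hf]
        rw [dif_pos j.isLt]
      have hf0 : ∀ u, u ∉ S ∪ X → f u = 0 := by
        intro u hu
        simp only [hf]
        split_ifs with hn
        · exact hy0 _ (fun hcon => hu ((hmT _).mp hcon))
        · rfl
      have hfp : f p = 0 := hf0 p (fun hcon => hpl (hTl hcon))
      have hu := walk_unique h hTl hw f hf0 (fun u hu => by
        have hul := hTl hu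
        have h1 := hyk ⟨u, by have := hlt u hul; omega⟩ ((hmT _).mpr hu)
        rw [← hfy, hap f _ hul, hfp, mul_zero, add_zero] at h1
        exact h1)
      rw [← hfy]
      funext j
      exact hu j
    · set f : ℕ → ℝ := fun n => if n = p then sg t else x n with hf
      have hfp : f p = sg t := by simp [hf]
      have hfT : ∀ u ∈ labs W, f u = x u := by
        intro u hu
        have : u ≠ p := fun hcon => hpl (hcon ▸ hu)
        simp [hf, this]
      have hkT : ∀ i : Fin (p + 1), (i : ℕ) ∈ S ∪ X → ap M (fun j => f j) i = 0 := by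
        intro i hi
        rw [hap f i (hTl hi), hfp]
        have h1 := hx2 i hi
        rw [← h1]
        congr 1
        exact sum_congr rfl fun v hv => by rw [hfT v hv]
      have hz : ∀ i : Fin (p + 1), i ∉ insert (Fin.last p) (lift S ∪ lift X) → f i = 0 := by
        intro i hi
        rw [mem_insert, not_or, hmT] at hi
        have h1 : (i : ℕ) ≠ p := by
          intro hcon
          exact hi.1 (Fin.ext (by simpa using hcon))
        simp only [hf, if_neg h1]
        exact hx1 i hi.2
      refine ⟨fun i => f i, fun i hi => ?_, hz, by simpa using hfp, fun i hi => ?_⟩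
      · have hiS := (mem_lift S i).mp hi
        have h0 := hx3 i (mem_union_left _ hiS) (hft i hiS)
        rw [← hfT i (hSl hiS)] at h0
        exact h0
      · rcases mem_insert.mp hi with rfl | h1
        · have h2 := skew_self hMs (fun i => f i)
          rw [← add_sum_erase univ _ (mem_univ (Fin.last p))] at h2
          have h3 : ∑ j ∈ univ.erase (Fin.last p), f j * ap M (fun i => f i) j = 0 := by
            refine sum_eq_zero fun j hj => ?_
            by_cases hjT : (j : ℕ) ∈ S ∪ X
            · rw [hkT j hjT, mul_zero]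
            · rw [hz j (by
                rw [mem_insert, not_or, hmT]
                exact ⟨ne_of_mem_erase hj, hjT⟩), zero_mul]
          rw [h3, add_zero] at h2
          have h4 : f (Fin.last p : Fin (p + 1)) = sg t := by simpa using hfp
          rw [h4] at h2
          exact (mul_eq_zero.mp h2).resolve_left (sg_ne t)
        · exact hkT i ((hmT i).mp h1)

end Pool.Agent.Work.MP_63d866_gt
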