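import Pool.Agent.Work.MP_63d866_gt.Skein
import Pool.Agent.Work.MP_63d866_gt.WalkBound

/-! Coefficients of the Conway polynomial are bounded by the number of states. -/

namespace Pool.Agent.Work.MP_63d866_gt

open Polynomial

/-- forget the crossings in `T` and change those in `Q` -/
def tr (T Q : Finset ℕ) (w : List Letter) : List Letter :=
  (w.filter (fun a => decide (a.lab ∉ T))).map (swL Q)

section tr
variable {T Q : Finset ℕ} {a : Letter} {w : List Letter}

@[simp] lemma tr_nil : tr T Q [] = [] := rfl

lemma tr_append (u v : List Letter) : tr T Q (u ++ v) = tr T Q u ++ tr T Q v := by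
  unfold tr; rw [List.filter_append, List.map_append]

lemma tr_cons_in (h : a.lab ∈ T) : tr T Q (a :: w) = tr T Q w := by
  unfold tr; rw [List.filter_cons_of_neg (by simpa using h)]

lemma tr_cons_out (h : a.lab ∉ T) : tr T Q (a :: w) = swL Q a :: tr T Q w := by
  unfold tr; rw [List.filter_cons_of_pos (by simpa using h), List.map_cons]

lemma swL_out (h : a.lab ∉ Q) : swL Q a = a := by unfold swL; rw [if_neg h]

lemma tr_congr {T' Q' : Finset ℕ} (h : ∀ a ∈ w, a.lab ∈ T ↔ a.lab ∈ T')
    (h' : ∀ a ∈ w, a.lab ∈ Q ↔ a.lab ∈ Q') : tr T Q w = tr T' Q' w := by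
  unfold tr
  have h1 : w.filter (fun a => decide (a.lab ∉ T)) = w.filter (fun a => decide (a.lab ∉ T')) := by
    refine List.filter_congr fun b hb => ?_
    rw [decide_eq_decide, not_iff_not]
    exact h b hb
  rw [h1]
  refine List.map_congr_left fun b hb => ?_
  have hb' := (List.mem_filter.mp hb).1
  unfold swL
  by_cases h2 : b.lab ∈ Q
  · rw [if_pos h2, if_pos ((h' b hb').mp h2)]
  · rw [if_neg h2, if_neg (fun h3 => h2 ((h' b hb').mpr h3))]

lemma swL_insert {x : ℕ} (hx : x ∉ Q) (b : Letter) : swL {x} (swL Q b) = swL (insert x Q) b := by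
  unfold swL
  by_cases h1 : b.lab = x
  · have h2 : b.lab ∉ Q := by rw [h1]; exact hx
    simp [h1, hx]
  · by_cases h2 : b.lab ∈ Q
    · simp [h1, h2]
    · simp [h1, h2]

lemma tr_insert_right {x : ℕ} (hx : x ∉ Q) : tr T (insert x Q) w = (tr T Q w).map (swL {x}) := by
  unfold tr
  rw [List.map_map]
  exact List.map_congr_left fun b _ => (swL_insert hx b).symm

lemma mem_tr {b : Letter} : b ∈ tr T Q w ↔ ∃ c ∈ w, c.lab ∉ T ∧ swL Q c = b := by
  unfold tr
  simp only [List.mem_map, List.mem_filter, decide_eq_true_eq]
  constructor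
  · rintro ⟨c, ⟨h1, h2⟩, h3⟩; exact ⟨c, h1, h2, h3⟩
  · rintro ⟨c, h1, h2, h3⟩; exact ⟨c, ⟨h1, h2⟩, h3⟩

end tr

lemma exit_insert {W : List Letter} {T : Finset ℕ} {x : ℕ} {c : Letter} (h : c.lab ≠ x) :
    exit W (insert x T) c = exit W T c := by
  unfold exit
  by_cases h1 : c.lab ∈ T
  · rw [if_pos h1, if_pos (Finset.mem_insert_of_mem h1)]
  · rw [if_neg h1, if_neg (by rw [Finset.mem_insert, not_or]; exact ⟨h, h1⟩)]

lemma exit_insert_self {W : List Letter} {T : Finset ℕ} {a : Letter} (h : a.lab ∉ T) :
    exit W (insert a.lab T) a = exit W T a.mate := by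
  unfold exit
  rw [if_pos (Finset.mem_insert_self _ _), if_neg (by simpa using h)]

lemma exit_insert_mate {W : List Letter} {T : Finset ℕ} {a : Letter} (h : a.lab ∉ T) :
    exit W (insert a.lab T) a.mate = exit W T a := by
  unfold exit
  rw [if_pos (by rw [Letter.mate_lab]; exact Finset.mem_insert_self _ _), if_neg h,
    Letter.mate_mate]

/-- the states of the expansion -/
structure St (W : List Letter) (t : Bool) (T Q : Finset ℕ) (pre suf : List Letter)
    (rest : Code) : Prop where
  perm : (pre ++ suf ++ rest.flatten).Perm W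
  along : Along (fun c => W.idxOf c) (exit W T) 0 (pre ++ suf) W.length
  closed : ∀ r ∈ rest, Closed (fun c => W.idxOf c) (exit W T) r
  hT : T ⊆ labs W
  hQ : Q ⊆ labs pre
  good : Good (!t) (tr T Q pre)
  diag : Diagram (tr T Q (pre ++ suf) :: rest.map (tr T Q))

open Classical in
/-- the states counted -/
noncomputable def Fam (W : List Letter) (t : Bool) (T : Finset ℕ) (pre : List Letter) (k : ℕ) :
    Finset (Finset ℕ) :=
  (labs W).powerset.filter (fun S => S.card = k ∧ Disjoint S T ∧ Disjoint S (labs pre) ∧
    ∃ l l', Walk W (S ∪ T) l ∧ l = pre ++ l' ∧ ∀ u ∈ S, FirstTop l u t)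

lemma mem_Fam {W : List Letter} {t : Bool} {T : Finset ℕ} {pre : List Letter} {k : ℕ}
    {S : Finset ℕ} : S ∈ Fam W t T pre k ↔ S ⊆ labs W ∧ S.card = k ∧ Disjoint S T ∧
      Disjoint S (labs pre) ∧ ∃ l l', Walk W (S ∪ T) l ∧ l = pre ++ l' ∧ ∀ u ∈ S, FirstTop l u t := by
  classical
  unfold Fam
  rw [Finset.mem_filter, Finset.mem_powerset]

lemma labs_snoc (pre : List Letter) (a : Letter) : labs (pre ++ [a]) = insert a.lab (labs pre) := by
  ext x
  rw [Finset.mem_insert, mem_labs, mem_labs]
  constructor
  · rintro ⟨b, hb, rfl⟩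
    rcases List.mem_append.mp hb with h | h
    · exact Or.inr ⟨b, h, rfl⟩
    · exact Or.inl (by rw [List.mem_singleton.mp h])
  · rintro (rfl | ⟨b, hb, rfl⟩)
    · exact ⟨a, by simp, rfl⟩
    · exact ⟨b, by simp [hb], rfl⟩

lemma Fam_mono {W : List Letter} {t : Bool} {T : Finset ℕ} {pre : List Letter} {a : Letter}
    {k : ℕ} : Fam W t T (pre ++ [a]) k ⊆ Fam W t T pre k := by
  intro S hS
  rw [mem_Fam] at hS ⊢
  obtain ⟨h1, h2, h3, h4, l, l', h5, h6, h7⟩ := hS
  rw [labs_snoc, Finset.disjoint_insert_right] at h4
  exact ⟨h1, h2, h3, h4.2, l, a :: l', h5, by rw [h6]; simp, h7⟩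

lemma Fam_step {W : List Letter} (hW : LinWord W) {t : Bool} {T : Finset ℕ}
    {pre : List Letter} {a : Letter} (k : ℕ) (haW : a ∈ W) (haT : a.lab ∉ T)
    (hap : a.lab ∉ labs pre) (hat : a.top = t) :
    (Fam W t T (pre ++ [a]) k).card +
      (if k = 0 then 0 else (Fam W t (insert a.lab T) (pre ++ [a]) (k - 1)).card)
      ≤ (Fam W t T pre k).card := by
  classical
  rcases k with _ | k
  · rw [if_pos rfl, Nat.add_zero]
    exact Finset.card_le_card Fam_mono
  · rw [if_neg (by omega), Nat.add_sub_cancel]
    set F1 := Fam W t T (pre ++ [a]) (k + 1) with hF1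
    set F2 := Fam W t (insert a.lab T) (pre ++ [a]) k with hF2
    have hnot : ∀ S ∈ F2, a.lab ∉ S := by
      intro S hS hcon
      rw [hF2, mem_Fam] at hS
      exact Finset.disjoint_left.mp hS.2.2.1 hcon (Finset.mem_insert_self _ _)
    have hinj : Set.InjOn (fun S : Finset ℕ => insert a.lab S) (F2 : Set (Finset ℕ)) := by
      intro S hS S' hS' heq
      have h1 := congrArg (fun X : Finset ℕ => X.erase a.lab) heq
      simp only at h1
      rwa [Finset.erase_insert (hnot S hS), Finset.erase_insert (hnot S' hS')] at h1
    rw [← Finset.card_image_of_injOn hinj, ← Finset.card_union_of_disjoint]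
    · refine Finset.card_le_card ?_
      intro S hS
      rcases Finset.mem_union.mp hS with hS | hS
      · exact Fam_mono hS
      · obtain ⟨S', hS', rfl⟩ := Finset.mem_image.mp hS
        have hn := hnot S' hS'
        rw [hF2, mem_Fam] at hS'
        obtain ⟨h1, h2, h3, h4, l, l', h5, h6, h7⟩ := hS'
        rw [labs_snoc, Finset.disjoint_insert_right] at h4
        rw [Finset.disjoint_insert_right] at h3
        rw [mem_Fam]
        refine ⟨?_, ?_, ?_, ?_, l, a :: l', ?_, by rw [h6]; simp, ?_⟩
        · exact Finset.insert_subset (lab_mem haW) h1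
        · rw [Finset.card_insert_of_notMem hn, h2]
        · rw [Finset.disjoint_insert_left]; exact ⟨haT, h3.2⟩
        · rw [Finset.disjoint_insert_left]; exact ⟨hap, h4.2⟩
        · rw [Finset.insert_union, ← Finset.union_insert]; exact h5
        · intro u hu
          rcases Finset.mem_insert.mp hu with rfl | hu
          · have hm : a.mate ∈ l := h5.perm.mem_iff.mpr (hW.mate a haW)
            rw [h6, List.append_assoc] at hm
            rcases List.mem_append.mp hm with hm | hm
            · exact absurd (lab_mem hm) hap
            · rcases List.mem_append.mp hm with hm | hm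
              · exact absurd (List.mem_singleton.mp hm) a.mate_ne
              · obtain ⟨Q, l₂, hQ⟩ := List.append_of_mem hm
                refine ⟨pre, a, Q, l₂, ?_, rfl, hat⟩
                rw [h6, hQ]; simp
          · exact h7 u hu
    · rw [Finset.disjoint_left]
      intro S hS hS'
      obtain ⟨S', _, rfl⟩ := Finset.mem_image.mp hS'
      rw [hF1, mem_Fam] at hS
      refine Finset.disjoint_left.mp hS.2.2.2.1 (Finset.mem_insert_self _ _) ?_
      rw [labs_snoc]
      exact Finset.mem_insert_self _ _

section St
variable {W : List Letter} {t : Bool} {T Q : Finset ℕ} {pre suf : List Letter} {rest : Code}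
  {a : Letter}

lemma St.mem (st : St W t T Q pre suf rest) {c : Letter}
    (hc : c ∈ pre ∨ c ∈ suf ∨ c ∈ rest.flatten) : c ∈ W := by
  refine st.perm.mem_iff.mp ?_
  simp only [List.mem_append]
  tauto

lemma St.nodup (hW : LinWord W) (st : St W t T Q pre suf rest) :
    (pre ++ suf ++ rest.flatten).Nodup := st.perm.nodup_iff.mpr hW.nodup

lemma St.notin (hW : LinWord W) (st : St W t T Q pre (a :: suf) rest) (hm : a.mate ∉ pre) :
    a.lab ∉ labs pre := by
  intro h
  obtain ⟨b, hb, hba⟩ := mem_labs.mp h
  rcases hW.lab a (st.mem (by simp)) b (st.mem (by simp [hb])) hba.symm with h1 | h1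
  · have := st.nodup hW
    rw [List.append_assoc] at this
    exact (List.nodup_append.mp this).2.2 b hb a (by simp) h1
  · exact hm (h1 ▸ hb)

lemma St.next (hW : LinWord W) (st : St W t T Q pre (a :: suf) rest)
    (hc : a.lab ∈ T ∨ a.mate ∈ pre ∨ a.top = !t) : St W t T Q (pre ++ [a]) suf rest := by
  have he : (pre ++ [a]) ++ suf = pre ++ a :: suf := by simp
  refine ⟨by rw [he]; exact st.perm, by rw [he]; exact st.along, st.closed, st.hT, ?_, ?_,
    by rw [he]; exact st.diag⟩
  · rw [labs_snoc]
    exact st.hQ.trans (Finset.subset_insert _ _)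
  · rw [tr_append]
    by_cases haT : a.lab ∈ T
    · rw [tr_cons_in haT, tr_nil, List.append_nil]; exact st.good
    · rw [tr_cons_out haT, tr_nil]
      refine st.good.snoc ?_
      by_cases hm : a.mate ∈ pre
      · right
        rw [mem_tr]
        exact ⟨a.mate, hm, haT, (swL_mate Q a).symm⟩
      · left
        have hq : a.lab ∉ Q := fun h => st.notin hW hm (st.hQ h)
        rw [swL_out hq]
        tauto

lemma St.switch (hW : LinWord W) (st : St W t T Q pre (a :: suf) rest) (haT : a.lab ∉ T)
    (hm : a.mate ∉ pre) (hat : a.top = t) :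
    St W t T (insert a.lab Q) (pre ++ [a]) suf rest := by
  have he : (pre ++ [a]) ++ suf = pre ++ a :: suf := by simp
  have hn := st.notin hW hm
  have hq : a.lab ∉ Q := fun h => hn (st.hQ h)
  refine ⟨by rw [he]; exact st.perm, by rw [he]; exact st.along, st.closed, st.hT, ?_, ?_, ?_⟩
  · rw [labs_snoc]
    exact Finset.insert_subset_insert _ st.hQ
  · rw [tr_append, tr_cons_out haT, tr_nil]
    have h1 : tr T (insert a.lab Q) pre = tr T Q pre := by
      refine tr_congr (fun _ _ => Iff.rfl) fun b hb => ?_
      rw [Finset.mem_insert]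
      have : b.lab ≠ a.lab := fun h => hn (h ▸ lab_mem hb)
      tauto
    rw [h1]
    refine st.good.snoc (Or.inl ?_)
    unfold swL
    rw [if_pos (Finset.mem_insert_self _ _), Letter.switch_top, hat]
  · have h1 := st.diag.switch {a.lab}
    rw [List.map_cons, List.map_map] at h1
    rw [he, tr_insert_right hq]
    have h2 : rest.map (tr T (insert a.lab Q)) = rest.map (List.map (swL {a.lab}) ∘ tr T Q) := by
      refine List.map_congr_left fun r _ => ?_
      rw [Function.comp, tr_insert_right hq]
    rw [h2]
    exact h1

/-- letters with another name -/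
lemma St.others (hW : LinWord W) (st : St W t T Q pre (a :: suf) rest)
    {u : List Letter} (hp : (pre ++ (a :: suf) ++ rest.flatten).Perm (a :: a.mate :: u)) :
    ∀ c ∈ u, c.lab ≠ a.lab := by
  intro c hc hlab
  have hnd := hp.nodup_iff.mp (st.nodup hW)
  have hcW : c ∈ W := st.perm.mem_iff.mp (hp.mem_iff.mpr (by simp [hc]))
  rw [List.nodup_cons, List.nodup_cons] at hnd
  rcases hW.lab a (st.mem (by simp)) c hcW hlab.symm with h1 | h1
  · exact hnd.1 (by rw [← h1]; simp [hc])
  · exact hnd.2.1 (by rw [← h1]; exact hc)

lemma St.smooth_self {s₁ s₂ : List Letter}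
    (st : St W t T Q pre (a :: (s₁ ++ a.mate :: s₂)) rest) (haT : a.lab ∉ T)
    (hd : Diagram (tr (insert a.lab T) Q ((pre ++ [a]) ++ s₂) ::
      ((s₁ ++ [a.mate]) :: rest).map (tr (insert a.lab T) Q)))
    (hl : ∀ c ∈ pre ++ (s₁ ++ (s₂ ++ rest.flatten)), c.lab ≠ a.lab) :
    St W t (insert a.lab T) Q (pre ++ [a]) s₂ ((s₁ ++ [a.mate]) :: rest) := by
  have hex : ∀ c ∈ pre ++ (s₁ ++ (s₂ ++ rest.flatten)),
      exit W T c = exit W (insert a.lab T) c := fun c hc => (exit_insert (hl c hc)).symm
  obtain ⟨m, h1, h2⟩ := along_append.mp st.along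
  obtain ⟨h3, h3'⟩ := along_cons.mp h2
  obtain ⟨m', h4, h5⟩ := along_append.mp h3'
  obtain ⟨h6, h7⟩ := along_cons.mp h5
  refine ⟨?_, ?_, ?_, ?_, ?_, ?_, hd⟩
  · refine List.Perm.trans ?_ st.perm
    rw [← Multiset.coe_eq_coe]
    simp only [← Multiset.coe_add, ← Multiset.cons_coe, ← Multiset.singleton_add,
      List.flatten_cons, Multiset.coe_nil]
    abel
  · rw [List.append_assoc]
    refine along_append.mpr ⟨m, along_congr (fun _ _ => rfl) (fun c hc => hex c (by simp [hc])) h1,
      along_append.mpr ⟨exit W T a.mate, ⟨h3, ?_⟩, ?_⟩⟩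
    · rw [along_nil]; exact exit_insert_self haT
    · exact along_congr (fun _ _ => rfl) (fun c hc => hex c (by simp [hc])) h7
  · intro r hr
    rcases List.mem_cons.mp hr with rfl | hr
    · refine ⟨exit W T a, along_append.mpr ⟨m', ?_, h6, ?_⟩⟩
      · exact along_congr (fun _ _ => rfl) (fun c hc => hex c (by simp [hc])) h4
      · rw [along_nil]; exact exit_insert_mate haT
    · refine closed_congr (fun _ _ => rfl) (fun c hc => hex c ?_) (st.closed r hr)
      simp only [List.mem_append]
      exact Or.inr (Or.inr (Or.inr (List.mem_flatten.mpr ⟨r, hr, hc⟩)))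
  · exact Finset.insert_subset (lab_mem (st.mem (by simp))) st.hT
  · rw [labs_snoc]
    exact st.hQ.trans (Finset.subset_insert _ _)
  · rw [tr_append, tr_cons_in (Finset.mem_insert_self _ _), tr_nil, List.append_nil]
    have h1 : tr (insert a.lab T) Q pre = tr T Q pre := by
      refine tr_congr (fun b hb => ?_) (fun _ _ => Iff.rfl)
      have := hl b (by simp [hb])
      rw [Finset.mem_insert]
      tauto
    rw [h1]
    exact st.good

lemma St.smooth_mixed {r₁ r₂ : List Letter} {R₁ R₂ : Code}
    (st : St W t T Q pre (a :: suf) (R₁ ++ (r₁ ++ a.mate :: r₂) :: R₂)) (haT : a.lab ∉ T)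
    (hd : Diagram (tr (insert a.lab T) Q ((pre ++ [a]) ++ (r₂ ++ (r₁ ++ a.mate :: suf))) ::
      (R₁ ++ R₂).map (tr (insert a.lab T) Q)))
    (hl : ∀ c ∈ pre ++ (suf ++ (r₁ ++ (r₂ ++ (R₁ ++ R₂).flatten))), c.lab ≠ a.lab) :
    St W t (insert a.lab T) Q (pre ++ [a]) (r₂ ++ (r₁ ++ a.mate :: suf)) (R₁ ++ R₂) := by
  have hex : ∀ c ∈ pre ++ (suf ++ (r₁ ++ (r₂ ++ (R₁ ++ R₂).flatten))),
      exit W T c = exit W (insert a.lab T) c := fun c hc => (exit_insert (hl c hc)).symm
  obtain ⟨m, h1, h2⟩ := along_append.mp st.along
  obtain ⟨h3, h3'⟩ := along_cons.mp h2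
  obtain ⟨c, hc⟩ := st.closed (r₁ ++ a.mate :: r₂) (by simp)
  obtain ⟨m', h4, h5⟩ := along_append.mp hc
  obtain ⟨h6, h7⟩ := along_cons.mp h5
  refine ⟨?_, ?_, ?_, ?_, ?_, ?_, hd⟩
  · refine List.Perm.trans ?_ st.perm
    rw [← Multiset.coe_eq_coe]
    simp only [← Multiset.coe_add, ← Multiset.cons_coe, ← Multiset.singleton_add,
      List.flatten_cons, Multiset.coe_nil, List.flatten_append]
    abel
  · rw [List.append_assoc]
    refine along_append.mpr ⟨m, along_congr (fun _ _ => rfl) (fun c hc => hex c (by simp [hc])) h1,
      along_append.mpr ⟨exit W T a.mate, ⟨h3, ?_⟩, along_append.mpr ⟨c, ?_,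
        along_append.mpr ⟨m', ?_, h6, ?_⟩⟩⟩⟩
    · rw [along_nil]; exact exit_insert_self haT
    · exact along_congr (fun _ _ => rfl) (fun c hc => hex c (by simp [hc])) h7
    · exact along_congr (fun _ _ => rfl) (fun c hc => hex c (by simp [hc])) h4
    · rw [exit_insert_mate haT]
      exact along_congr (fun _ _ => rfl) (fun c hc => hex c (by simp [hc])) h3'
  · intro r hr
    refine closed_congr (fun _ _ => rfl) (fun c hc => hex c ?_) (st.closed r ?_)
    · simp only [List.mem_append]
      exact Or.inr (Or.inr (Or.inr (Or.inr (List.mem_flatten.mpr ⟨r, hr, hc⟩))))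
    · simp only [List.mem_append, List.mem_cons] at hr ⊢
      tauto
  · exact Finset.insert_subset (lab_mem (st.mem (by simp))) st.hT
  · rw [labs_snoc]
    exact st.hQ.trans (Finset.subset_insert _ _)
  · rw [tr_append, tr_cons_in (Finset.mem_insert_self _ _), tr_nil, List.append_nil]
    have h1 : tr (insert a.lab T) Q pre = tr T Q pre := by
      refine tr_congr (fun b hb => ?_) (fun _ _ => Iff.rfl)
      have := hl b (by simp [hb])
      rw [Finset.mem_insert]
      tauto
    rw [h1]
    exact st.good

end St

variable {P : Code → ℤ[X]}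

theorem expand (hP : IsConway P) {W : List Letter} (hW : LinWord W) (t : Bool) :
    ∀ (n : ℕ) (T Q : Finset ℕ) (pre suf : List Letter) (rest : Code) (k : ℕ),
      suf.length + rest.flatten.length ≤ n → St W t T Q pre suf rest →
      ((P (tr T Q (pre ++ suf) :: rest.map (tr T Q))).coeff k).natAbs ≤ (Fam W t T pre k).card := by
  intro n
  induction n using Nat.strong_induction_on with
  | _ n ih =>
    intro T Q pre suf rest k hn st
    rcases suf with _ | ⟨a, suf⟩
    · have hd := st.diag
      rw [List.append_nil] at hd ⊢
      rw [hP.good (!t) _ _ _ le_rfl hd st.good]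
      by_cases hrest : rest = []
      · subst hrest
        rw [List.map_nil, if_pos rfl, coeff_one]
        by_cases hk : k = 0
        · rw [if_pos hk]
          have : (∅ : Finset ℕ) ∈ Fam W t T pre k := by
            rw [mem_Fam]
            refine ⟨by simp, by simp [hk], by simp, by simp, pre, [], ⟨?_, ?_⟩, by simp, by simp⟩
            · have := st.perm
              simpa using this
            · have := st.along
              rw [List.append_nil] at this
              rw [Finset.empty_union]
              exact this
          have := Finset.card_pos.mpr ⟨_, this⟩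
          simp only [Int.natAbs_one]
          omega
        · rw [if_neg hk]; simp
      · rw [if_neg (by simpa using hrest)]
        simp
    · have hn' : suf.length + 1 + rest.flatten.length ≤ n := by
        simpa using hn
      have he : pre ++ a :: suf = (pre ++ [a]) ++ suf := by simp
      by_cases hc : a.lab ∈ T ∨ a.mate ∈ pre ∨ a.top = !t
      · have h1 := ih (suf.length + rest.flatten.length) (by omega) T Q (pre ++ [a]) suf rest k
          le_rfl (st.next hW hc)
        rw [he]
        exact h1.trans (Finset.card_le_card Fam_mono)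
      · rw [not_or, not_or] at hc
        obtain ⟨haT, hm, hat⟩ := hc
        have hat' : a.top = t := by
          revert hat; cases a.top <;> cases t <;> simp
        have hnl := st.notin hW hm
        have haQ : a.lab ∉ Q := fun h => hnl (st.hQ h)
        have haW : a ∈ W := st.mem (by simp)
        have st1 := st.switch hW haT hm hat'
        have ih1 := ih (suf.length + rest.flatten.length) (by omega) T (insert a.lab Q)
          (pre ++ [a]) suf rest k le_rfl st1
        have hfs := Fam_step hW (T := T) (pre := pre) k haW haT hnl hat'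
        have hmW := hW.mate a haW
        have hm' : a.mate ∈ suf ∨ a.mate ∈ rest.flatten := by
          have := st.perm.mem_iff.mpr hmW
          simp only [List.mem_append, List.mem_cons] at this
          rcases this with (h | h | h) | h
          · exact absurd h hm
          · exact absurd h a.mate_ne
          · exact Or.inl h
          · exact Or.inr h
        have htm : swL Q a.mate = a.mate := swL_out haQ
        have hta : swL Q a = a := swL_out haQ
        have hta' : swL (insert a.lab Q) a = a.switch := by
          unfold swL; rw [if_pos (Finset.mem_insert_self _ _)]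
        have htm' : swL (insert a.lab Q) a.mate = a.mate.switch := by
          unfold swL; rw [if_pos (by rw [Letter.mate_lab]; exact Finset.mem_insert_self _ _)]
        have haTm : a.mate.lab ∉ T := haT
        rcases hm' with hm' | hm'
        · -- self-crossing
          obtain ⟨s₁, s₂, rfl⟩ := List.append_of_mem hm'
          have hl : ∀ c ∈ pre ++ (s₁ ++ (s₂ ++ rest.flatten)), c.lab ≠ a.lab := by
            refine st.others hW ?_
            rw [← Multiset.coe_eq_coe]
            simp only [← Multiset.coe_add, ← Multiset.cons_coe, ← Multiset.singleton_add]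
            abel
          have hlQ : ∀ w : List Letter, (∀ c ∈ w, c.lab ≠ a.lab) →
              tr T (insert a.lab Q) w = tr T Q w := fun w hw =>
            tr_congr (fun _ _ => Iff.rfl) fun c hc => by
              have := hw c hc
              rw [Finset.mem_insert]; tauto
          have hlT : ∀ w : List Letter, (∀ c ∈ w, c.lab ≠ a.lab) →
              tr (insert a.lab T) Q w = tr T Q w := fun w hw =>
            tr_congr (fun c hc => by
              have := hw c hc
              rw [Finset.mem_insert]; tauto) (fun _ _ => Iff.rfl)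
          have hrQ : rest.map (tr T (insert a.lab Q)) = rest.map (tr T Q) :=
            List.map_congr_left fun r hr => hlQ r fun c hc => hl c (by
              simp only [List.mem_append]
              exact Or.inr (Or.inr (Or.inr (List.mem_flatten.mpr ⟨r, hr, hc⟩))))
          have hrT : rest.map (tr (insert a.lab T) Q) = rest.map (tr T Q) :=
            List.map_congr_left fun r hr => hlT r fun c hc => hl c (by
              simp only [List.mem_append]
              exact Or.inr (Or.inr (Or.inr (List.mem_flatten.mpr ⟨r, hr, hc⟩))))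
          -- codes
          have c1 : tr T Q (pre ++ a :: (s₁ ++ a.mate :: s₂))
              = tr T Q pre ++ (a :: tr T Q s₁ ++ a.mate :: tr T Q s₂) := by
            rw [tr_append, tr_cons_out haT, tr_append, tr_cons_out haTm, hta, htm]; rfl
          have c2 : tr T (insert a.lab Q) ((pre ++ [a]) ++ (s₁ ++ a.mate :: s₂))
              = tr T Q pre ++ (a.switch :: tr T Q s₁ ++ a.mate.switch :: tr T Q s₂) := by
            rw [← he, tr_append, tr_cons_out haT, tr_append, tr_cons_out haTm, hta', htm',
              hlQ pre (fun c hc => hl c (by simp [hc])), hlQ s₁ (fun c hc => hl c (by simp [hc])),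
              hlQ s₂ (fun c hc => hl c (by simp [hc]))]
            rfl
          have c3 : tr (insert a.lab T) Q ((pre ++ [a]) ++ s₂) = tr T Q pre ++ tr T Q s₂ := by
            rw [tr_append, tr_append, tr_cons_in (Finset.mem_insert_self _ _), tr_nil,
              List.append_nil, hlT pre (fun c hc => hl c (by simp [hc])),
              hlT s₂ (fun c hc => hl c (by simp [hc]))]
          have c4 : tr (insert a.lab T) Q (s₁ ++ [a.mate]) = tr T Q s₁ := by
            rw [tr_append, tr_cons_in (by rw [Letter.mate_lab]; exact Finset.mem_insert_self _ _),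
              tr_nil, List.append_nil, hlT s₁ (fun c hc => hl c (by simp [hc]))]
          have hd := st.diag
          rw [c1] at hd ⊢
          obtain ⟨hd', hstep⟩ := hP.step_self hd k
          have st2 := st.smooth_self haT (by
            rw [List.map_cons, c3, c4, hrT]; exact hd') hl
          have ih2 := ih (s₂.length + ((s₁ ++ [a.mate]) :: rest).flatten.length) (by
            simp only [List.length_append, List.length_cons] at hn'
            simp only [List.flatten_cons, List.length_append, List.length_cons, List.length_nil]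
            omega) (insert a.lab T) Q (pre ++ [a]) s₂ ((s₁ ++ [a.mate]) :: rest) (k - 1) le_rfl st2
          rw [List.map_cons, c3, c4, hrT] at ih2
          rw [c2, hrQ] at ih1
          refine hstep.trans (le_trans ?_ hfs)
          by_cases hk : k = 0
          · rw [if_pos hk, if_pos hk]
            exact Nat.add_le_add ih1 le_rfl
          · rw [if_neg hk, if_neg hk]
            exact Nat.add_le_add ih1 ih2
        · -- mixed crossing
          obtain ⟨r, hr, har⟩ := List.mem_flatten.mp hm'
          obtain ⟨R₁, R₂, rfl⟩ := List.append_of_mem hr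
          obtain ⟨r₁, r₂, rfl⟩ := List.append_of_mem har
          have hl : ∀ c ∈ pre ++ (suf ++ (r₁ ++ (r₂ ++ (R₁ ++ R₂).flatten))), c.lab ≠ a.lab := by
            refine st.others hW ?_
            rw [← Multiset.coe_eq_coe]
            simp only [← Multiset.coe_add, ← Multiset.cons_coe, ← Multiset.singleton_add,
              List.flatten_append, List.flatten_cons]
            abel
          have hlQ : ∀ w : List Letter, (∀ c ∈ w, c.lab ≠ a.lab) →
              tr T (insert a.lab Q) w = tr T Q w := fun w hw =>
            tr_congr (fun _ _ => Iff.rfl) fun c hc => by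
              have := hw c hc
              rw [Finset.mem_insert]; tauto
          have hlT : ∀ w : List Letter, (∀ c ∈ w, c.lab ≠ a.lab) →
              tr (insert a.lab T) Q w = tr T Q w := fun w hw =>
            tr_congr (fun c hc => by
              have := hw c hc
              rw [Finset.mem_insert]; tauto) (fun _ _ => Iff.rfl)
          have hrmem : ∀ r ∈ R₁ ++ R₂, ∀ c ∈ r, c.lab ≠ a.lab := fun r hr c hc => hl c (by
            simp only [List.mem_append]
            exact Or.inr (Or.inr (Or.inr (Or.inr (List.mem_flatten.mpr ⟨r, hr, hc⟩)))))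
          have hrQ1 : R₁.map (tr T (insert a.lab Q)) = R₁.map (tr T Q) :=
            List.map_congr_left fun r hr => hlQ r (hrmem r (by simp [hr]))
          have hrQ2 : R₂.map (tr T (insert a.lab Q)) = R₂.map (tr T Q) :=
            List.map_congr_left fun r hr => hlQ r (hrmem r (by simp [hr]))
          have hrT : (R₁ ++ R₂).map (tr (insert a.lab T) Q)
              = R₁.map (tr T Q) ++ R₂.map (tr T Q) := by
            rw [← List.map_append]
            exact List.map_congr_left fun r hr => hlT r (hrmem r hr)
          -- codes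
          have c1 : tr T Q (pre ++ a :: suf) = tr T Q pre ++ a :: tr T Q suf := by
            rw [tr_append, tr_cons_out haT, hta]
          have c1' : (R₁ ++ (r₁ ++ a.mate :: r₂) :: R₂).map (tr T Q)
              = R₁.map (tr T Q) ++ (tr T Q r₁ ++ a.mate :: tr T Q r₂) :: R₂.map (tr T Q) := by
            rw [List.map_append, List.map_cons, tr_append, tr_cons_out haTm, htm]
          have c2 : tr T (insert a.lab Q) ((pre ++ [a]) ++ suf)
              = tr T Q pre ++ a.switch :: tr T Q suf := by
            rw [← he, tr_append, tr_cons_out haT, hta',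
              hlQ pre (fun c hc => hl c (by simp [hc])),
              hlQ suf (fun c hc => hl c (by simp [hc]))]
          have c2' : (R₁ ++ (r₁ ++ a.mate :: r₂) :: R₂).map (tr T (insert a.lab Q))
              = R₁.map (tr T Q) ++ (tr T Q r₁ ++ a.mate.switch :: tr T Q r₂) ::
                R₂.map (tr T Q) := by
            rw [List.map_append, List.map_cons, tr_append, tr_cons_out haTm, htm', hrQ1, hrQ2,
              hlQ r₁ (fun c hc => hl c (by simp [hc])),
              hlQ r₂ (fun c hc => hl c (by simp [hc]))]
          have c3 : tr (insert a.lab T) Q ((pre ++ [a]) ++ (r₂ ++ (r₁ ++ a.mate :: suf)))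
              = tr T Q pre ++ (tr T Q r₂ ++ (tr T Q r₁ ++ tr T Q suf)) := by
            rw [tr_append, tr_append, tr_append, tr_append,
              tr_cons_in (a := a) (Finset.mem_insert_self _ _),
              tr_cons_in (a := a.mate) (by rw [Letter.mate_lab]; exact Finset.mem_insert_self _ _),
              tr_nil, List.append_nil, hlT pre (fun c hc => hl c (by simp [hc])),
              hlT r₁ (fun c hc => hl c (by simp [hc])), hlT r₂ (fun c hc => hl c (by simp [hc])),
              hlT suf (fun c hc => hl c (by simp [hc]))]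
          have hd := st.diag
          rw [c1, c1'] at hd ⊢
          obtain ⟨hd', hstep⟩ := hP.step_mixed hd k
          have st2 := st.smooth_mixed haT (by
            rw [c3, hrT]; exact hd') hl
          have ih2 := ih ((r₂ ++ (r₁ ++ a.mate :: suf)).length + (R₁ ++ R₂).flatten.length) (by
            simp only [List.flatten_append, List.flatten_cons, List.length_append,
              List.length_cons] at hn'
            simp only [List.flatten_append, List.length_append, List.length_cons]
            omega) (insert a.lab T) Q (pre ++ [a]) (r₂ ++ (r₁ ++ a.mate :: suf)) (R₁ ++ R₂)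
            (k - 1) le_rfl st2
          rw [c3, hrT] at ih2
          rw [c2, c2'] at ih1
          refine hstep.trans (le_trans ?_ hfs)
          by_cases hk : k = 0
          · rw [if_pos hk, if_pos hk]
            exact Nat.add_le_add ih1 le_rfl
          · rw [if_neg hk, if_neg hk]
            exact Nat.add_le_add ih1 ih2

end Pool.Agent.Work.MP_63d866_gt
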