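import Mathlib

/-! Generic skew-symmetric games. -/

namespace Pool.Agent.Work.MP_63d866_gt

open Finset

set_option linter.unusedSectionVars false

variable {ι : Type*} [Fintype ι] [DecidableEq ι]

/-- `A` applied to `x` -/
def ap (A : ι → ι → ℝ) (x : ι → ℝ) (i : ι) : ℝ := ∑ j, A i j * x j

/-- skew symmetry -/
def Skew (A : ι → ι → ℝ) : Prop := ∀ i j, A i j = - A j i

/-- all even principal minors with index set inside `Vp` are nonsingular -/
def Gen (A : ι → ι → ℝ) (Vp : Finset ι) : Prop :=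
  ∀ T ⊆ Vp, Even T.card → ∀ y : ι → ℝ, (∀ i, i ∉ T → y i = 0) → (∀ i ∈ T, ap A y i = 0) → y = 0

/-- `x` is a solution for `U` with support `S`. -/
structure Sol (A : ι → ι → ℝ) (U S : Finset ι) (x : ι → ℝ) : Prop where
  sub : S ⊆ U
  ne : S.Nonempty
  pos : ∀ i ∈ S, 0 < x i
  zero : ∀ i, i ∉ S → x i = 0
  ker : ∀ i ∈ S, ap A x i = 0
  neg : ∀ i ∈ U, i ∉ S → ap A x i < 0

lemma ap_add (A : ι → ι → ℝ) (x y : ι → ℝ) (i : ι) : ap A (x + y) i = ap A x i + ap A y i := by
  simp [ap, mul_add, sum_add_distrib]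

lemma ap_smul (A : ι → ι → ℝ) (c : ℝ) (x : ι → ℝ) (i : ι) : ap A (c • x) i = c * ap A x i := by
  simp only [ap, Pi.smul_apply, smul_eq_mul, mul_sum]
  exact sum_congr rfl fun j _ => by ring

lemma ap_sub (A : ι → ι → ℝ) (x y : ι → ℝ) (i : ι) : ap A (x - y) i = ap A x i - ap A y i := by
  simp [ap, mul_sub, sum_sub_distrib]

lemma skew_pair {A : ι → ι → ℝ} (hA : Skew A) (x y : ι → ℝ) :
    ∑ i, y i * ap A x i = - ∑ i, x i * ap A y i := by
  simp only [ap, mul_sum]
  rw [sum_comm, ← sum_neg_distrib]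
  refine sum_congr rfl fun j _ => ?_
  rw [← sum_neg_distrib]
  refine sum_congr rfl fun i _ => ?_
  rw [hA i j]
  ring

lemma skew_self {A : ι → ι → ℝ} (hA : Skew A) (x : ι → ℝ) :
    ∑ i, x i * ap A x i = 0 := by
  have := skew_pair hA x x
  linarith

lemma exists_weak {A : ι → ι → ℝ} (hA : Skew A) (U : Finset ι) (hU : U.Nonempty) :
    ∃ x : ι → ℝ, (∀ i, 0 ≤ x i) ∧ (∀ i, i ∉ U → x i = 0) ∧ (∑ i, x i = 1) ∧
      ∀ i ∈ U, ap A x i ≤ 0 := by
  classical
  by_contra hcon
  push Not at hcon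
  set D : Set (ι → ℝ) := {x | (∀ i, 0 ≤ x i) ∧ (∀ i, i ∉ U → x i = 0) ∧ ∑ i, x i = 1} with hD
  have hapc : Continuous (fun x : ι → ℝ => (fun i => ap A x i : ι → ℝ)) := by
    unfold ap; fun_prop
  have hDc : IsCompact D := by
    have hsub : D = stdSimplex ℝ ι ∩ {x | ∀ i, i ∉ U → x i = 0} := by
      ext x
      simp only [hD, stdSimplex, Set.mem_ofPred_eq, Set.mem_inter_iff]
      tauto
    rw [hsub]
    refine (isCompact_stdSimplex ℝ ι).inter_right ?_
    have : {x : ι → ℝ | ∀ i, i ∉ U → x i = 0} = ⋂ i, ⋂ (_ : i ∉ U), {x | x i = 0} := by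
      ext x; simp
    rw [this]
    exact isClosed_iInter fun i => isClosed_iInter fun _ =>
      isClosed_eq (continuous_apply i) continuous_const
  have hDconv : Convex ℝ D := by
    intro x hx y hy a b ha hb hab
    refine ⟨fun i => ?_, fun i hi => ?_, ?_⟩
    · have := hx.1 i; have := hy.1 i
      simp only [Pi.add_apply, Pi.smul_apply, smul_eq_mul]
      positivity
    · simp [hx.2.1 i hi, hy.2.1 i hi]
    · simp only [Pi.add_apply, Pi.smul_apply, smul_eq_mul, sum_add_distrib, ← mul_sum]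
      rw [hx.2.2, hy.2.2]; linarith
  set K : Set (ι → ℝ) := (fun x : ι → ℝ => (fun i => ap A x i : ι → ℝ)) '' D with hK
  have hKc : IsCompact K := hDc.image hapc
  have hKconv : Convex ℝ K := by
    rintro _ ⟨x, hx, rfl⟩ _ ⟨y, hy, rfl⟩ a b ha hb hab
    refine ⟨a • x + b • y, hDconv hx hy ha hb hab, ?_⟩
    funext i
    simp only [Pi.add_apply, Pi.smul_apply, smul_eq_mul]
    rw [ap_add, ap_smul, ap_smul]
  set C : Set (ι → ℝ) := {y | ∀ i ∈ U, y i ≤ 0} with hC
  have hCcl : IsClosed C := by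
    have : C = ⋂ i ∈ U, {y : ι → ℝ | y i ≤ 0} := by ext y; simp [hC]
    rw [this]
    exact isClosed_biInter fun i _ => isClosed_le (continuous_apply i) continuous_const
  have hCconv : Convex ℝ C := by
    intro x hx y hy a b ha hb hab i hi
    have h1 := hx i hi; have h2 := hy i hi
    simp only [Pi.add_apply, Pi.smul_apply, smul_eq_mul]
    nlinarith
  have hdis : Disjoint K C := by
    rw [Set.disjoint_left]
    rintro _ ⟨x, hx, rfl⟩ hy
    obtain ⟨i, hi, hlt⟩ := hcon x hx.1 hx.2.1 hx.2.2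
    have := hy i hi
    simp only at this
    linarith
  obtain ⟨f, u, v, hfu, huv, hfv⟩ :=
    geometric_hahn_banach_compact_closed hKconv hKc hCconv hCcl hdis
  have hf : ∀ y : ι → ℝ, f y = ∑ i, y i * f (Pi.single i 1) := by
    intro y
    conv_lhs => rw [← Finset.univ_sum_single y]
    rw [map_sum]
    refine sum_congr rfl fun i _ => ?_
    have : (Pi.single i (y i) : ι → ℝ) = y i • Pi.single i 1 := by
      rw [← Pi.single_smul']; simp
    rw [this, map_smul, smul_eq_mul]
  have hv0 : v < 0 := by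
    have := hfv 0 (by intro i _; simp)
    simpa using this
  -- unbounded directions
  have hray : ∀ y ∈ C, (∀ c : ℝ, 0 ≤ c → c • y ∈ C) → 0 ≤ f y := by
    intro y _ hcy
    by_contra hneg
    push Not at hneg
    have h1 := hfv ((v / f y + 1) • y) (hcy _ (by
      have : 0 ≤ v / f y := div_nonneg_of_nonpos hv0.le hneg.le
      linarith))
    rw [map_smul, smul_eq_mul, add_mul, div_mul_cancel₀ _ hneg.ne] at h1
    linarith
  have hw : ∀ i ∈ U, f (Pi.single i 1) ≤ 0 := by
    intro i hi
    have := hray (-Pi.single i 1) (by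
      intro j _; rcases eq_or_ne j i with h | h
      · subst h; simp
      · simp [h]) (by
      intro c hc j _
      rcases eq_or_ne j i with h | h
      · subst h; simp [hc]
      · simp [h])
    rw [map_neg] at this
    linarith
  have hw0 : ∀ i, i ∉ U → f (Pi.single i 1) = 0 := by
    intro i hi
    have h1 := hray (Pi.single i 1) (by
      intro j hj
      have : j ≠ i := fun h => hi (h ▸ hj)
      simp [this]) (by
      intro c hc j hj
      have : j ≠ i := fun h => hi (h ▸ hj)
      simp [this])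
    have h2 := hray (-Pi.single i 1) (by
      intro j hj
      have : j ≠ i := fun h => hi (h ▸ hj)
      simp [this]) (by
      intro c hc j hj
      have : j ≠ i := fun h => hi (h ▸ hj)
      simp [this])
    rw [map_neg] at h2
    linarith
  set w : ι → ℝ := fun i => - f (Pi.single i 1) with hwdef
  have hwn : ∀ i, 0 ≤ w i := by
    intro i
    by_cases hi : i ∈ U
    · have := hw i hi; simp only [hwdef]; linarith
    · simp [hwdef, hw0 i hi]
  have hpos : ∀ x ∈ D, 0 < ∑ i, w i * ap A x i := by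
    intro x hx
    have h1 := hfu _ ⟨x, hx, rfl⟩
    rw [hf] at h1
    have : ∑ i, w i * ap A x i = - ∑ i, ap A x i * f (Pi.single i 1) := by
      rw [← sum_neg_distrib]
      exact sum_congr rfl fun i _ => by simp [hwdef]; ring
    rw [this]
    linarith
  have hWpos : 0 < ∑ i, w i := by
    obtain ⟨i0, hi0⟩ := hU
    have hx0 : (Pi.single i0 1 : ι → ℝ) ∈ D := by
      refine ⟨fun j => ?_, fun j hj => ?_, ?_⟩
      · rcases eq_or_ne j i0 with h | h
        · subst h; simp
        · simp [h]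
      · have : j ≠ i0 := fun h => hj (h ▸ hi0)
        simp [this]
      · simp
    have h1 := hpos _ hx0
    by_contra hneg
    have hz : ∑ i, w i = 0 := le_antisymm (not_lt.mp hneg) (sum_nonneg fun i _ => hwn i)
    have hz' : ∀ i, w i = 0 := fun i => (sum_eq_zero_iff_of_nonneg (fun i _ => hwn i)).mp hz i
      (mem_univ i)
    simp [hz'] at h1
  have hxD : ((∑ i, w i)⁻¹ • w) ∈ D := by
    refine ⟨fun i => ?_, fun i hi => ?_, ?_⟩
    · simp only [Pi.smul_apply, smul_eq_mul]
      exact mul_nonneg (inv_nonneg.mpr hWpos.le) (hwn i)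
    · simp [hwdef, hw0 i hi]
    · simp only [Pi.smul_apply, smul_eq_mul, ← mul_sum]
      exact inv_mul_cancel₀ hWpos.ne'
  have h2 := hpos _ hxD
  have h3 : ∑ i, w i * ap A ((∑ i, w i)⁻¹ • w) i = (∑ i, w i)⁻¹ * ∑ i, w i * ap A w i := by
    rw [mul_sum]
    refine sum_congr rfl fun i _ => ?_
    rw [ap_smul]; ring
  rw [h3, skew_self hA w] at h2
  simp at h2

lemma exists_sol {A : ι → ι → ℝ} (hA : Skew A) {Vp : Finset ι} (hG : Gen A Vp) {U : Finset ι}
    (hUV : U ⊆ Vp) (hU : U.Nonempty) : ∃ S x, Sol A U S x := by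
  classical
  obtain ⟨x, hx0, hxU, hx1, hxA⟩ := exists_weak hA U hU
  set S := U.filter (fun i => 0 < x i) with hS
  have hz : ∀ i, i ∉ S → x i = 0 := by
    intro i hi
    by_cases hiU : i ∈ U
    · have : ¬ 0 < x i := fun h => hi (mem_filter.mpr ⟨hiU, h⟩)
      exact le_antisymm (not_lt.mp this) (hx0 i)
    · exact hxU i hiU
  have hsum := skew_self hA x
  have hker : ∀ i ∈ S, ap A x i = 0 := by
    have hterm : ∀ i ∈ (univ : Finset ι), x i * ap A x i ≤ 0 := by
      intro i _
      by_cases hiU : i ∈ U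
      · exact mul_nonpos_of_nonneg_of_nonpos (hx0 i) (hxA i hiU)
      · rw [hxU i hiU]; simp
    have h0 := (sum_eq_zero_iff_of_nonpos hterm).mp hsum
    intro i hi
    have := h0 i (mem_univ i)
    rcases mul_eq_zero.mp this with h | h
    · have := (mem_filter.mp hi).2; linarith
    · exact h
  have hSne : S.Nonempty := by
    by_contra hne
    rw [not_nonempty_iff_eq_empty] at hne
    have : ∑ i, x i = 0 := sum_eq_zero fun i _ => hz i (by simp [hne])
    linarith
  have hSV : S ⊆ Vp := (filter_subset _ _).trans hUV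
  have hxne : x ≠ 0 := by
    rintro rfl; simp at hx1
  have hodd : ¬ Even S.card := fun he => hxne (hG S hSV he x hz hker)
  refine ⟨S, x, filter_subset _ _, hSne, fun i hi => (mem_filter.mp hi).2, hz, hker, ?_⟩
  intro i hiU hiS
  refine lt_of_le_of_ne (hxA i hiU) fun h0 => ?_
  have he : Even (insert i S).card := by
    rw [card_insert_of_notMem hiS]
    rw [Nat.even_add_one]; exact hodd
  apply hxne
  refine hG (insert i S) (insert_subset (hUV hiU) hSV) he x (fun j hj => hz j fun h =>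
    hj (mem_insert_of_mem h)) fun j hj => ?_
  rcases mem_insert.mp hj with rfl | h
  · exact h0
  · exact hker j h

lemma Sol.odd {A : ι → ι → ℝ} {Vp U S : Finset ι} {x : ι → ℝ} (hG : Gen A Vp) (hUV : U ⊆ Vp)
    (h : Sol A U S x) : ¬ Even S.card := by
  intro he
  have := hG S (h.sub.trans hUV) he x h.zero h.ker
  obtain ⟨i, hi⟩ := h.ne
  have h1 := h.pos i hi
  rw [this] at h1
  simp at h1

lemma sol_unique {A : ι → ι → ℝ} (hA : Skew A) {U S S' : Finset ι} {x x' : ι → ℝ}
    (h : Sol A U S x) (h' : Sol A U S' x') : S = S' := by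
  have key : ∀ {S S' : Finset ι} {x x' : ι → ℝ}, Sol A U S x → Sol A U S' x' → S' ⊆ S ∧
      ∑ i, x' i * ap A x i ≤ 0 := by
    intro S S' x x' h h'
    have hterm : ∀ {S S' : Finset ι} {x x' : ι → ℝ}, Sol A U S x → Sol A U S' x' →
        ∀ i ∈ (univ : Finset ι), x' i * ap A x i ≤ 0 := by
      intro S S' x x' h h' i _
      by_cases hi' : i ∈ S'
      · have h1 := h'.pos i hi'
        by_cases hi : i ∈ S
        · rw [h.ker i hi]; simp
        · have := h.neg i (h'.sub hi') hi
          exact mul_nonpos_of_nonneg_of_nonpos h1.le this.le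
      · rw [h'.zero i hi']; simp
    have h1 : ∑ i, x' i * ap A x i ≤ 0 := sum_nonpos (hterm h h')
    have h2 : ∑ i, x i * ap A x' i ≤ 0 := sum_nonpos (hterm h' h)
    have h3 := skew_pair hA x x'
    have h4 : ∑ i, x' i * ap A x i = 0 := by linarith
    refine ⟨fun i hi => ?_, h1⟩
    by_contra hiS
    have h5 := (sum_eq_zero_iff_of_nonpos (hterm h h')).mp h4 i (mem_univ i)
    have h6 := h.neg i (h'.sub hi) hiS
    have h7 := h'.pos i hi
    have h8 : x' i * ap A x i < 0 := mul_neg_of_pos_of_neg h7 h6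
    linarith
  exact subset_antisymm (key h' h).1 (key h h').1

/-- kernel vectors with odd support are proportional -/
lemma ker_unique {A : ι → ι → ℝ} {Vp S : Finset ι} {x x' : ι → ℝ} (hG : Gen A Vp)
    (hSV : S ⊆ Vp) {i₀ : ι} (hi₀ : i₀ ∈ S) (hodd : ¬ Even S.card)
    (hx : x i₀ ≠ 0) (hz : ∀ i, i ∉ S → x i = 0) (hk : ∀ i ∈ S, ap A x i = 0)
    (hz' : ∀ i, i ∉ S → x' i = 0) (hk' : ∀ i ∈ S, ap A x' i = 0) :
    x' = (x' i₀ / x i₀) • x := by
  have he : Even (S.erase i₀).card := by
    rw [card_erase_of_mem hi₀]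
    rcases Nat.even_or_odd S.card with h | h
    · exact absurd h hodd
    · obtain ⟨m, hm⟩ := h
      rw [hm]; simp
  have := hG (S.erase i₀) ((erase_subset _ _).trans hSV) he (x' - (x' i₀ / x i₀) • x)
    (fun i hi => by
      by_cases h : i = i₀
      · subst h
        simp only [Pi.sub_apply, Pi.smul_apply, smul_eq_mul]
        rw [div_mul_cancel₀ _ hx]; ring
      · have : i ∉ S := fun hS => hi (mem_erase.mpr ⟨h, hS⟩)
        simp [hz i this, hz' i this])
    (fun i hi => by
      rw [ap_sub, ap_smul, hk i (mem_of_mem_erase hi), hk' i (mem_of_mem_erase hi)]; ring)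
  rw [sub_eq_zero] at this
  exact this

end Pool.Agent.Work.MP_63d866_gt
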