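import Pool.Agent.Work.MP_63d866_gt.Count
import Pool.Agent.Work.MP_63d866_gt.Game

/-! The counting bound for generic skew matrices. -/

namespace Pool.Agent.Work.MP_63d866_gt

open Finset

set_option linter.unusedSectionVars false

variable {ι : Type*} [Fintype ι] [DecidableEq ι]

/-- positive kernel vector on `S` -/
structure PK (A : ι → ι → ℝ) (S : Finset ι) (x : ι → ℝ) : Prop where
  ne : S.Nonempty
  pos : ∀ i ∈ S, 0 < x i
  zero : ∀ i, i ∉ S → x i = 0
  ker : ∀ i ∈ S, ap A x i = 0

lemma PK.odd {A : ι → ι → ℝ} {V S : Finset ι} {x : ι → ℝ} (hG : Gen A V) (hS : S ⊆ V)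
    (h : PK A S x) : ¬ Even S.card := by
  intro he
  have := hG S hS he x h.zero h.ker
  obtain ⟨i, hi⟩ := h.ne
  have h1 := h.pos i hi
  rw [this] at h1
  simp at h1

lemma ap_ne_zero {A : ι → ι → ℝ} {V S : Finset ι} {x : ι → ℝ} (hG : Gen A V) (hS : S ⊆ V)
    (hodd : ¬ Even S.card) (hx : x ≠ 0) (hz : ∀ i, i ∉ S → x i = 0)
    (hk : ∀ i ∈ S, ap A x i = 0) {i : ι} (hi : i ∈ V) (hiS : i ∉ S) : ap A x i ≠ 0 := by
  intro h0
  have he : Even (insert i S).card := by
    rw [card_insert_of_notMem hiS, Nat.even_add_one]; exact hodd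
  apply hx
  refine hG (insert i S) (insert_subset hi hS) he x
    (fun j hj => hz j fun h => hj (mem_insert_of_mem h)) fun j hj => ?_
  rcases mem_insert.mp hj with rfl | h
  · exact h0
  · exact hk j h

theorem odd_bound {A : ι → ι → ℝ} (hA : Skew A) (V : Finset ι) (hG : Gen A V) (k s : ℕ)
    (hk : Odd k) (hs : s ≤ V.card) (F : Finset (Finset ι))
    (hF : ∀ S ∈ F, S ⊆ V ∧ S.card = k ∧ ∃ x, PK A S x) :
    F.card ≤ (V.card - s).choose k + (s + k - 1).choose k := by
  classical
  set I : Finset (Finset ι) := V.powerset.filter (fun S => ∃ x, PK A S x) with hI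
  set P : Finset ι → Finset ι := fun S =>
    V.filter (fun i => i ∉ S ∧ ∃ x, PK A S x ∧ 0 < ap A x i) with hP
  have hmain := count_bound V k s hs I (fun S => S) P
    (fun S hS => mem_powerset.mp (mem_filter.mp hS).1)
    (fun S _ => filter_subset _ _)
    (fun S _ => by
      rw [disjoint_left]
      intro i hi hi'
      exact (mem_filter.mp hi').2.1 hi)
    (fun S hS => by
      have hSV := mem_powerset.mp (mem_filter.mp hS).1
      obtain ⟨x, hx⟩ := (mem_filter.mp hS).2
      have := hx.odd hG hSV
      rw [Nat.not_even_iff_odd] at this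
      exact hk.add_odd this)
    (fun U hUV hU => by
      obtain ⟨S₀, x₀, h₀⟩ := exists_sol hA hG hUV hU
      rw [card_eq_one]
      refine ⟨S₀, ?_⟩
      ext S
      rw [mem_filter, mem_singleton]
      constructor
      · rintro ⟨hSI, hSU, hdis⟩
        obtain ⟨x, hx⟩ := (mem_filter.mp hSI).2
        have hSV := mem_powerset.mp (mem_filter.mp hSI).1
        have hsol : Sol A U S x := by
          refine ⟨hSU, hx.ne, hx.pos, hx.zero, hx.ker, fun i hi hiS => ?_⟩
          have hne : ap A x i ≠ 0 := by
            refine ap_ne_zero hG hSV (hx.odd hG hSV) ?_ hx.zero hx.ker (hUV hi) hiS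
            rintro rfl
            obtain ⟨j, hj⟩ := hx.ne
            have := hx.pos j hj
            simp at this
          refine lt_of_le_of_ne ?_ hne
          by_contra hcon
          push Not at hcon
          exact (disjoint_left.mp hdis (mem_filter.mpr ⟨hUV hi, hiS, x, hx, hcon⟩)) hi
        exact (sol_unique hA hsol h₀)
      · rintro rfl
        have hpk : PK A S x₀ := ⟨h₀.ne, h₀.pos, h₀.zero, h₀.ker⟩
        refine ⟨mem_filter.mpr ⟨mem_powerset.mpr (h₀.sub.trans hUV), x₀, hpk⟩, h₀.sub, ?_⟩
        rw [disjoint_left]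
        intro i hi hiU
        obtain ⟨_, hiS, x, hx, hpos⟩ := mem_filter.mp hi
        obtain ⟨j, hj⟩ := h₀.ne
        have hprop := ker_unique (x := x₀) (x' := x) hG (h₀.sub.trans hUV) hj
          (hpk.odd hG (h₀.sub.trans hUV)) (h₀.pos j hj).ne' h₀.zero h₀.ker hx.zero hx.ker
        rw [hprop, ap_smul] at hpos
        have h1 : 0 < x j / x₀ j := div_pos (hx.pos j hj) (h₀.pos j hj)
        have h2 := h₀.neg i hiU hiS
        have := mul_neg_of_pos_of_neg h1 h2
        linarith)
    (by
      rw [hk.neg_one_pow]
      have : I.filter (fun S => S = ∅) = ∅ := by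
        rw [filter_eq_empty_iff]
        rintro S hS rfl
        obtain ⟨x, hx⟩ := (mem_filter.mp hS).2
        exact not_nonempty_empty hx.ne
      rw [this]; simp)
  refine le_trans (card_le_card ?_) hmain
  intro S hS
  obtain ⟨h1, h2, h3⟩ := hF S hS
  exact mem_filter.mpr ⟨mem_filter.mpr ⟨mem_powerset.mpr h1, h3⟩, h2⟩

/-! ### The even case -/

/-- the sign attached to a Boolean -/
def sg (t : Bool) : ℝ := if t then 1 else -1

lemma sg_mul_self (t : Bool) : sg t * sg t = 1 := by cases t <;> simp [sg]
lemma sg_not (t : Bool) : sg (!t) = - sg t := by cases t <;> simp [sg]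
lemma sg_ne (t : Bool) : sg t ≠ 0 := by cases t <;> simp [sg]

/-- the coordinate rescaling -/
def sc (p : ι) (t : Bool) (i : ι) : ℝ := if i = p then sg t else 1

lemma sc_mul_self (p : ι) (t : Bool) (i : ι) : sc p t i * sc p t i = 1 := by
  unfold sc; split_ifs
  · exact sg_mul_self t
  · norm_num

/-- reorient `p` if `t = false` -/
def flipA (A : ι → ι → ℝ) (p : ι) (t : Bool) (i j : ι) : ℝ := sc p t i * sc p t j * A i j

/-- rescaled vector -/
def scv (p : ι) (t : Bool) (x : ι → ℝ) (i : ι) : ℝ := sc p t i * x i

lemma scv_scv (p : ι) (t : Bool) (x : ι → ℝ) : scv p t (scv p t x) = x := by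
  funext i
  simp only [scv]
  rw [← mul_assoc, sc_mul_self, one_mul]

lemma ap_flip (A : ι → ι → ℝ) (p : ι) (t : Bool) (x : ι → ℝ) (i : ι) :
    ap (flipA A p t) x i = sc p t i * ap A (scv p t x) i := by
  simp only [ap, flipA, scv, mul_sum]
  exact sum_congr rfl fun j _ => by ring

lemma skew_flip {A : ι → ι → ℝ} (hA : Skew A) (p : ι) (t : Bool) : Skew (flipA A p t) := by
  intro i j
  simp only [flipA]
  rw [hA i j]; ring

lemma sc_ne (p : ι) (t : Bool) (i : ι) : sc p t i ≠ 0 := by
  intro h
  have := sc_mul_self p t i
  rw [h] at this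
  norm_num at this

lemma gen_flip {A : ι → ι → ℝ} {V : Finset ι} (hG : Gen A V) (p : ι) (t : Bool) :
    Gen (flipA A p t) V := by
  intro T hT he y hz hk
  have := hG T hT he (scv p t y) (fun i hi => by simp [scv, hz i hi]) (fun i hi => by
    have h := hk i hi
    rw [ap_flip] at h
    rcases mul_eq_zero.mp h with h' | h'
    · exact absurd h' (sc_ne p t i)
    · exact h')
  rw [← scv_scv p t y, this]
  funext i
  simp [scv]

/-- kernel vector on `insert p S`, positive on `S`, value `± 1` at `p` -/
structure PKp (A : ι → ι → ℝ) (p : ι) (S : Finset ι) (t : Bool) (x : ι → ℝ) : Prop where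
  pos : ∀ i ∈ S, 0 < x i
  zero : ∀ i, i ∉ insert p S → x i = 0
  val : x p = sg t
  ker : ∀ i ∈ insert p S, ap A x i = 0

theorem even_bound {A : ι → ι → ℝ} (hA : Skew A) (V : Finset ι) (p : ι) (hp : p ∉ V)
    (hG : Gen A (insert p V)) (k s : ℕ)
    (hk : Even k) (hs : s ≤ V.card) (F : Finset (Finset ι × Bool))
    (hF : ∀ j ∈ F, j.1 ⊆ V ∧ j.1.card = k ∧ ∃ x, PKp A p j.1 j.2 x) :
    F.card ≤ (V.card - s).choose k + (s + k - 1).choose k := by
  classical
  set I : Finset (Finset ι × Bool) :=
    (V.powerset ×ˢ (univ : Finset Bool)).filter (fun j => ∃ x, PKp A p j.1 j.2 x) with hI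
  set P : Finset ι × Bool → Finset ι := fun j =>
    V.filter (fun i => i ∉ j.1 ∧ ∃ x, PKp A p j.1 j.2 x ∧ 0 < ap A x i) with hP
  have hIV : ∀ j ∈ I, j.1 ⊆ V := fun j hj =>
    mem_powerset.mp (mem_product.mp (mem_filter.mp hj).1).1
  have hne : ∀ {S : Finset ι} {t : Bool} {x : ι → ℝ}, PKp A p S t x → x ≠ 0 := by
    rintro S t x hx rfl
    have := hx.val
    simp only [Pi.zero_apply] at this
    exact sg_ne t this.symm
  have hodd : ∀ {S : Finset ι} {t : Bool} {x : ι → ℝ}, S ⊆ V → PKp A p S t x →
      ¬ Even (insert p S).card := by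
    intro S t x hS hx he
    exact hne hx (hG _ (insert_subset_insert p hS) he x hx.zero hx.ker)
  -- from a member of the filtered set to a solution of the flipped game
  have htoSol : ∀ {U : Finset ι}, U ⊆ V → ∀ j ∈ I, j.1 ⊆ U → Disjoint (P j) U →
      ∃ x, Sol (flipA A p j.2) (insert p U) (insert p j.1) x := by
    intro U hUV j hj hjU hdis
    obtain ⟨x, hx⟩ := (mem_filter.mp hj).2
    have hjV := hIV j hj
    refine ⟨scv p j.2 x, insert_subset_insert p hjU, insert_nonempty _ _, fun i hi => ?_,
      fun i hi => ?_, fun i hi => ?_, fun i hi hiS => ?_⟩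
    · rcases mem_insert.mp hi with rfl | h
      · simp only [scv, sc, if_true]
        rw [hx.val, sg_mul_self]; norm_num
      · have : i ≠ p := fun h' => hp (h' ▸ hjV h)
        simp only [scv, sc, if_neg this, one_mul]
        exact hx.pos i h
    · simp [scv, hx.zero i hi]
    · rw [ap_flip, scv_scv, hx.ker i hi, mul_zero]
    · rw [ap_flip, scv_scv]
      have hip : i ≠ p := fun h' => hiS (h' ▸ mem_insert_self _ _)
      have hiU : i ∈ U := (mem_insert.mp hi).resolve_left hip
      have hij : i ∉ j.1 := fun h => hiS (mem_insert_of_mem h)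
      simp only [sc, if_neg hip, one_mul]
      have hn0 : ap A x i ≠ 0 := ap_ne_zero hG (insert_subset_insert p hjV) (hodd hjV hx)
        (hne hx) hx.zero hx.ker (mem_insert_of_mem (hUV hiU)) hiS
      refine lt_of_le_of_ne ?_ hn0
      by_contra hcon
      push Not at hcon
      exact (disjoint_left.mp hdis (mem_filter.mpr ⟨hUV hiU, hij, x, hx, hcon⟩)) hiU
  have hmain := count_bound V k s hs I (fun j => j.1) P hIV
    (fun j _ => filter_subset _ _)
    (fun j _ => by
      rw [disjoint_left]
      intro i hi hi'
      exact (mem_filter.mp hi').2.1 hi)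
    (fun j hj => by
      obtain ⟨x, hx⟩ := (mem_filter.mp hj).2
      have hjV := hIV j hj
      have := hodd hjV hx
      rw [card_insert_of_notMem (fun h => hp (hjV h)), Nat.even_add_one, not_not] at this
      exact hk.add this)
    (fun U hUV hU => by
      -- the solution without `p`
      obtain ⟨S₀, x₀, h₀⟩ := exists_sol hA hG (hUV.trans (subset_insert _ _)) hU
      have hpU : p ∉ U := fun h => hp (hUV h)
      have hpS₀ : p ∉ S₀ := fun h => hpU (h₀.sub h)
      have hS₀V : S₀ ⊆ insert p V := h₀.sub.trans (hUV.trans (subset_insert _ _))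
      have hx₀p : x₀ p = 0 := h₀.zero p hpS₀
      have hx₀ne : x₀ ≠ 0 := by
        rintro rfl
        obtain ⟨j, hj⟩ := h₀.ne
        have := h₀.pos j hj
        simp at this
      have hodd₀ : ¬ Even S₀.card := h₀.odd hG (hUV.trans (subset_insert _ _))
      have hy : ap A x₀ p ≠ 0 := ap_ne_zero hG hS₀V hodd₀ hx₀ne h₀.zero h₀.ker
        (mem_insert_self _ _) hpS₀
      have hsc₀ : ∀ t, scv p t x₀ = x₀ := by
        intro t; funext i
        simp only [scv, sc]
        split_ifs with h
        · rw [h, hx₀p]; simp
        · simp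
      have hflip₀ : ∀ t i, ap (flipA A p t) x₀ i = sc p t i * ap A x₀ i := by
        intro t i; rw [ap_flip, hsc₀]
      -- `x₀` solves the game on `U` for both orientations
      have hsolU : ∀ t, Sol (flipA A p t) U S₀ x₀ := by
        intro t
        refine ⟨h₀.sub, h₀.ne, h₀.pos, h₀.zero, fun i hi => ?_, fun i hi hiS => ?_⟩
        · rw [hflip₀, h₀.ker i hi, mul_zero]
        · rw [hflip₀]
          have : i ≠ p := fun h => hpU (h ▸ hi)
          simp only [sc, if_neg this, one_mul]
          exact h₀.neg i hi hiS
      -- choose the orientation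
      obtain ⟨t₁, ht₁⟩ : ∃ t : Bool, 0 < sg t * ap A x₀ p := by
        rcases lt_or_gt_of_ne hy with h | h
        · exact ⟨false, by simp [sg]; exact h⟩
        · exact ⟨true, by simp [sg]; exact h⟩
      obtain ⟨S', x', h'⟩ := exists_sol (skew_flip hA p t₁) (gen_flip hG p t₁)
        (insert_subset_insert p hUV) (insert_nonempty p U)
      have hpS' : p ∈ S' := by
        by_contra hcon
        have hsub : S' ⊆ U := by
          intro i hi
          exact (mem_insert.mp (h'.sub hi)).resolve_left (fun h => hcon (h ▸ hi))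
        have hsolU' : Sol (flipA A p t₁) U S' x' :=
          ⟨hsub, h'.ne, h'.pos, h'.zero, h'.ker, fun i hi hiS => h'.neg i (mem_insert_of_mem hi) hiS⟩
        have hSS : S' = S₀ := sol_unique (skew_flip hA p t₁) hsolU' (hsolU t₁)
        subst hSS
        obtain ⟨j, hj⟩ := h₀.ne
        have hprop := ker_unique (x := x₀) (x' := x') (gen_flip hG p t₁) hS₀V hj hodd₀
          (h₀.pos j hj).ne' h₀.zero (hsolU t₁).ker h'.zero h'.ker
        have h1 := h'.neg p (mem_insert_self _ _) hcon
        rw [hprop, ap_smul, hflip₀] at h1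
        simp only [sc, if_true] at h1
        have h2 : 0 < x' j / x₀ j := div_pos (h'.pos j hj) (h₀.pos j hj)
        have := mul_pos h2 ht₁
        linarith
      rw [card_eq_one]
      refine ⟨(S'.erase p, t₁), ?_⟩
      ext ⟨S, t⟩
      rw [mem_filter, mem_singleton]
      constructor
      · rintro ⟨hSI, hSU, hdis⟩
        obtain ⟨x, hx⟩ := htoSol hUV _ hSI hSU hdis
        simp only at hx hSU
        have hpS : p ∉ S := fun h => hpU (hSU h)
        by_cases htt : t = t₁
        · subst htt
          have := sol_unique (skew_flip hA p t) hx h'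
          rw [← this, erase_insert hpS]
        · exfalso
          have ht : sg t * ap A x₀ p < 0 := by
            have : t = !t₁ := by cases t <;> cases t₁ <;> simp_all
            rw [this, sg_not]; linarith
          have hsolp : Sol (flipA A p t) (insert p U) S₀ x₀ := by
            refine ⟨h₀.sub.trans (subset_insert _ _), h₀.ne, h₀.pos, h₀.zero, (hsolU t).ker,
              fun i hi hiS => ?_⟩
            rcases mem_insert.mp hi with rfl | h
            · rw [hflip₀]
              simp only [sc, if_true]
              exact ht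
            · exact (hsolU t).neg i h hiS
          have := sol_unique (skew_flip hA p t) hx hsolp
          exact hpS₀ (this ▸ mem_insert_self _ _)
      · intro heq
        obtain ⟨rfl, rfl⟩ := Prod.mk_inj.mp heq
        have hsub : S'.erase p ⊆ U := by
          intro i hi
          exact (mem_insert.mp (h'.sub (mem_of_mem_erase hi))).resolve_left (ne_of_mem_erase hi)
        have hins : insert p (S'.erase p) = S' := insert_erase hpS'
        -- the normalised kernel vector
        have hpk : PKp A p (S'.erase p) t (scv p t ((x' p)⁻¹ • x')) := by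
          have hxp := h'.pos p hpS'
          refine ⟨fun i hi => ?_, fun i hi => ?_, ?_, fun i hi => ?_⟩
          · have hip := ne_of_mem_erase hi
            simp only [scv, sc, if_neg hip, one_mul, Pi.smul_apply, smul_eq_mul]
            exact mul_pos (inv_pos.mpr hxp) (h'.pos i (mem_of_mem_erase hi))
          · rw [hins] at hi
            simp [scv, h'.zero i hi]
          · simp only [scv, sc, if_true, Pi.smul_apply, smul_eq_mul]
            rw [inv_mul_cancel₀ hxp.ne', mul_one]
          · rw [hins] at hi
            have h1 : ap (flipA A p t) ((x' p)⁻¹ • x') i = 0 := by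
              rw [ap_smul, h'.ker i hi, mul_zero]
            rw [ap_flip] at h1
            exact (mul_eq_zero.mp h1).resolve_left (sc_ne p t i)
        refine ⟨mem_filter.mpr ⟨mem_product.mpr ⟨mem_powerset.mpr (hsub.trans hUV), mem_univ _⟩,
          _, hpk⟩, hsub, ?_⟩
        rw [disjoint_left]
        intro i hi hiU
        obtain ⟨_, hiS, x, hx, hpos⟩ := mem_filter.mp hi
        simp only at hiS hx
        have hip : i ≠ p := fun h => hpU (h ▸ hiU)
        have hS'V : S' ⊆ insert p V := h'.sub.trans (insert_subset_insert p hUV)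
        have hprop := ker_unique (x := x') (x' := scv p t x) (gen_flip hG p t)
          hS'V hpS' (h'.odd (gen_flip hG p t) (insert_subset_insert p hUV)) (h'.pos p hpS').ne'
          h'.zero h'.ker
          (fun l hl => by
            have := hx.zero l (by rw [hins]; exact hl)
            simp [scv, this])
          (fun l hl => by
            rw [ap_flip, scv_scv, hx.ker l (by rw [hins]; exact hl), mul_zero])
        have hsp : scv p t x p = 1 := by
          simp only [scv, sc, if_true]
          rw [hx.val, sg_mul_self]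
        have hiS' : i ∉ S' := fun h => hiS (mem_erase.mpr ⟨hip, h⟩)
        have h1 := h'.neg i (mem_insert_of_mem hiU) hiS'
        have h2 : ap (flipA A p t) (scv p t x) i = ap A x i := by
          rw [ap_flip, scv_scv]; simp [sc, hip]
        rw [← h2, hprop, ap_smul, hsp] at hpos
        have h3 : 0 < 1 / x' p := one_div_pos.mpr (h'.pos p hpS')
        have := mul_neg_of_pos_of_neg h3 h1
        linarith)
    (by
      rw [hk.neg_one_pow]
      have : I.filter (fun j => j.1 = ∅) = {((∅ : Finset ι), true), (∅, false)} := by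
        ext ⟨S, t⟩
        rw [mem_filter, mem_insert, mem_singleton]
        constructor
        · rintro ⟨_, h⟩
          simp only at h
          subst h
          cases t <;> simp
        · intro h
          have hS : S = ∅ := by
            rcases h with h | h <;> exact (Prod.mk_inj.mp h).1
          subst hS
          refine ⟨mem_filter.mpr ⟨mem_product.mpr ⟨by simp, mem_univ _⟩,
            (fun i => if i = p then sg t else 0), ?_⟩, rfl⟩
          refine ⟨by simp, fun i hi => ?_, by simp, fun i hi => ?_⟩
          · have : i ≠ p := fun h => hi (by simp [h])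
            simp [this]
          · have : i = p := by simpa using hi
            subst this
            have h0 : A i i = 0 := by have := hA i i; linarith
            simp [ap, h0]
      rw [this]
      rw [card_insert_of_notMem (by simp), card_singleton]
      norm_num)
  refine le_trans (card_le_card ?_) hmain
  intro j hj
  obtain ⟨h1, h2, h3⟩ := hF j hj
  exact mem_filter.mpr ⟨mem_filter.mpr ⟨mem_product.mpr ⟨mem_powerset.mpr h1, mem_univ _⟩, h3⟩, h2⟩

end Pool.Agent.Work.MP_63d866_gt
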