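import Pool.Agent.Work.MP_63d866_gt.Expand

/-! A linear word for a diagram, and the bound for the coefficients. -/

namespace Pool.Agent.Work.MP_63d866_gt

open Polynomial

lemma along_shift {i o i' o' : Letter → ℕ} {u : List Letter} {m : ℕ} : ∀ {c c' : ℕ},
    (∀ a ∈ u, i' a = m + i a) → (∀ a ∈ u, o' a = m + o a) → Along i o c u c' →
    Along i' o' (m + c) u (m + c') := by
  induction u with
  | nil => intro c c' _ _ h; rw [along_nil] at h ⊢; rw [h]
  | cons a u ih =>
    intro c c' hi ho h
    refine ⟨by rw [hi a (by simp), h.1], ?_⟩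
    rw [ho a (by simp)]
    exact ih (fun b hb => hi b (by simp [hb])) (fun b hb => ho b (by simp [hb])) h.2

lemma along_segment {W : List Letter} {T : Finset ℕ} (hW : W.Nodup) : ∀ (u A B : List Letter),
    W = A ++ (u ++ B) → (∀ a ∈ u, a.lab ∉ T) →
    Along (fun c => W.idxOf c) (exit W T) A.length u (A.length + u.length) := by
  intro u
  induction u with
  | nil => intro A B _ _; simp
  | cons a u ih =>
    intro A B h hT
    have hidx : W.idxOf a = A.length := by
      rw [h, List.idxOf_append_of_notMem, List.cons_append, List.idxOf_cons_self, Nat.add_zero]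
      intro ha
      rw [h] at hW
      exact (List.nodup_append.mp hW).2.2 a ha a (by simp) rfl
    refine ⟨hidx, ?_⟩
    have hex : exit W T a = (A ++ [a]).length := by
      unfold exit
      rw [if_neg (hT a (by simp)), hidx, List.length_append, List.length_singleton]
    rw [hex]
    have h1 := ih (A ++ [a]) B (by rw [h]; simp) (fun b hb => hT b (by simp [hb]))
    have h2 : (A ++ [a]).length + u.length = A.length + (a :: u).length := by
      simp; omega
    rw [h2] at h1
    exact h1

/-- what the linear word has to satisfy -/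
structure Lin (N : Finset ℕ) (w₁ : List Letter) (R : Code) (W : List Letter) (T : Finset ℕ)
    (pre : List Letter) (rest : Code) : Prop where
  dis : Disjoint N T
  nodup : W.Nodup
  perm : (pre ++ w₁ ++ rest.flatten).Perm W
  along : Along (fun c => W.idxOf c) (exit W T) 0 (pre ++ w₁) W.length
  closed : ∀ r ∈ rest, Closed (fun c => W.idxOf c) (exit W T) r
  hT : T ⊆ labs W
  hpre : labs pre ⊆ T
  hrest : rest.map (List.filter fun a => decide (a.lab ∉ T)) = R
  mate : ∀ c ∈ W, c.lab ∈ T → c.mate ∈ W
  inD : ∀ c ∈ W, c.lab ∉ T → c ∈ (w₁ :: R).flatten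
  ofD : ∀ c ∈ (w₁ :: R).flatten, c ∈ W
  lab : ∀ c ∈ W, ∀ d ∈ W, c.lab ∈ T → c.lab = d.lab → d = c ∨ d = c.mate

theorem exists_lin (N : Finset ℕ) (w₁ : List Letter) : ∀ (R : Code),
    (w₁ :: R).flatten.Nodup → labs (w₁ :: R).flatten ⊆ N →
    ∃ W T pre rest, Lin N w₁ R W T pre rest := by
  intro R
  induction R with
  | nil =>
    intro hnd hN
    have hnd' : w₁.Nodup := by simpa using hnd
    refine ⟨w₁, ∅, [], [], ?_⟩
    refine ⟨by simp, hnd', by simp, ?_, by simp, by simp, by simp [labs], rfl, by simp, by simp,
      by simp, by simp⟩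
    have := along_segment (T := ∅) hnd' w₁ [] [] (by simp) (by simp)
    simpa using this
  | cons w R ih =>
    intro hnd hN
    have hp : (w₁ :: w :: R).flatten.Perm (w ++ (w₁ :: R).flatten) := by
      rw [← Multiset.coe_eq_coe]
      simp only [← Multiset.coe_add, List.flatten_cons]
      abel
    have hnd2 := hp.nodup_iff.mp hnd
    obtain ⟨hwnd, hnd1, hdis⟩ := List.nodup_append.mp hnd2
    have hN1 : labs (w₁ :: R).flatten ⊆ N := by
      intro x hx
      obtain ⟨c, hc, rfl⟩ := mem_labs.mp hx
      exact hN (lab_mem (hp.mem_iff.mpr (List.mem_append_right _ hc)))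
    have hN2 : ∀ c ∈ w, c.lab ∈ N := fun c hc =>
      hN (lab_mem (hp.mem_iff.mpr (List.mem_append_left _ hc)))
    obtain ⟨W, T, pre, rest, L⟩ := ih hnd1 hN1
    obtain ⟨x, hx⟩ := Infinite.exists_notMem_finset (N ∪ T)
    rw [Finset.mem_union, not_or] at hx
    set a : Letter := ⟨x, true, true⟩ with ha
    have hlab : a.lab = x := rfl
    have hWx : ∀ c ∈ W, c.lab ≠ x := by
      intro c hc h
      by_cases hcT : c.lab ∈ T
      · exact hx.2 (h ▸ hcT)
      · exact hx.1 (h ▸ hN1 (lab_mem (L.inD c hc hcT)))
    have hwx : ∀ c ∈ w, c.lab ≠ x := fun c hc h => hx.1 (h ▸ hN2 c hc)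
    have hwT : ∀ c ∈ w, c.lab ∉ insert x T := by
      intro c hc h
      rcases Finset.mem_insert.mp h with h | h
      · exact hwx c hc h
      · exact Finset.disjoint_left.mp L.dis (hN2 c hc) h
    have hww : ∀ c ∈ w, c ∉ W := by
      intro c hc hcW
      have hcT : c.lab ∉ T := fun h => hwT c hc (Finset.mem_insert_of_mem h)
      exact hdis c hc c (L.inD c hcW hcT) rfl
    set A : List Letter := a :: (w ++ [a.mate]) with hA
    have hAlen : A.length = w.length + 2 := by simp [hA]
    have hAmem : ∀ c, c ∈ A ↔ c = a ∨ c ∈ w ∨ c = a.mate := by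
      intro c; simp [hA]
    have hAnd : A.Nodup := by
      rw [hA, List.nodup_cons]
      refine ⟨?_, ?_⟩
      · intro h
        rcases List.mem_append.mp h with h | h
        · exact hwx a h rfl
        · exact a.mate_ne (List.mem_singleton.mp h).symm
      · rw [List.nodup_append]
        refine ⟨hwnd, List.nodup_singleton _, ?_⟩
        intro c hc d hd h
        rw [List.mem_singleton.mp hd] at h
        exact hwx c hc (by rw [h]; rfl)
    have hAW : ∀ c ∈ A, c ∉ W := by
      intro c hc hcW
      rcases (hAmem c).mp hc with h | h | h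
      · exact hWx c hcW (by rw [h])
      · exact hww c h hcW
      · exact hWx c hcW (by rw [h]; rfl)
    have hnodup : (A ++ W).Nodup := by
      rw [List.nodup_append]
      refine ⟨hAnd, L.nodup, ?_⟩
      intro c hc d hd h
      exact hAW c hc (h ▸ hd)
    have hidxW : ∀ c ∈ W, (A ++ W).idxOf c = A.length + W.idxOf c := fun c hc =>
      List.idxOf_append_of_notMem (fun h => hAW c h hc)
    have hexW : ∀ c ∈ W, exit (A ++ W) (insert x T) c = A.length + exit W T c := by
      intro c hc
      unfold exit
      by_cases hcT : c.lab ∈ T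
      · rw [if_pos hcT, if_pos (Finset.mem_insert_of_mem hcT), hidxW _ (L.mate c hc hcT)]
        ring
      · rw [if_neg hcT, if_neg (by
          rw [Finset.mem_insert, not_or]; exact ⟨hWx c hc, hcT⟩), hidxW c hc]
        ring
    have hidxa : (A ++ W).idxOf a = 0 := by
      rw [hA, List.cons_append, List.idxOf_cons_self]
    have hidxm : (A ++ W).idxOf a.mate = w.length + 1 := by
      have : A ++ W = (a :: w) ++ (a.mate :: W) := by rw [hA]; simp
      rw [this, List.idxOf_append_of_notMem, List.idxOf_cons_self]
      · simp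
      · intro h
        rcases List.mem_cons.mp h with h | h
        · exact a.mate_ne h
        · exact hwx _ h rfl
    have hexa : exit (A ++ W) (insert x T) a = A.length := by
      unfold exit
      rw [if_pos (Finset.mem_insert_self _ _), hidxm, hAlen]
    have hexm : exit (A ++ W) (insert x T) a.mate = 1 := by
      unfold exit
      rw [if_pos (by rw [Letter.mate_lab]; exact Finset.mem_insert_self _ _), Letter.mate_mate,
        hidxa]
    have hpmem : ∀ c, c ∈ pre ++ w₁ → c ∈ W := fun c hc =>
      L.perm.mem_iff.mp (List.mem_append_left _ hc)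
    have hrmem : ∀ r ∈ rest, ∀ c ∈ r, c ∈ W := fun r hr c hc =>
      L.perm.mem_iff.mp (List.mem_append_right _ (List.mem_flatten.mpr ⟨r, hr, hc⟩))
    have hmem : ∀ c, c ∈ A ++ W ↔ c = a ∨ c ∈ w ∨ c = a.mate ∨ c ∈ W := by
      intro c
      rw [List.mem_append, hAmem]
      tauto
    refine ⟨A ++ W, insert x T, a :: pre, (w ++ [a.mate]) :: rest, ?_⟩
    refine ⟨?_, hnodup, ?_, ?_, ?_, ?_, ?_, ?_, ?_, ?_, ?_, ?_⟩
    · rw [Finset.disjoint_insert_right]; exact ⟨hx.1, L.dis⟩
    · have h1 := L.perm
      rw [← Multiset.coe_eq_coe] at h1 ⊢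
      rw [hA]
      simp only [← Multiset.coe_add, ← Multiset.cons_coe, ← Multiset.singleton_add,
        List.flatten_cons] at h1 ⊢
      rw [← h1]
      abel
    · change Along _ _ 0 (a :: (pre ++ w₁)) _
      rw [along_cons]
      refine ⟨hidxa, ?_⟩
      rw [hexa, List.length_append]
      exact along_shift (fun c hc => hidxW c (hpmem c hc)) (fun c hc => hexW c (hpmem c hc)) L.along
    · intro r hr
      rcases List.mem_cons.mp hr with rfl | hr
      · refine ⟨1, along_append.mpr ⟨1 + w.length, ?_, ?_, ?_⟩⟩
        · have := along_segment (T := insert x T) hnodup w [a] (a.mate :: W)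
            (by rw [hA]; simp) hwT
          simpa using this
        · change (A ++ W).idxOf a.mate = _
          rw [hidxm, add_comm]
        · rw [along_nil]; exact hexm
      · obtain ⟨c, hc⟩ := L.closed r hr
        exact ⟨A.length + c, along_shift (fun c hc => hidxW c (hrmem r hr c hc))
          (fun c hc => hexW c (hrmem r hr c hc)) hc⟩
    · intro y hy
      rcases Finset.mem_insert.mp hy with rfl | hy
      · exact mem_labs.mpr ⟨a, (hmem a).mpr (Or.inl rfl), rfl⟩
      · obtain ⟨c, hc, rfl⟩ := mem_labs.mp (L.hT hy)
        exact mem_labs.mpr ⟨c, (hmem c).mpr (Or.inr (Or.inr (Or.inr hc))), rfl⟩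
    · intro y hy
      obtain ⟨c, hc, rfl⟩ := mem_labs.mp hy
      rcases List.mem_cons.mp hc with rfl | hc
      · exact Finset.mem_insert_self _ _
      · exact Finset.mem_insert_of_mem (L.hpre (lab_mem hc))
    · rw [List.map_cons]
      congr 1
      · rw [List.filter_append]
        have h1 : w.filter (fun a => decide (a.lab ∉ insert x T)) = w := by
          rw [List.filter_eq_self]
          intro c hc
          simpa using hwT c hc
        rw [h1]
        have h2 : [a.mate].filter (fun a => decide (a.lab ∉ insert x T)) = [] := by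
          rw [List.filter_cons_of_neg (by simp [hlab])]
          rfl
        rw [h2, List.append_nil]
      · rw [← L.hrest]
        refine List.map_congr_left fun r hr => List.filter_congr fun c hc => ?_
        rw [decide_eq_decide, not_iff_not, Finset.mem_insert]
        have := hWx c (hrmem r hr c hc)
        tauto
    · intro c hc hcT
      rw [hmem] at hc ⊢
      rcases hc with h | h | h | h
      · right; right; left; rw [h]
      · exact absurd hcT (hwT c h)
      · left; rw [h, Letter.mate_mate]
      · right; right; right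
        refine L.mate c h ?_
        rcases Finset.mem_insert.mp hcT with h1 | h1
        · exact absurd h1 (hWx c h)
        · exact h1
    · intro c hc hcT
      rw [hmem] at hc
      refine hp.mem_iff.mpr ?_
      rw [List.mem_append]
      rcases hc with h | h | h | h
      · exact absurd (by rw [h]; exact Finset.mem_insert_self _ _) hcT
      · exact Or.inl h
      · exact absurd (by rw [h]; exact Finset.mem_insert_self _ _) hcT
      · exact Or.inr (L.inD c h fun h1 => hcT (Finset.mem_insert_of_mem h1))
    · intro c hc
      rw [hmem]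
      rcases List.mem_append.mp (hp.mem_iff.mp hc) with h | h
      · exact Or.inr (Or.inl h)
      · exact Or.inr (Or.inr (Or.inr (L.ofD c h)))
    · intro c hc d hd hcT hcd
      rw [hmem] at hc hd
      have hxcase : ∀ c, (c = a ∨ c = a.mate) → c.lab = x := by
        rintro c (h | h) <;> rw [h] <;> rfl
      by_cases hcx : c.lab = x
      · have hc' : c = a ∨ c = a.mate := by
          rcases hc with h | h | h | h
          · exact Or.inl h
          · exact absurd hcx (hwx c h)
          · exact Or.inr h
          · exact absurd hcx (hWx c h)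
        have hd' : d = a ∨ d = a.mate := by
          rcases hd with h | h | h | h
          · exact Or.inl h
          · exact absurd (by rw [← hcd]; exact hcx) (hwx d h)
          · exact Or.inr h
          · exact absurd (by rw [← hcd]; exact hcx) (hWx d h)
        rcases hc' with h | h <;> rcases hd' with h' | h' <;> rw [h, h']
        · exact Or.inl rfl
        · exact Or.inr rfl
        · right; rw [Letter.mate_mate]
        · exact Or.inl rfl
      · have hcT' : c.lab ∈ T := (Finset.mem_insert.mp hcT).resolve_left hcx
        have hcW : c ∈ W := by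
          rcases hc with h | h | h | h
          · exact absurd (hxcase c (Or.inl h)) hcx
          · exact absurd hcT (hwT c h)
          · exact absurd (hxcase c (Or.inr h)) hcx
          · exact h
        have hdW : d ∈ W := by
          rcases hd with h | h | h | h
          · exact absurd (by rw [hcd]; exact hxcase d (Or.inl h)) hcx
          · exact absurd (by rw [← hcd]; exact hcT) (hwT d h)
          · exact absurd (by rw [hcd]; exact hxcase d (Or.inr h)) hcx
          · exact h
        exact L.lab c hcW d hdW hcT' hcd

theorem exists_init {w₁ : List Letter} {R : Code} (hD : Diagram (w₁ :: R)) :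
    ∃ W T pre rest, LinWord W ∧ Disjoint (labs (w₁ :: R).flatten) T ∧
      labs W = labs (w₁ :: R).flatten ∪ T ∧ tr T ∅ (pre ++ w₁) = w₁ ∧
      rest.map (tr T ∅) = R ∧ ∀ t, St W t T ∅ pre w₁ rest := by
  obtain ⟨W, T, pre, rest, L⟩ := exists_lin (labs (w₁ :: R).flatten) w₁ R hD.1.1 (le_refl _)
  have htr : ∀ w, tr T ∅ w = w.filter (fun a => decide (a.lab ∉ T)) := by
    intro w
    unfold tr
    conv_rhs => rw [← List.map_id (List.filter _ w)]
    refine List.map_congr_left fun b _ => ?_
    unfold swL
    simp
  have h1 : tr T ∅ pre = [] := by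
    rw [htr, List.filter_eq_nil_iff]
    intro c hc
    simpa using L.hpre (lab_mem hc)
  have h2 : tr T ∅ w₁ = w₁ := by
    rw [htr, List.filter_eq_self]
    intro c hc
    have : c.lab ∉ T := fun h => Finset.disjoint_left.mp L.dis (lab_mem (by simp [hc])) h
    simpa using this
  have h3 : rest.map (tr T ∅) = R := by
    have : tr T ∅ = List.filter (fun a => decide (a.lab ∉ T)) := funext htr
    rw [this]; exact L.hrest
  have hnT : ∀ c ∈ (w₁ :: R).flatten, c.lab ∉ T := fun c hc h =>
    Finset.disjoint_left.mp L.dis (lab_mem hc) h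
  refine ⟨W, T, pre, rest, ⟨L.nodup, ?_, ?_⟩, L.dis, ?_, ?_, h3, ?_⟩
  · intro c hc
    by_cases hcT : c.lab ∈ T
    · exact L.mate c hc hcT
    · exact L.ofD _ (hD.1.2.1 c (L.inD c hc hcT))
  · intro c hc d hd hcd
    by_cases hcT : c.lab ∈ T
    · exact L.lab c hc d hd hcT hcd
    · exact hD.1.2.2 c (L.inD c hc hcT) d (L.inD d hd (hcd ▸ hcT)) hcd
  · ext x
    rw [Finset.mem_union]
    constructor
    · intro hx
      obtain ⟨c, hc, rfl⟩ := mem_labs.mp hx
      by_cases hcT : c.lab ∈ T
      · exact Or.inr hcT
      · exact Or.inl (lab_mem (L.inD c hc hcT))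
    · rintro (hx | hx)
      · obtain ⟨c, hc, rfl⟩ := mem_labs.mp hx
        exact lab_mem (L.ofD c hc)
      · exact L.hT hx
  · rw [tr_append, h1, h2, List.nil_append]
  · intro t
    refine ⟨L.perm, L.along, L.closed, L.hT, by simp, ?_, ?_⟩
    · rw [h1]
      intro p c q h
      exact absurd h (by simp)
    · rw [tr_append, h1, h2, List.nil_append, h3]; exact hD

lemma crossings_eq {D : Code} (h : Valid D) : crossings D = (labs D.flatten).card := by
  unfold crossings
  have h1 : ((D.flatten.filter fun a => a.top).map Letter.lab).Nodup := by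
    refine (h.1.filter _).map_on ?_
    intro a ha b hb hab
    rw [List.mem_filter] at ha hb
    rcases h.2.2 a ha.1 b hb.1 hab with h2 | h2
    · exact h2.symm
    · exfalso
      have h3 := hb.2
      rw [h2, Letter.mate_top] at h3
      rw [ha.2] at h3
      exact Bool.noConfusion h3
  have h2 : ((D.flatten.filter fun a => a.top).map Letter.lab).toFinset = labs D.flatten := by
    ext x
    rw [mem_labs, List.mem_toFinset, List.mem_map]
    constructor
    · rintro ⟨a, ha, rfl⟩
      exact ⟨a, (List.mem_filter.mp ha).1, rfl⟩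
    · rintro ⟨a, ha, rfl⟩
      cases hat : a.top
      · exact ⟨a.mate, List.mem_filter.mpr ⟨h.2.1 a ha, by simp [hat]⟩, rfl⟩
      · exact ⟨a, List.mem_filter.mpr ⟨ha, hat⟩, rfl⟩
  rw [← h2, List.toFinset_card_of_nodup h1, List.length_map]

/-- the bound -/
theorem conway_bound {P : Code → ℤ[X]} (hP : IsConway P) {D : Code} (hD : Diagram D)
    (hne : D ≠ []) (k : ℕ) (hk : crossings D % 2 = (k + 1) % 2) :
    ((P D).coeff k).natAbs ≤ ((crossings D + k - 1) / 2).choose k := by
  classical
  rcases D with _ | ⟨w₁, R⟩
  · exact absurd rfl hne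
  obtain ⟨W, T, pre, rest, hW, hVT, hl, h1, h2, hst⟩ := exists_init hD
  have hn := crossings_eq hD.1
  set V := labs (w₁ :: R).flatten with hV
  rw [hn] at hk ⊢
  have hbd : ∀ t, ((P (w₁ :: R)).coeff k).natAbs ≤ (Fam W t T pre k).card := by
    intro t
    have := expand hP hW t _ T ∅ pre w₁ rest k le_rfl (hst t)
    rwa [h1, h2] at this
  have hsub : ∀ t, ∀ S ∈ Fam W t T pre k, S ⊆ V := by
    intro t S hS
    rw [mem_Fam] at hS
    intro x hx
    have h3 := hS.1 hx
    rw [hl] at h3
    rcases Finset.mem_union.mp h3 with h4 | h4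
    · exact h4
    · exact absurd h4 (Finset.disjoint_left.mp hS.2.2.1 hx)
  have hcardk : ∀ t, ∀ S ∈ Fam W t T pre k, S.card = k := by
    intro t S hS
    rw [mem_Fam] at hS
    exact hS.2.1
  by_cases hkn : V.card < k
  · have h0 : (Fam W true T pre k).card = 0 := by
      rw [Finset.card_eq_zero, Finset.eq_empty_iff_forall_notMem]
      intro S hS
      have h3 := Finset.card_le_card (hsub true S hS)
      rw [hcardk true S hS] at h3
      omega
    have := hbd true
    omega
  · set F : Finset (Finset ℕ × Bool) :=
      (Fam W true T pre k).image (fun S => (S, true)) ∪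
        (Fam W false T pre k).image (fun S => (S, false)) with hF
    have hcF : F.card = (Fam W true T pre k).card + (Fam W false T pre k).card := by
      rw [hF, Finset.card_union_of_disjoint, Finset.card_image_of_injective,
        Finset.card_image_of_injective]
      · intro S S' h; simpa using h
      · intro S S' h; simpa using h
      · rw [Finset.disjoint_left]
        intro j hj hj'
        obtain ⟨S, _, rfl⟩ := Finset.mem_image.mp hj
        obtain ⟨S', _, h4⟩ := Finset.mem_image.mp hj'
        simp at h4
    have hmF : ∀ j ∈ F, j.1 ∈ Fam W j.2 T pre k := by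
      intro j hj
      rcases Finset.mem_union.mp hj with h3 | h3
      · obtain ⟨S, hS, rfl⟩ := Finset.mem_image.mp h3; exact hS
      · obtain ⟨S, hS, rfl⟩ := Finset.mem_image.mp h3; exact hS
    have hw := walk_bound hW V T hVT hl k ((V.card - k + 1) / 2) (by omega) F (by
      intro j hj
      have h3 := hmF j hj
      refine ⟨hsub _ _ h3, hcardk _ _ h3, ?_⟩
      rw [mem_Fam] at h3
      obtain ⟨l, l', h5, _, h7⟩ := h3.2.2.2.2
      exact ⟨l, h5, h7⟩)
    have e1 : V.card - (V.card - k + 1) / 2 = (V.card + k - 1) / 2 := by omega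
    have e2 : (V.card - k + 1) / 2 + k - 1 = (V.card + k - 1) / 2 := by omega
    rw [e1, e2, hcF] at hw
    have h3 := hbd true
    have h4 := hbd false
    omega

end Pool.Agent.Work.MP_63d866_gt
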