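import Pool.Agent.Work.MP_63d866_gt.AlongLemmas

/-! The interlacement matrix of a linear word. -/

namespace Pool.Agent.Work.MP_63d866_gt

open Finset

/-- A linear word in which every crossing occurs exactly twice. -/
structure LinWord (W : List Letter) : Prop where
  nodup : W.Nodup
  mate : ∀ a ∈ W, a.mate ∈ W
  lab : ∀ a ∈ W, ∀ b ∈ W, a.lab = b.lab → b = a ∨ b = a.mate

/-- the crossings of a word -/
def labs (W : List Letter) : Finset ℕ := (W.map Letter.lab).toFinset

lemma mem_labs {W : List Letter} {u : ℕ} : u ∈ labs W ↔ ∃ a ∈ W, a.lab = u := by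
  simp [labs]

/-- the upper passage of the crossing `u` -/
def ovl (W : List Letter) (u : ℕ) : Letter := ⟨u, true, decide ((⟨u, true, true⟩ : Letter) ∈ W)⟩

/-- the lower passage of the crossing `u` -/
def unl (W : List Letter) (u : ℕ) : Letter := (ovl W u).mate

@[simp] lemma ovl_lab (W : List Letter) (u : ℕ) : (ovl W u).lab = u := rfl
@[simp] lemma ovl_top (W : List Letter) (u : ℕ) : (ovl W u).top = true := rfl
@[simp] lemma unl_lab (W : List Letter) (u : ℕ) : (unl W u).lab = u := rfl
@[simp] lemma unl_top (W : List Letter) (u : ℕ) : (unl W u).top = false := rfl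
@[simp] lemma ovl_mate (W : List Letter) (u : ℕ) : (ovl W u).mate = unl W u := rfl
@[simp] lemma unl_mate (W : List Letter) (u : ℕ) : (unl W u).mate = ovl W u :=
  Letter.mate_mate _

lemma ovl_ne_unl (W : List Letter) (u v : ℕ) : ovl W u ≠ unl W v := by
  intro h
  have := congrArg Letter.top h
  simp at this

section
variable {W : List Letter}

lemma ovl_mem (h : LinWord W) {u : ℕ} (hu : u ∈ labs W) : ovl W u ∈ W := by
  obtain ⟨a, ha, rfl⟩ := mem_labs.mp hu
  obtain ⟨c, hc, hct, hcl⟩ : ∃ c ∈ W, c.top = true ∧ c.lab = a.lab := by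
    cases hat : a.top
    · exact ⟨a.mate, h.mate a ha, by simp [hat], rfl⟩
    · exact ⟨a, ha, hat, rfl⟩
  have : ovl W a.lab = c := by
    obtain ⟨l, t, s⟩ := c
    simp only at hct hcl
    subst hct
    subst hcl
    unfold ovl
    cases s
    · have hn : (⟨a.lab, true, true⟩ : Letter) ∉ W := by
        intro hm
        rcases h.lab _ hc _ hm rfl with h1 | h1
        · have := congrArg Letter.pos h1; simp at this
        · have := congrArg Letter.pos h1; simp at this
      simp [hn]
    · simp [hc]
  rw [this]; exact hc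

lemma unl_mem (h : LinWord W) {u : ℕ} (hu : u ∈ labs W) : unl W u ∈ W :=
  h.mate _ (ovl_mem h hu)

lemma lab_mem {a : Letter} (ha : a ∈ W) : a.lab ∈ labs W := mem_labs.mpr ⟨a, ha, rfl⟩

lemma letter_cases (h : LinWord W) {c : Letter} (hc : c ∈ W) :
    (c.top = true ∧ c = ovl W c.lab) ∨ (c.top = false ∧ c = unl W c.lab) := by
  have ho := ovl_mem h (lab_mem hc)
  rcases h.lab _ ho _ hc rfl with h1 | h1
  · left
    exact ⟨by rw [h1]; rfl, h1⟩
  · right
    exact ⟨by rw [h1]; rfl, h1⟩

lemma filter_lab (h : LinWord W) {u : ℕ} (hu : u ∈ labs W) :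
    W.toFinset.filter (fun c => c.lab = u) = {ovl W u, unl W u} := by
  ext c
  simp only [mem_filter, List.mem_toFinset, mem_insert, mem_singleton]
  constructor
  · rintro ⟨hc, rfl⟩
    rcases letter_cases h hc with h1 | h1
    · exact Or.inl h1.2
    · exact Or.inr h1.2
  · rintro (rfl | rfl)
    · exact ⟨ovl_mem h hu, rfl⟩
    · exact ⟨unl_mem h hu, rfl⟩

lemma sum_letters (h : LinWord W) (f : Letter → ℝ) :
    ∑ c ∈ W.toFinset, f c = ∑ v ∈ labs W, (f (ovl W v) + f (unl W v)) := by
  rw [← sum_fiberwise_of_maps_to (g := Letter.lab) (t := labs W)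
    (fun c hc => lab_mem (List.mem_toFinset.mp hc))]
  refine sum_congr rfl fun v hv => ?_
  rw [filter_lab h hv, sum_pair (ovl_ne_unl W v v)]

/-- position comparison -/
noncomputable def hh (W : List Letter) (c c' : Letter) : ℝ :=
  if W.idxOf c < W.idxOf c' then 1 else if c = c' then 1 / 2 else 0

lemma idx_inj {c c' : Letter} (hc : c ∈ W) (h : W.idxOf c = W.idxOf c') : c = c' :=
  (List.idxOf_inj hc).mp h

lemma hh_add {c c' : Letter} (hc : c ∈ W) : hh W c c' + hh W c' c = 1 := by
  unfold hh
  rcases lt_trichotomy (W.idxOf c) (W.idxOf c') with h | h | h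
  · have : c' ≠ c := by rintro rfl; exact lt_irrefl _ h
    simp [h, h.not_gt, this]
  · have : c = c' := idx_inj hc h
    subst this
    simp; norm_num
  · have : c ≠ c' := by rintro rfl; exact lt_irrefl _ h
    simp [h, h.not_gt, this]

/-- the interlacement matrix -/
noncomputable def BB (W : List Letter) (u v : ℕ) : ℝ :=
  if u ∈ labs W ∧ v ∈ labs W then
    hh W (ovl W v) (unl W u) - hh W (unl W v) (unl W u) - hh W (ovl W v) (ovl W u)
      + hh W (unl W v) (ovl W u)
  else 0

lemma BB_skew (h : LinWord W) (u v : ℕ) : BB W u v = - BB W v u := by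
  unfold BB
  by_cases huv : u ∈ labs W ∧ v ∈ labs W
  · rw [if_pos huv, if_pos huv.symm]
    have h1 := hh_add (c' := unl W u) (ovl_mem h huv.2)
    have h2 := hh_add (c' := unl W u) (unl_mem h huv.2)
    have h3 := hh_add (c' := ovl W u) (ovl_mem h huv.2)
    have h4 := hh_add (c' := ovl W u) (unl_mem h huv.2)
    linarith
  · rw [if_neg huv, if_neg (fun h' => huv h'.symm)]; simp

/-- the jump of the step function at a letter -/
def jump (x : ℕ → ℝ) (c : Letter) : ℝ := if c.top then x c.lab else - x c.lab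

/-- the step function -/
def Phi (W : List Letter) (x : ℕ → ℝ) (j : ℕ) : ℝ := ((W.take j).map (jump x)).sum

@[simp] lemma Phi_zero (x : ℕ → ℝ) : Phi W x 0 = 0 := by simp [Phi]

lemma Phi_succ (x : ℕ → ℝ) {c : Letter} (hc : c ∈ W) :
    Phi W x (W.idxOf c + 1) = Phi W x (W.idxOf c) + jump x c := by
  unfold Phi
  rw [List.take_succ_eq_append_getElem (List.idxOf_lt_length_of_mem hc), List.map_append,
    List.sum_append]
  simp

lemma take_toFinset (j : ℕ) :
    (W.take j).toFinset = W.toFinset.filter (fun c => W.idxOf c < j) := by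
  ext c
  simp only [mem_filter, List.mem_toFinset]
  constructor
  · intro hc
    have hcW := List.mem_of_mem_take hc
    exact ⟨hcW, (List.mem_take_iff_idxOf_lt hcW).mp hc⟩
  · rintro ⟨h1, h2⟩
    exact (List.mem_take_iff_idxOf_lt h1).mpr h2

lemma Phi_eq (h : LinWord W) (x : ℕ → ℝ) (j : ℕ) :
    Phi W x j = ∑ c ∈ W.toFinset, if W.idxOf c < j then jump x c else 0 := by
  rw [← sum_filter, ← take_toFinset, Phi,
    List.sum_toFinset _ (h.nodup.sublist (List.take_sublist _ _))]

lemma avg_eq (h : LinWord W) (x : ℕ → ℝ) {c : Letter} (hc : c ∈ W) :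
    ∑ c' ∈ W.toFinset, hh W c' c * jump x c' = Phi W x (W.idxOf c) + jump x c / 2 := by
  rw [Phi_eq h]
  have h1 : ∀ c' ∈ W.toFinset, hh W c' c * jump x c'
      = (if W.idxOf c' < W.idxOf c then jump x c' else 0)
        + (if c' = c then jump x c' / 2 else 0) := by
    intro c' _
    unfold hh
    by_cases h1 : W.idxOf c' < W.idxOf c
    · have h2 : c' ≠ c := by rintro rfl; exact lt_irrefl _ h1
      simp [h1, h2]
    · by_cases h2 : c' = c
      · simp [h2]; ring
      · simp [h1, h2]
  rw [sum_congr rfl h1, sum_add_distrib, sum_ite_eq' W.toFinset c (fun c' => jump x c' / 2),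
    if_pos (List.mem_toFinset.mpr hc)]

/-- the interlacement matrix computes differences of the step function -/
lemma BB_sum (h : LinWord W) (x : ℕ → ℝ) {u : ℕ} (hu : u ∈ labs W) :
    ∑ v ∈ labs W, BB W u v * x v
      = Phi W x (W.idxOf (unl W u) + 1) - Phi W x (W.idxOf (ovl W u)) := by
  have h1 : ∀ v ∈ labs W, BB W u v * x v
      = (hh W (ovl W v) (unl W u) * jump x (ovl W v) + hh W (unl W v) (unl W u) * jump x (unl W v))
        - (hh W (ovl W v) (ovl W u) * jump x (ovl W v)
          + hh W (unl W v) (ovl W u) * jump x (unl W v)) := by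
    intro v hv
    unfold BB
    rw [if_pos ⟨hu, hv⟩]
    simp only [jump, ovl_top, ovl_lab, unl_top, unl_lab, if_true, Bool.false_eq_true, if_false]
    ring
  rw [sum_congr rfl h1, sum_sub_distrib]
  rw [← sum_letters h (fun c => hh W c (unl W u) * jump x c),
    ← sum_letters h (fun c => hh W c (ovl W u) * jump x c),
    avg_eq h x (unl_mem h hu), avg_eq h x (ovl_mem h hu), Phi_succ x (unl_mem h hu)]
  simp only [jump, ovl_top, ovl_lab, unl_top, unl_lab, if_true, Bool.false_eq_true, if_false]
  ring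

end

end Pool.Agent.Work.MP_63d866_gt
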