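import Pool.Agent.Work.MP_63d866_gt.GenBound

/-! Perturbing a skew matrix to a generic one. -/

namespace Pool.Agent.Work.MP_63d866_gt

open Finset Filter Topology

set_option linter.unusedSectionVars false

variable {ι : Type*} [Fintype ι] [LinearOrder ι]

/-- the sign matrix -/
def Gs (i j : ι) : ℝ := if i < j then 1 else if j < i then -1 else 0

lemma Gs_skew (i j : ι) : Gs i j = - Gs j i := by
  unfold Gs
  rcases lt_trichotomy i j with h | h | h
  · simp [h, h.not_gt]
  · subst h; simp
  · simp [h, h.not_gt]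

lemma Gs_lt {i j : ι} (h : i < j) : Gs i j = 1 := by simp [Gs, h]
lemma Gs_gt {i j : ι} (h : j < i) : Gs i j = -1 := by simp [Gs, h, h.not_gt]
lemma Gs_self (i : ι) : Gs i i = 0 := by simp [Gs]

lemma sign_ker : ∀ (m : ℕ) (T : Finset ι), T.card = 2 * m → ∀ y : ι → ℝ,
    (∀ i ∈ T, ∑ j ∈ T, Gs i j * y j = 0) → ∀ i ∈ T, y i = 0 := by
  intro m
  induction m with
  | zero =>
    intro T hT y _ i hi
    have h0 : T = ∅ := card_eq_zero.mp (by omega)
    rw [h0] at hi
    simp at hi
  | succ m ih =>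
    intro T hT y hy
    have hTne : T.Nonempty := card_pos.mp (by omega)
    set a := T.min' hTne with ha
    have haT : a ∈ T := min'_mem _ _
    set T1 := T.erase a with hT1
    have hT1c : T1.card = 2 * m + 1 := by rw [hT1, card_erase_of_mem haT]; omega
    have hT1ne : T1.Nonempty := card_pos.mp (by omega)
    set b := T1.min' hT1ne with hb
    have hbT1 : b ∈ T1 := min'_mem _ _
    have hbT : b ∈ T := mem_of_mem_erase hbT1
    set T2 := T1.erase b with hT2
    have hT2c : T2.card = 2 * m := by rw [hT2, card_erase_of_mem hbT1]; omega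
    have hab : a < b := lt_of_le_of_ne (min'_le _ _ hbT) (ne_of_mem_erase hbT1).symm
    have haj : ∀ j ∈ T2, a < j := fun j hj =>
      lt_of_le_of_ne (min'_le _ _ (mem_of_mem_erase (mem_of_mem_erase hj)))
        (ne_of_mem_erase (mem_of_mem_erase hj)).symm
    have hbj : ∀ j ∈ T2, b < j := fun j hj =>
      lt_of_le_of_ne (min'_le _ _ (mem_of_mem_erase hj)) (ne_of_mem_erase hj).symm
    have hsplit : ∀ i, ∑ j ∈ T, Gs i j * y j
        = Gs i a * y a + (Gs i b * y b + ∑ j ∈ T2, Gs i j * y j) := by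
      intro i
      rw [← add_sum_erase T _ haT, ← add_sum_erase T1 _ hbT1]
    have h1 := hy a haT
    have h2 := hy b hbT
    rw [hsplit, Gs_self, Gs_lt hab] at h1
    rw [hsplit, Gs_gt hab, Gs_self] at h2
    have h1' : ∑ j ∈ T2, Gs a j * y j = ∑ j ∈ T2, y j :=
      sum_congr rfl fun j hj => by rw [Gs_lt (haj j hj), one_mul]
    have h2' : ∑ j ∈ T2, Gs b j * y j = ∑ j ∈ T2, y j :=
      sum_congr rfl fun j hj => by rw [Gs_lt (hbj j hj), one_mul]
    rw [h1'] at h1
    rw [h2'] at h2
    have hyab : y b = - y a := by linarith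
    have h3 : ∀ i ∈ T2, y i = 0 := by
      refine ih T2 hT2c y fun i hi => ?_
      have h4 := hy i (mem_of_mem_erase (mem_of_mem_erase hi))
      rw [hsplit, Gs_gt (haj i hi), Gs_gt (hbj i hi)] at h4
      linarith
    have h5 : ∑ j ∈ T2, y j = 0 := sum_eq_zero h3
    have hb0 : y b = 0 := by linarith
    have ha0 : y a = 0 := by linarith
    intro i hi
    by_cases hia : i = a
    · rw [hia]; exact ha0
    · by_cases hib : i = b
      · rw [hib]; exact hb0
      · exact h3 i (mem_erase.mpr ⟨hib, mem_erase.mpr ⟨hia, hi⟩⟩)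

/-- the perturbed matrix -/
def Mp (M : ι → ι → ℝ) (e : ℝ) (i j : ι) : ℝ := M i j + e * Gs i j

lemma Mp_skew {M : ι → ι → ℝ} (hM : Skew M) (e : ℝ) : Skew (Mp M e) := by
  intro i j
  unfold Mp
  rw [hM i j, Gs_skew i j]; ring

/-- the restricted matrix -/
def Br (M : ι → ι → ℝ) (T : Finset ι) (e : ℝ) : Matrix T T ℝ :=
  Matrix.of fun i j => Mp M e i j

/-- extension by zero -/
noncomputable def ext0 (T : Finset ι) (v : T → ℝ) (i : ι) : ℝ := if h : i ∈ T then v ⟨i, h⟩ else 0

lemma sum_ext0 (T : Finset ι) (f : ι → ℝ) (v : T → ℝ) :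
    ∑ j, f j * ext0 T v j = ∑ j : T, f j * v j := by
  have h1 : ∑ j, f j * ext0 T v j = ∑ j ∈ T, f j * ext0 T v j := by
    symm
    refine sum_subset (subset_univ _) fun j _ hj => ?_
    simp [ext0, hj]
  rw [h1, ← sum_coe_sort T (fun j => f j * ext0 T v j)]
  refine sum_congr rfl fun j _ => ?_
  simp [ext0]

lemma gen_of_det {M : ι → ι → ℝ} {e : ℝ}
    (h : ∀ T : Finset ι, Even T.card → (Br M T e).det ≠ 0) (V : Finset ι) : Gen (Mp M e) V := by
  intro T _ hT y hz hk
  by_contra hne
  apply h T hT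
  rw [← Matrix.exists_mulVec_eq_zero_iff]
  refine ⟨fun i => y i, ?_, ?_⟩
  · intro h0
    apply hne
    funext i
    by_cases hi : i ∈ T
    · exact congrFun h0 ⟨i, hi⟩
    · exact hz i hi
  · funext i
    simp only [Matrix.mulVec, dotProduct, Br, Matrix.of_apply, Pi.zero_apply]
    have h1 := hk i i.2
    unfold ap at h1
    rw [← h1]
    have h2 : ∑ j, Mp M e i j * y j = ∑ j ∈ T, Mp M e i j * y j := by
      symm
      refine sum_subset (subset_univ _) fun j _ hj => ?_
      rw [hz j hj]; simp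
    rw [h2, ← sum_coe_sort T (fun j => Mp M e i j * y j)]

lemma det_poly (M : ι → ι → ℝ) (T : Finset ι) (hT : Even T.card) :
    ∃ q : Polynomial ℝ, q ≠ 0 ∧ ∀ e, q.eval e = (Br M T e).det := by
  classical
  set A : Matrix T T ℝ := Matrix.of fun i j => Gs (i : ι) j with hA
  set B : Matrix T T ℝ := Matrix.of fun i j => M (i : ι) j with hB
  refine ⟨Matrix.det ((Polynomial.X : Polynomial ℝ) • A.map Polynomial.C + B.map Polynomial.C),
    ?_, ?_⟩
  · intro h0
    have h1 := Polynomial.coeff_det_X_add_C_card A B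
    rw [h0] at h1
    simp only [Polynomial.coeff_zero] at h1
    obtain ⟨v, hv, hv0⟩ := Matrix.exists_mulVec_eq_zero_iff.mpr h1.symm
    obtain ⟨m, hm⟩ := hT
    have hker := sign_ker m T (by omega) (ext0 T v) (fun i hi => by
      have h2 := congrFun hv0 ⟨i, hi⟩
      simp only [Matrix.mulVec, dotProduct, hA, Matrix.of_apply, Pi.zero_apply] at h2
      rw [← h2, ← sum_ext0 T (fun j => Gs i j) v]
      refine sum_subset (subset_univ _) fun j _ hj => ?_
      simp [ext0, hj])
    apply hv
    funext i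
    have := hker i i.2
    simpa [ext0] using this
  · intro e
    rw [← Polynomial.coe_evalRingHom, RingHom.map_det]
    congr 1
    ext i j
    simp [hA, hB, Br, Mp]
    ring

lemma eventually_gen (M : ι → ι → ℝ) :
    ∀ᶠ e in 𝓝[≠] (0 : ℝ), ∀ V : Finset ι, Gen (Mp M e) V := by
  have h : ∀ T : Finset ι, ∀ᶠ e in 𝓝[≠] (0 : ℝ), Even T.card → (Br M T e).det ≠ 0 := by
    intro T
    by_cases hT : Even T.card
    · obtain ⟨q, hq, hqe⟩ := det_poly M T hT
      have hfin : {x : ℝ | q.IsRoot x}.Finite := Polynomial.finite_setOfPred_isRoot hq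
      have hfin' : ({x : ℝ | q.IsRoot x} \ {0}).Finite := hfin.subset Set.sdiff_subset
      have hmem : ({x : ℝ | q.IsRoot x} \ {0})ᶜ ∈ 𝓝 (0 : ℝ) :=
        hfin'.isClosed.isOpen_compl.mem_nhds (by simp)
      filter_upwards [mem_nhdsWithin_of_mem_nhds hmem, self_mem_nhdsWithin] with e he he0 _ hdet
      apply he
      refine ⟨?_, he0⟩
      change q.IsRoot e
      rw [Polynomial.IsRoot.def, hqe, hdet]
    · exact Eventually.of_forall fun e he => absurd he hT
  have h' : ∀ᶠ e in 𝓝[≠] (0 : ℝ), ∀ T : Finset ι, Even T.card → (Br M T e).det ≠ 0 :=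
    eventually_all.mpr h
  filter_upwards [h'] with e he V
  exact gen_of_det he V

lemma persist {M : ι → ι → ℝ} (hM : Skew M) {S T : Finset ι} {p : ι} {t : Bool} (hST : S ⊆ T)
    (hpT : p ∉ T)
    (hns : ∀ y : ι → ℝ, (∀ i, i ∉ T → y i = 0) → (∀ i ∈ T, ap M y i = 0) → y = 0)
    {x : ι → ℝ} (hpos : ∀ i ∈ S, 0 < x i) (hz : ∀ i, i ∉ insert p T → x i = 0)
    (hv : x p = sg t) (hk : ∀ i ∈ insert p T, ap M x i = 0) :
    ∀ᶠ e in 𝓝 (0 : ℝ), ∃ x : ι → ℝ, (∀ i ∈ S, 0 < x i) ∧ (∀ i, i ∉ insert p T → x i = 0) ∧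
      x p = sg t ∧ (∀ i ∈ insert p T, ap (Mp M e) x i = 0) := by
  classical
  have hdet0 : (Br M T 0).det ≠ 0 := by
    intro h0
    obtain ⟨v, hv0, hvm⟩ := Matrix.exists_mulVec_eq_zero_iff.mpr h0
    apply hv0
    have := hns (ext0 T v) (fun i hi => by simp [ext0, hi]) (fun i hi => by
      unfold ap
      rw [sum_ext0 T (fun j => M i j) v]
      have h2 := congrFun hvm ⟨i, hi⟩
      simp only [Matrix.mulVec, dotProduct, Br, Mp, Matrix.of_apply, Pi.zero_apply, zero_mul,
        add_zero] at h2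
      exact h2)
    funext i
    have h3 := congrFun this i
    simpa [ext0] using h3
  set m : ℝ → T → ℝ := fun e i => Mp M e i p with hm
  set Xe : ℝ → T → ℝ := fun e =>
    (- (sg t * (Br M T e).det⁻¹)) • ((Br M T e).adjugate.mulVec (m e)) with hXe
  have hBc : Continuous (fun e => Br M T e) := by
    unfold Br Mp
    refine continuous_matrix fun i j => ?_
    simp only [Matrix.of_apply]
    fun_prop
  have hmc : Continuous m := by
    simp only [hm, Mp]; fun_prop
  have hdc : Continuous (fun e => (Br M T e).det) := hBc.matrix_det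
  have hXc : ContinuousAt Xe 0 := by
    have h1 : ContinuousAt (fun e => -(sg t * (Br M T e).det⁻¹)) 0 :=
      (continuousAt_const.mul (hdc.continuousAt.inv₀ hdet0)).neg
    have h2 : ContinuousAt (fun e => (Br M T e).adjugate.mulVec (m e)) 0 :=
      (hBc.matrix_adjugate.matrix_mulVec hmc).continuousAt
    exact h1.smul h2
  -- kernel equation
  have hsolve : ∀ e, (Br M T e).det ≠ 0 → (Br M T e).mulVec (Xe e) = - (sg t) • m e := by
    intro e he
    simp only [hXe]
    rw [Matrix.mulVec_smul, Matrix.mulVec_mulVec, Matrix.mul_adjugate, Matrix.smul_mulVec,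
      Matrix.one_mulVec, smul_smul]
    congr 1
    field_simp
  -- value at zero
  have hX0 : ∀ i : T, Xe 0 i = x i := by
    have hB0 : (Br M T 0).mulVec (fun i : T => x i) = -(sg t) • m 0 := by
      funext i
      have h1 := hk i (mem_insert_of_mem i.2)
      unfold ap at h1
      have h2 : ∑ j, M i j * x j = M i p * x p + ∑ j ∈ T, M i j * x j := by
        rw [← sum_insert (f := fun j => M i j * x j) hpT]
        symm
        refine sum_subset (subset_univ _) fun j _ hj => ?_
        rw [hz j hj]; simp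
      rw [h2, hv, ← sum_coe_sort T (fun j => M i j * x j)] at h1
      simp only [Matrix.mulVec, dotProduct, Br, Mp, Matrix.of_apply, zero_mul, add_zero, hm,
        Pi.smul_apply, smul_eq_mul]
      linarith
    have h3 := hsolve 0 hdet0
    have h4 : (Br M T 0).mulVec (Xe 0 - fun i : T => x i) = 0 := by
      rw [Matrix.mulVec_sub, h3, hB0, sub_self]
    have h5 : Xe 0 - (fun i : T => x i) = 0 := by
      by_contra hne
      exact hdet0 (Matrix.exists_mulVec_eq_zero_iff.mp ⟨_, hne, h4⟩)
    intro i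
    have := congrFun h5 i
    simp only [Pi.sub_apply, Pi.zero_apply] at this
    linarith
  have hev1 : ∀ᶠ e in 𝓝 (0 : ℝ), (Br M T e).det ≠ 0 := hdc.continuousAt.eventually_ne hdet0
  have hev2 : ∀ᶠ e in 𝓝 (0 : ℝ), ∀ i : T, (i : ι) ∈ S → 0 < Xe e i := by
    refine eventually_all.mpr fun i => ?_
    by_cases hi : (i : ι) ∈ S
    · have h1 : ContinuousAt (fun e => Xe e i) 0 := (continuous_apply i).continuousAt.comp hXc
      have h2 : 0 < Xe 0 i := by rw [hX0]; exact hpos i hi
      exact (h1.eventually (lt_mem_nhds h2)).mono fun e he _ => he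
    · exact Eventually.of_forall fun e h => absurd h hi
  filter_upwards [hev1, hev2] with e he1 he2
  set xe : ι → ℝ := fun i => if i = p then sg t else ext0 T (Xe e) i with hxe
  have hxT : ∀ i (hi : i ∈ T), xe i = Xe e ⟨i, hi⟩ := by
    intro i hi
    have : i ≠ p := fun h => hpT (h ▸ hi)
    simp [hxe, this, ext0, hi]
  have hkT : ∀ i ∈ T, ap (Mp M e) xe i = 0 := by
    intro i hi
    unfold ap
    have h2 : ∑ j, Mp M e i j * xe j = Mp M e i p * xe p + ∑ j ∈ T, Mp M e i j * xe j := by
      rw [← sum_insert (f := fun j => Mp M e i j * xe j) hpT]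
      symm
      refine sum_subset (subset_univ _) fun j _ hj => ?_
      have h3 : j ≠ p := fun h => hj (h ▸ mem_insert_self _ _)
      have h4 : j ∉ T := fun h => hj (mem_insert_of_mem h)
      simp [hxe, h3, ext0, h4]
    rw [h2, ← sum_coe_sort T (fun j => Mp M e i j * xe j)]
    have h3 := congrFun (hsolve e he1) ⟨i, hi⟩
    simp only [Matrix.mulVec, dotProduct, Br, Matrix.of_apply, Pi.smul_apply, smul_eq_mul, hm]
      at h3
    have h4 : ∑ j : T, Mp M e i j * xe j = ∑ j : T, Mp M e i j * Xe e j :=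
      sum_congr rfl fun j _ => by rw [hxT j j.2]
    rw [h4, h3]
    simp [hxe]
    ring
  have hxp : xe p = sg t := by simp [hxe]
  refine ⟨xe, fun i hi => ?_, fun i hi => ?_, hxp, fun i hi => ?_⟩
  · rw [hxT i (hST hi)]; exact he2 ⟨i, hST hi⟩ hi
  · have h3 : i ≠ p := fun h => hi (h ▸ mem_insert_self _ _)
    have h4 : i ∉ T := fun h => hi (mem_insert_of_mem h)
    simp [hxe, h3, ext0, h4]
  · rcases mem_insert.mp hi with rfl | h
    · have h1 := skew_self (Mp_skew hM e) xe
      rw [← add_sum_erase univ _ (mem_univ i)] at h1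
      have h2 : ∑ j ∈ univ.erase i, xe j * ap (Mp M e) xe j = 0 := by
        refine sum_eq_zero fun j hj => ?_
        by_cases hjT : j ∈ T
        · rw [hkT j hjT, mul_zero]
        · have h3 : j ≠ i := ne_of_mem_erase hj
          simp [hxe, h3, ext0, hjT]
      rw [h2, add_zero, hxp] at h1
      exact (mul_eq_zero.mp h1).resolve_left (sg_ne t)
    · exact hkT i h

end Pool.Agent.Work.MP_63d866_gt
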