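import Pool.Agent.Work.MP_63d866_gt.Closure2

/-! The Conway polynomial of trivialised diagrams, and the basic step. -/

namespace Pool.Agent.Work.MP_63d866_gt

open Polynomial

variable {P : Code → ℤ[X]}

lemma IsConway.move (hP : IsConway P) {W W' : Code} (h : Diagram W) (h' : Diagram W')
    (hm : Move W W') : P W = P W' :=
  hP.isotopy _ _ (Relation.EqvGen.rel _ _ ⟨h, h', hm⟩)

lemma IsConway.perm (hP : IsConway P) {W W' : Code} (h : Diagram W) (hp : List.Perm W W') :
    P W = P W' := hP.move h (h.perm hp) (Move.perm _ _ hp)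

lemma IsConway.rotate (hP : IsConway P) {u v : List Letter} {R : Code}
    (h : Diagram ((u ++ v) :: R)) : P ((u ++ v) :: R) = P ((v ++ u) :: R) :=
  hP.move h h.rotate (Move.rotate _ _ _)

lemma eraseLabs_nil (w : List Letter) : eraseLabs [] w = w := by
  unfold eraseLabs
  rw [List.filter_eq_self]
  intro a _
  simp

lemma eraseLabs_append (α u v : List Letter) :
    eraseLabs α (u ++ v) = eraseLabs α u ++ eraseLabs α v := by
  unfold eraseLabs
  rw [List.filter_append]

lemma eraseLabs_self {α w : List Letter} (h : ∀ b ∈ w, ∀ a ∈ α, a.lab ≠ b.lab) :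
    eraseLabs α w = w := by
  unfold eraseLabs
  rw [List.filter_eq_self]
  intro b hb
  exact eq_true_iff_lab.mpr (h b hb)

lemma eraseLabs_all {α w : List Letter} (h : ∀ b ∈ w, ∃ a ∈ α, a.lab = b.lab) :
    eraseLabs α w = [] := by
  unfold eraseLabs
  rw [List.filter_eq_nil_iff]
  intro b hb
  rw [Bool.not_eq_true]
  exact eq_false_iff_lab.mpr (h b hb)

lemma eraseLabs_cons_left {a : Letter} {α w : List Letter} (h : ∀ b ∈ w, b.lab ≠ a.lab) :
    eraseLabs (a :: α) w = eraseLabs α w := by
  unfold eraseLabs
  refine List.filter_congr fun b hb => ?_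
  have h1 : a.lab ≠ b.lab := (h b hb).symm
  rw [Bool.eq_iff_iff, eq_true_iff_lab, eq_true_iff_lab]
  simp [h1]

lemma map_eraseLabs_nil (R : Code) : R.map (eraseLabs []) = R := by
  have : eraseLabs [] = id := by funext w; exact eraseLabs_nil w
  rw [this, List.map_id]

lemma exists_fresh (w : List Letter) : ∃ x : ℕ, ∀ b ∈ w, b.lab ≠ x := by
  refine ⟨(w.map Letter.lab).sum + 1, fun b hb => ?_⟩
  have : b.lab ≤ (w.map Letter.lab).sum :=
    List.single_le_sum (by simp) _ (List.mem_map_of_mem hb)
  omega

/-- removing a kink -/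
lemma IsConway.kink (hP : IsConway P) {a : Letter} {v : List Letter} {R : Code}
    (h : Diagram (v :: R)) (ha : ∀ b ∈ (v :: R).flatten, b.lab ≠ a.lab) :
    P ((a :: a.mate :: v) :: R) = P (v :: R) := by
  refine hP.move (h.kink a ha) h ?_
  have hm : Move (([a] ++ (a.mate :: v)) :: R) (([] ++ v) :: R) := by
    refine Move.arc a.top [a] [] (a.mate :: v) v R R (by simp) (by simp) ?_
    rw [map_eraseLabs_nil, List.map_cons]
    have h1 : eraseLabs [a] (a.mate :: v) = v := by
      have : a.mate :: v = [a.mate] ++ v := rfl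
      rw [this, eraseLabs_append, eraseLabs_all (by simp), List.nil_append, eraseLabs_self]
      intro b hb c hc
      rw [List.mem_singleton.mp hc]
      exact (ha b (by rw [List.flatten_cons]; exact List.mem_append_left _ hb)).symm
    rw [h1]
    congr 1
    conv_rhs => rw [← List.map_id R]
    refine List.map_congr_left fun r hr => ?_
    rw [id, eraseLabs_self]
    intro b hb c hc
    rw [List.mem_singleton.mp hc]
    exact (ha b (by
      rw [List.flatten_cons]
      exact List.mem_append_right _ (List.mem_flatten.mpr ⟨r, hr, hb⟩))).symm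
  exact hm

/-- a split unknot kills the Conway polynomial -/
lemma IsConway.circle (hP : IsConway P) {v : List Letter} {R : Code}
    (h : Diagram (v :: R)) : P ([] :: v :: R) = 0 := by
  obtain ⟨x, hx⟩ := exists_fresh (v :: R).flatten
  set a : Letter := ⟨x, true, true⟩ with ha
  have h1 := hP.skein _ _ _ (h.kink a hx) (Skein.self a [] v R rfl)
  have h2 : P ((a :: a.mate :: v) :: R) = P (v :: R) := hP.kink h hx
  have h3 : P ((a.switch :: [] ++ a.mate.switch :: v) :: R) = P (v :: R) := by
    rw [Letter.mate_switch]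
    exact hP.kink h hx
  rw [h2, h3, sub_self] at h1
  exact (mul_eq_zero.mp h1.symm).resolve_left X_ne_zero

/-- the first passages have `top = s` -/
def Good (s : Bool) (w : List Letter) : Prop :=
  ∀ p c q, w = p ++ c :: q → c.top = s ∨ c.mate ∈ p

lemma Good.snoc {s : Bool} {w : List Letter} {c : Letter} (h : Good s w)
    (hc : c.top = s ∨ c.mate ∈ w) : Good s (w ++ [c]) := by
  intro p d q hpq
  rcases List.eq_nil_or_concat q with h0 | ⟨q', e, h0⟩
  · rw [h0] at hpq
    have h1 : p ++ [d] = w ++ [c] := hpq.symm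
    obtain ⟨h2, h3⟩ := List.append_inj' h1 rfl
    have h4 : d = c := by simpa using h3
    rw [h2, h4]
    exact hc
  · rw [h0] at hpq
    have h1 : w ++ [c] = (p ++ d :: q') ++ [e] := by rw [hpq]; simp
    obtain ⟨h2, _⟩ := List.append_inj' h1 rfl
    exact h p d q' h2

lemma Good.filter {s : Bool} {w : List Letter} (h : Good s w) (f : Letter → Bool)
    (hf : ∀ c, f c.mate = f c) : Good s (w.filter f) := by
  intro p c q hpq
  obtain ⟨l1, l2, h1, h2, h3⟩ := List.filter_eq_append_iff.mp hpq
  obtain ⟨m1, m2, h4, h5, h6, h7⟩ := List.filter_eq_cons_iff.mp h3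
  rcases h (l1 ++ m1) c m2 (by rw [h1, h4]; simp) with h8 | h8
  · exact Or.inl h8
  · right
    rw [← h2]
    have h9 : f c.mate = true := by rw [hf]; exact h6
    rcases List.mem_append.mp h8 with h10 | h10
    · exact List.mem_filter.mpr ⟨h10, h9⟩
    · exact absurd h9 (h5 _ h10)

lemma exists_first {s : Bool} : ∀ {w : List Letter}, ¬ (∀ c ∈ w, c.top = s) →
    ∃ p c q, w = p ++ c :: q ∧ (∀ d ∈ p, d.top = s) ∧ c.top ≠ s := by
  intro w
  induction w with
  | nil => intro h; exact absurd (by simp) h
  | cons a w ih =>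
    intro h
    by_cases ha : a.top = s
    · obtain ⟨p, c, q, h1, h2, h3⟩ := ih (fun hcon => h (by
        intro c hc
        rcases List.mem_cons.mp hc with rfl | hc
        · exact ha
        · exact hcon c hc))
      refine ⟨a :: p, c, q, by rw [h1]; rfl, ?_, h3⟩
      intro d hd
      rcases List.mem_cons.mp hd with rfl | hd
      · exact ha
      · exact h2 d hd
    · exact ⟨[], a, w, rfl, by simp, ha⟩

/-- trivialised diagrams -/
theorem IsConway.good (hP : IsConway P) (s : Bool) : ∀ (n : ℕ) (w : List Letter) (R : Code),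
    w.length ≤ n → Diagram (w :: R) → Good s w → P (w :: R) = if R = [] then 1 else 0 := by
  intro n
  induction n using Nat.strong_induction_on with
  | _ n ih =>
    intro w R hn h hg
    by_cases hall : ∀ c ∈ w, c.top = s
    · have hD := h.delete
      have h1 : P (w :: R) = P ([] :: R.map (eraseLabs w)) := by
        refine hP.move h hD.circle ?_
        have hm := Move.arc s w [] [] [] R (R.map (eraseLabs w)) hall (by simp) (by
          rw [map_eraseLabs_nil, List.map_cons]
          rfl)
        rw [List.append_nil] at hm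
        exact hm
      rw [h1]
      rcases R with _ | ⟨r, R⟩
      · rw [if_pos rfl]
        exact hP.unknot
      · rw [if_neg (by simp)]
        exact hP.circle hD
    · obtain ⟨p, c, q, hw, hp, hc⟩ := exists_first hall
      rcases hg p c q hw with h0 | h0
      · exact absurd h0 hc
      obtain ⟨p1, p2, hpp⟩ := List.append_of_mem h0
      set a := c.mate with ha
      have hca : c = a.mate := by rw [ha, Letter.mate_mate]
      have hw' : w = p1 ++ (a :: p2 ++ a.mate :: q) := by
        rw [hw, hpp, hca]; simp
      rw [hw'] at h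
      have hD1 : Diagram ((a :: p2 ++ a.mate :: (q ++ p1)) :: R) := by
        have := h.rotate
        have he : (a :: p2 ++ a.mate :: q) ++ p1 = a :: p2 ++ a.mate :: (q ++ p1) := by simp
        rwa [he] at this
      have e1 : P (w :: R) = P ((a :: p2 ++ a.mate :: (q ++ p1)) :: R) := by
        rw [hw', hP.rotate h]
        congr 2
        simp
      have hf := hD1.1.self_facts
      have hD2 : Diagram (p2 :: (q ++ p1) :: R) := hD1.smooth_self
      have hD3 : Diagram (eraseLabs p2 (q ++ p1) :: R.map (eraseLabs p2)) := hD2.delete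
      have e2 : P ((a :: p2 ++ a.mate :: (q ++ p1)) :: R)
          = P (eraseLabs p2 (q ++ p1) :: R.map (eraseLabs p2)) := by
        refine hP.move hD1 hD3 ?_
        have hm := Move.arc s (a :: p2) [] (a.mate :: (q ++ p1)) (eraseLabs p2 (q ++ p1)) R
          (R.map (eraseLabs p2)) (by
            intro d hd
            refine hp d ?_
            rw [hpp]
            exact List.mem_append_right _ hd) (by simp) (by
            rw [map_eraseLabs_nil, List.map_cons]
            congr 1
            · have : a.mate :: (q ++ p1) = [a.mate] ++ (q ++ p1) := rfl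
              rw [this, eraseLabs_append, eraseLabs_all (by simp), List.nil_append,
                eraseLabs_cons_left]
              intro b hb
              exact hf b (Or.inr (Or.inl hb))
            · refine List.map_congr_left fun r hr => ?_
              rw [eraseLabs_cons_left]
              intro b hb
              exact hf b (Or.inr (Or.inr (List.mem_flatten.mpr ⟨r, hr, hb⟩))))
        rw [List.nil_append] at hm
        exact hm
      rw [eraseLabs_append] at hD3 e2
      have e3 := hP.rotate hD3
      have hD4 := hD3.rotate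
      have hlen : (eraseLabs p2 p1 ++ eraseLabs p2 q).length < n := by
        have l1 : (eraseLabs p2 p1).length ≤ p1.length := List.length_filter_le _ _
        have l2 : (eraseLabs p2 q).length ≤ q.length := List.length_filter_le _ _
        have l3 : w.length = p1.length + (p2.length + 1 + (q.length + 1)) := by
          rw [hw']; simp; omega
        rw [List.length_append]
        omega
      have hgood : Good s (eraseLabs p2 p1 ++ eraseLabs p2 q) := by
        have hg' := hg.filter (fun b => !((a :: p2).map Letter.lab).contains b.lab)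
          (fun c => rfl)
        have : w.filter (fun b => !((a :: p2).map Letter.lab).contains b.lab)
            = eraseLabs p2 p1 ++ eraseLabs p2 q := by
          change eraseLabs (a :: p2) w = _
          have hsplit : w = p1 ++ ((a :: p2) ++ ([a.mate] ++ q)) := by rw [hw']; simp
          rw [hsplit, eraseLabs_append, eraseLabs_append, eraseLabs_append,
            eraseLabs_all (w := a :: p2) (fun b hb => ⟨b, hb, rfl⟩),
            eraseLabs_all (w := [a.mate]) (by simp), List.nil_append, List.nil_append,
            eraseLabs_cons_left (w := p1) (fun b hb => hf b (Or.inr (Or.inl (by simp [hb])))),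
            eraseLabs_cons_left (w := q) (fun b hb => hf b (Or.inr (Or.inl (by simp [hb]))))]
        rwa [this] at hg'
      rw [e1, e2, e3, ih _ hlen _ _ le_rfl hD4 hgood]
      by_cases hR : R = []
      · simp [hR]
      · rw [if_neg hR, if_neg (by simp [hR])]

/-- comparison of coefficients in a skein relation -/
lemma coeff_step {p₁ p₂ p₀ : ℤ[X]} (h : p₁ - p₂ = X * p₀ ∨ p₂ - p₁ = X * p₀) (k : ℕ) :
    (p₁.coeff k).natAbs ≤ (p₂.coeff k).natAbs + (if k = 0 then 0 else (p₀.coeff (k - 1)).natAbs) := by
  rcases k with _ | k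
  · rw [if_pos rfl]
    rcases h with h | h
    · have := congrArg (fun p => p.coeff 0) h
      simp only [coeff_sub, coeff_X_mul_zero] at this
      omega
    · have := congrArg (fun p => p.coeff 0) h
      simp only [coeff_sub, coeff_X_mul_zero] at this
      omega
  · rw [if_neg (by omega), Nat.add_sub_cancel]
    rcases h with h | h
    · have := congrArg (fun p => p.coeff (k + 1)) h
      simp only [coeff_sub, coeff_X_mul] at this
      omega
    · have := congrArg (fun p => p.coeff (k + 1)) h
      simp only [coeff_sub, coeff_X_mul] at this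
      omega

lemma swL_map_self {x : ℕ} {w : List Letter} (h : ∀ b ∈ w, b.lab ≠ x) :
    w.map (swL {x}) = w := by
  conv_rhs => rw [← List.map_id w]
  refine List.map_congr_left fun b hb => ?_
  unfold swL
  rw [if_neg (by simpa using h b hb)]
  rfl

lemma swL_map_code {x : ℕ} {R : Code} (h : ∀ b ∈ R.flatten, b.lab ≠ x) :
    R.map (List.map (swL {x})) = R := by
  conv_rhs => rw [← List.map_id R]
  refine List.map_congr_left fun w hw => ?_
  rw [swL_map_self fun b hb => h b (List.mem_flatten.mpr ⟨w, hw, hb⟩)]
  rfl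

lemma swL_self (a : Letter) : swL {a.lab} a = a.switch := by
  unfold swL; rw [if_pos (by simp)]

lemma swL_mate_self (a : Letter) : swL {a.lab} a.mate = a.mate.switch := by
  unfold swL; rw [if_pos (by simp)]

section steps

variable {a : Letter} {u v : List Letter} {R : Code}

lemma Diagram.switch_self (h : Diagram ((a :: u ++ a.mate :: v) :: R)) :
    Diagram ((a.switch :: u ++ a.mate.switch :: v) :: R) := by
  have hf := h.1.self_facts
  have h1 := h.switch {a.lab}
  rw [List.map_cons, List.map_append, List.map_cons, List.map_cons, swL_self, swL_mate_self,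
    swL_map_self (fun b hb => hf b (Or.inl hb)),
    swL_map_self (fun b hb => hf b (Or.inr (Or.inl hb))),
    swL_map_code (fun b hb => hf b (Or.inr (Or.inr hb)))] at h1
  exact h1

lemma Diagram.switch_mixed (h : Diagram ((a :: u) :: (a.mate :: v) :: R)) :
    Diagram ((a.switch :: u) :: (a.mate.switch :: v) :: R) := by
  have hf := h.1.mixed_facts
  have h1 := h.switch {a.lab}
  rw [List.map_cons, List.map_cons, List.map_cons, List.map_cons, swL_self, swL_mate_self,
    swL_map_self (fun b hb => hf b (Or.inl hb)),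
    swL_map_self (fun b hb => hf b (Or.inr (Or.inl hb))),
    swL_map_code (fun b hb => hf b (Or.inr (Or.inr hb)))] at h1
  exact h1

lemma IsConway.skein_self (hP : IsConway P) (h : Diagram ((a :: u ++ a.mate :: v) :: R)) :
    P ((a :: u ++ a.mate :: v) :: R) - P ((a.switch :: u ++ a.mate.switch :: v) :: R)
        = X * P (u :: v :: R) ∨
      P ((a.switch :: u ++ a.mate.switch :: v) :: R) - P ((a :: u ++ a.mate :: v) :: R)
        = X * P (u :: v :: R) := by
  cases hpos : a.pos
  · right
    have h1 := h.switch_self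
    rw [Letter.mate_switch] at h1 ⊢
    have h2 := hP.skein _ _ _ h1 (Skein.self a.switch u v R (by simp [hpos]))
    rw [Letter.switch_switch, Letter.mate_switch, Letter.switch_switch] at h2
    exact h2
  · left
    exact hP.skein _ _ _ h (Skein.self a u v R hpos)

lemma IsConway.skein_mixed (hP : IsConway P) (h : Diagram ((a :: u) :: (a.mate :: v) :: R)) :
    P ((a :: u) :: (a.mate :: v) :: R) - P ((a.switch :: u) :: (a.mate.switch :: v) :: R)
        = X * P ((u ++ v) :: R) ∨
      P ((a.switch :: u) :: (a.mate.switch :: v) :: R) - P ((a :: u) :: (a.mate :: v) :: R)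
        = X * P ((u ++ v) :: R) := by
  cases hpos : a.pos
  · right
    have h1 := h.switch_mixed
    rw [Letter.mate_switch] at h1 ⊢
    have h2 := hP.skein _ _ _ h1 (Skein.mixed a.switch u v R (by simp [hpos]))
    rw [Letter.switch_switch, Letter.mate_switch, Letter.switch_switch] at h2
    exact h2
  · left
    exact hP.skein _ _ _ h (Skein.mixed a u v R hpos)

/-- the step at a self-crossing of the first component -/
lemma IsConway.step_self (hP : IsConway P) {p : List Letter}
    (h : Diagram ((p ++ (a :: u ++ a.mate :: v)) :: R)) (k : ℕ) :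
    Diagram ((p ++ v) :: u :: R) ∧
    ((P ((p ++ (a :: u ++ a.mate :: v)) :: R)).coeff k).natAbs ≤
      ((P ((p ++ (a.switch :: u ++ a.mate.switch :: v)) :: R)).coeff k).natAbs +
        (if k = 0 then 0 else ((P ((p ++ v) :: u :: R)).coeff (k - 1)).natAbs) := by
  have he : (a :: u ++ a.mate :: v) ++ p = a :: u ++ a.mate :: (v ++ p) := by simp
  have he' : (a.switch :: u ++ a.mate.switch :: v) ++ p
      = a.switch :: u ++ a.mate.switch :: (v ++ p) := by simp
  have hD1 : Diagram ((a :: u ++ a.mate :: (v ++ p)) :: R) := by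
    have := h.rotate; rwa [he] at this
  have hD2 := hD1.switch_self
  have e1 : P ((p ++ (a :: u ++ a.mate :: v)) :: R) = P ((a :: u ++ a.mate :: (v ++ p)) :: R) := by
    rw [hP.rotate h, he]
  have e2 : P ((p ++ (a.switch :: u ++ a.mate.switch :: v)) :: R)
      = P ((a.switch :: u ++ a.mate.switch :: (v ++ p)) :: R) := by
    rw [← he'] at hD2 ⊢
    rw [hP.rotate hD2]
  have hD0 := hD1.smooth_self
  have hp1 : List.Perm (u :: (v ++ p) :: R) ((v ++ p) :: u :: R) := List.Perm.swap _ _ _
  have hD3 := hD0.perm hp1
  have e3 : P (u :: (v ++ p) :: R) = P ((p ++ v) :: u :: R) := by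
    rw [hP.perm hD0 hp1, hP.rotate hD3]
  refine ⟨hD3.rotate, ?_⟩
  rw [e1, e2, ← e3]
  exact coeff_step (hP.skein_self hD1) k

/-- the step at a crossing of the first component with another one -/
lemma IsConway.step_mixed (hP : IsConway P) {p s r₁ r₂ : List Letter} {R₁ R₂ : Code}
    (h : Diagram ((p ++ a :: s) :: (R₁ ++ (r₁ ++ a.mate :: r₂) :: R₂))) (k : ℕ) :
    Diagram ((p ++ (r₂ ++ (r₁ ++ s))) :: (R₁ ++ R₂)) ∧
    ((P ((p ++ a :: s) :: (R₁ ++ (r₁ ++ a.mate :: r₂) :: R₂))).coeff k).natAbs ≤
      ((P ((p ++ a.switch :: s) :: (R₁ ++ (r₁ ++ a.mate.switch :: r₂) :: R₂))).coeff k).natAbs +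
        (if k = 0 then 0 else
          ((P ((p ++ (r₂ ++ (r₁ ++ s))) :: (R₁ ++ R₂))).coeff (k - 1)).natAbs) := by
  -- normal form
  have key : ∀ (b c : Letter),
      Diagram ((p ++ b :: s) :: (R₁ ++ (r₁ ++ c :: r₂) :: R₂)) →
      Diagram ((b :: (s ++ p)) :: (c :: (r₂ ++ r₁)) :: (R₁ ++ R₂)) ∧
      P ((p ++ b :: s) :: (R₁ ++ (r₁ ++ c :: r₂) :: R₂))
        = P ((b :: (s ++ p)) :: (c :: (r₂ ++ r₁)) :: (R₁ ++ R₂)) := by
    intro b c h
    have h1 := h.rotate
    have e1 := hP.rotate h
    have hp1 : List.Perm ((b :: s ++ p) :: (R₁ ++ (r₁ ++ c :: r₂) :: R₂))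
        ((r₁ ++ c :: r₂) :: (b :: s ++ p) :: (R₁ ++ R₂)) := by
      refine ((List.perm_middle).cons _).trans (List.Perm.swap _ _ _)
    have h2 := h1.perm hp1
    have e2 := hP.perm h1 hp1
    have h3 := h2.rotate
    have e3 := hP.rotate h2
    have h4 := h3.perm (List.Perm.swap _ _ _)
    have e4 := hP.perm h3 (List.Perm.swap _ _ _)
    exact ⟨h4, by rw [e1, e2, e3, e4]; rfl⟩
  obtain ⟨hD1, e1⟩ := key a a.mate h
  have hD2 := hD1.switch_mixed
  -- going back
  have key' : ∀ (b c : Letter),
      Diagram ((b :: (s ++ p)) :: (c :: (r₂ ++ r₁)) :: (R₁ ++ R₂)) →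
      Diagram ((p ++ b :: s) :: (R₁ ++ (r₁ ++ c :: r₂) :: R₂)) := by
    intro b c h
    have h1 := h.perm (List.Perm.swap _ _ _)
    have h2 : Diagram (((c :: r₂) ++ r₁) :: (b :: (s ++ p)) :: (R₁ ++ R₂)) := h1
    have h3 := h2.rotate.perm (List.Perm.swap _ _ _)
    have h4 : Diagram (((b :: s) ++ p) :: (r₁ ++ c :: r₂) :: (R₁ ++ R₂)) := h3
    exact h4.rotate.perm ((List.perm_middle.symm).cons _)
  obtain ⟨_, e2⟩ := key a.switch a.mate.switch (key' _ _ hD2)
  have hD0 := hD1.smooth_mixed
  have ha : (s ++ p) ++ (r₂ ++ r₁) = s ++ (p ++ (r₂ ++ r₁)) := by simp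
  have hb : (p ++ (r₂ ++ r₁)) ++ s = p ++ (r₂ ++ (r₁ ++ s)) := by simp
  rw [ha] at hD0
  have hD3 := hD0.rotate
  have e3 := hP.rotate hD0
  rw [hb] at hD3 e3
  refine ⟨hD3, ?_⟩
  rw [e1, e2, ← e3, ← ha]
  exact coeff_step (hP.skein_mixed hD1) k

end steps

end Pool.Agent.Work.MP_63d866_gt
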