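import Pool.Agent.Work.MP_63d866_gt.Interlace
import Pool.Agent.Work.MP_63d866_gt.Elim

/-! Smoothed walks give positive kernel vectors. -/

namespace Pool.Agent.Work.MP_63d866_gt

open Finset

/-- where one arrives in the word after the passage `c`, if the crossings in `T` are smoothed -/
def exit (W : List Letter) (T : Finset ℕ) (c : Letter) : ℕ :=
  if c.lab ∈ T then W.idxOf c.mate + 1 else W.idxOf c + 1

/-- `l` is the walk through `W` smoothed at `T`, and it runs through everything -/
structure Walk (W : List Letter) (T : Finset ℕ) (l : List Letter) : Prop where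
  perm : l.Perm W
  along : Along (fun c => W.idxOf c) (exit W T) 0 l W.length

/-- the first passage of `u` in `l` has `top = t` -/
def FirstTop (l : List Letter) (u : ℕ) (t : Bool) : Prop :=
  ∃ l₁ a Q l₂, l = l₁ ++ a :: (Q ++ a.mate :: l₂) ∧ a.lab = u ∧ a.top = t

/-- rapidly decreasing weights -/
noncomputable def bet (W : List Letter) (u : ℕ) : ℝ :=
  ((labs W).card + 1 : ℝ) ^ (W.length - min (W.idxOf (ovl W u)) (W.idxOf (unl W u)))

/-- signed weights -/
noncomputable def bb (W : List Letter) (u : ℕ) : ℝ :=
  if W.idxOf (ovl W u) < W.idxOf (unl W u) then bet W u else - bet W u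

/-- the jumps along the walk -/
noncomputable def dl (W : List Letter) (T : Finset ℕ) (c : Letter) : ℝ :=
  if c.lab ∈ T then (if c.top then - bb W c.lab else bb W c.lab) else 0

variable {W : List Letter} {T : Finset ℕ} {l : List Letter}

lemma bet_pos (W : List Letter) (u : ℕ) : 0 < bet W u := by unfold bet; positivity

lemma dl_mate (a : Letter) : dl W T a.mate = - dl W T a := by
  unfold dl
  cases h : a.top <;> simp [h] <;> split_ifs <;> simp

lemma dl_first (h : LinWord W) {c : Letter} (hc : c ∈ W) (hT : c.lab ∈ T)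
    (hlt : W.idxOf c.mate < W.idxOf c) : dl W T c = bet W c.lab := by
  unfold dl bb
  rw [if_pos hT]
  rcases letter_cases h hc with ⟨h1, h2⟩ | ⟨h1, h2⟩
  · have h3 : c.mate = unl W c.lab := by rw [h2]; rfl
    rw [h3, h2] at hlt
    simp only [ovl_lab] at hlt
    rw [if_pos h1, if_neg hlt.not_gt, neg_neg]
  · have h3 : c.mate = ovl W c.lab := by rw [h2]; simp
    rw [h3, h2] at hlt
    simp only [unl_lab] at hlt
    rw [if_neg (by simp [h1]), if_pos hlt]

lemma dl_ge (W : List Letter) (T : Finset ℕ) (c : Letter) : - bet W c.lab ≤ dl W T c := by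
  have := bet_pos W c.lab
  unfold dl bb
  split_ifs <;> linarith

lemma bet_eq (h : LinWord W) {c : Letter} (hc : c ∈ W) :
    bet W c.lab = ((labs W).card + 1 : ℝ) ^ (W.length - min (W.idxOf c) (W.idxOf c.mate)) := by
  unfold bet
  rcases letter_cases h hc with ⟨h1, h2⟩ | ⟨h1, h2⟩
  · have h3 : c.mate = unl W c.lab := by rw [h2]; rfl
    rw [h3, ← h2]
  · have h3 : c.mate = ovl W c.lab := by rw [h2]; simp
    rw [h3, ← h2, min_comm]

lemma sum_along {Y : Type} {i o : Letter → Y} {Φ : Y → ℝ} {δ : Letter → ℝ} {y₀ y₁ : Y}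
    {u : List Letter} (h : Along i o y₀ u y₁) (hΦ : ∀ a ∈ u, Φ (o a) = Φ (i a) + δ a) :
    Φ y₁ = Φ y₀ + (u.map δ).sum := by
  induction u generalizing y₀ with
  | nil => rw [along_nil] at h; subst h; simp
  | cons a u ih =>
    obtain ⟨h1, h2⟩ := h
    rw [ih h2 (fun b hb => hΦ b (by simp [hb])), hΦ a (by simp), h1, List.map_cons,
      List.sum_cons]
    ring

/-- the sum of the jumps between the two visits of a smoothed crossing is positive -/
lemma seg_pos (h : LinWord W) (hw : Walk W T l) {l₁ Q l₂ : List Letter} {a : Letter}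
    (hl : l = l₁ ++ a :: (Q ++ a.mate :: l₂)) (ha : a.lab ∈ T) :
    0 < (Q.map (dl W T)).sum := by
  classical
  set b := a.mate with hb
  have hnd : l.Nodup := hw.perm.nodup_iff.mpr h.nodup
  have hmem : ∀ c ∈ l, c ∈ W := fun c hc => hw.perm.mem_iff.mp hc
  have hbl : b ∈ l := by rw [hl]; simp
  have hseg : Along (fun c => W.idxOf c) (exit W T) (exit W T a) (Q ++ [b]) (exit W T b) := by
    have h1 := hw.along
    rw [hl] at h1
    obtain ⟨m, _, h2⟩ := along_append.mp h1
    obtain ⟨_, h3⟩ := along_cons.mp h2
    obtain ⟨m', h4, h5⟩ := along_append.mp h3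
    obtain ⟨h6, _⟩ := along_cons.mp h5
    exact along_append.mpr ⟨m', h4, h6, rfl⟩
  have hea : exit W T a = W.idxOf b + 1 := by unfold exit; rw [if_pos ha]
  have hsubl : List.Sublist (Q ++ [b]) l := by
    rw [hl]
    refine List.Sublist.trans ?_ (List.sublist_append_right l₁ _)
    refine List.Sublist.cons _ ?_
    have : Q ++ b :: l₂ = (Q ++ [b]) ++ l₂ := by simp
    rw [this]
    exact List.sublist_append_left _ _
  have hqnd : (Q ++ [b]).Nodup := hnd.sublist hsubl
  have hqmem : ∀ c ∈ Q ++ [b], c ∈ W := fun c hc => hmem c (hsubl.subset hc)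
  obtain ⟨cs, hcs, hmin⟩ := Finset.exists_min_image (Q ++ [b]).toFinset (fun c => W.idxOf c)
    ⟨b, by simp⟩
  rw [List.mem_toFinset] at hcs
  have hmin' : ∀ c ∈ Q ++ [b], W.idxOf cs ≤ W.idxOf c := fun c hc =>
    hmin c (List.mem_toFinset.mpr hc)
  obtain ⟨A1, A2, hA⟩ := List.append_of_mem hcs
  -- the predecessor of `cs`
  obtain ⟨A0, c', hA1⟩ : ∃ A0 c', A1 = A0 ++ [c'] := by
    rcases List.eq_nil_or_concat A1 with h0 | ⟨A0, c', h0⟩
    · exfalso
      rw [hA, h0] at hseg
      have h1 : W.idxOf cs = exit W T a := hseg.1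
      have h2 := hmin' b (by simp)
      omega
    · exact ⟨A0, c', by simpa using h0⟩
  have hA' : Q ++ [b] = A0 ++ (c' :: cs :: A2) := by rw [hA, hA1]; simp
  have hpred : W.idxOf cs = exit W T c' := by
    rw [hA'] at hseg
    obtain ⟨m, _, h2⟩ := along_append.mp hseg
    exact h2.2.1
  have hc'q : c' ∈ Q ++ [b] := by rw [hA']; simp
  have hc'b : c' ≠ b := by
    intro heq
    -- `b` is the last letter
    have h1 : (cs :: A2) ≠ [] := by simp
    have h2 : (Q ++ [b]).getLast (by simp) = (cs :: A2).getLast h1 := by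
      have : Q ++ [b] = (A0 ++ [c']) ++ (cs :: A2) := by rw [hA']; simp
      simp only [this]
      rw [List.getLast_append_of_ne_nil _ h1]
    rw [List.getLast_append_singleton] at h2
    have h3 : b ∈ cs :: A2 := by rw [h2]; exact List.getLast_mem h1
    rw [hA'] at hqnd
    have h4 := (List.nodup_append.mp hqnd).2.1
    rw [List.nodup_cons] at h4
    exact h4.1 (heq ▸ h3)
  have hc'Q : c' ∈ Q := by
    rcases List.mem_append.mp hc'q with h1 | h1
    · exact h1
    · exact absurd (by simpa using h1) hc'b
  have hc'W : c' ∈ W := hqmem c' hc'q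
  have hc'min := hmin' c' hc'q
  have hc'T : c'.lab ∈ T := by
    by_contra hcon
    unfold exit at hpred
    rw [if_neg hcon] at hpred
    omega
  have hpm : W.idxOf cs = W.idxOf c'.mate + 1 := by
    unfold exit at hpred
    rw [if_pos hc'T] at hpred
    exact hpred
  set m := c'.mate with hm
  have hmW : m ∈ W := h.mate _ hc'W
  have hmQ : m ∉ Q ++ [b] := by
    intro hcon
    have := hmin' m hcon
    omega
  have hmlt : W.idxOf m < W.length := List.idxOf_lt_length_of_mem hmW
  set K : ℝ := ((labs W).card + 1 : ℝ) with hK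
  have hK1 : 1 ≤ K := by rw [hK]; have : (0 : ℝ) ≤ (labs W).card := by positivity
                         linarith
  set E := W.length - W.idxOf m - 1 with hE
  have hbw : dl W T c' = K ^ (E + 1) := by
    have hlt : W.idxOf m < W.idxOf c' := by omega
    rw [dl_first h hc'W hc'T (by rw [← hm]; exact hlt), bet_eq h hc'W, ← hm]
    congr 1
    rw [min_eq_right hlt.le]
    omega
  -- split the sum
  have hQnd : Q.Nodup := (List.nodup_append.mp hqnd).1
  have hsum : (Q.map (dl W T)).sum = ∑ c ∈ Q.toFinset, dl W T c :=
    (List.sum_toFinset _ hQnd).symm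
  have hQW : ∀ c ∈ Q, c ∈ W := fun c hc => hqmem c (by simp [hc])
  rw [hsum, ← sum_fiberwise_of_maps_to (g := Letter.lab) (t := labs W)
    (fun c hc => lab_mem (hQW c (List.mem_toFinset.mp hc)))]
  have hwl : c'.lab ∈ labs W := lab_mem hc'W
  rw [← add_sum_erase _ _ hwl]
  have hfirst : ∑ c ∈ Q.toFinset.filter (fun c => c.lab = c'.lab), dl W T c = K ^ (E + 1) := by
    have : Q.toFinset.filter (fun c => c.lab = c'.lab) = {c'} := by
      ext c
      simp only [mem_filter, List.mem_toFinset, mem_singleton]
      constructor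
      · rintro ⟨h1, h2⟩
        rcases h.lab c' hc'W c (hQW c h1) h2.symm with h3 | h3
        · exact h3
        · exact absurd (by rw [← hm] at h3; rw [h3] at h1; simp [h1]) hmQ
      · rintro rfl
        exact ⟨hc'Q, rfl⟩
    rw [this, sum_singleton, hbw]
  rw [hfirst]
  have hother : ∀ v ∈ (labs W).erase c'.lab,
      - K ^ E ≤ ∑ c ∈ Q.toFinset.filter (fun c => c.lab = v), dl W T c := by
    intro v hv
    have hvl := mem_of_mem_erase hv
    have hvne := ne_of_mem_erase hv
    have hKE : 0 ≤ K ^ E := by positivity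
    have hfil : Q.toFinset.filter (fun c => c.lab = v)
        = ({ovl W v, unl W v} : Finset Letter).filter (fun c => c ∈ Q) := by
      rw [← filter_lab h hvl]
      ext c
      simp only [mem_filter, List.mem_toFinset]
      constructor
      · rintro ⟨h1, h2⟩; exact ⟨⟨hQW c h1, h2⟩, h1⟩
      · rintro ⟨⟨_, h1⟩, h2⟩; exact ⟨h2, h1⟩
    -- a single letter
    have hsingle : ∀ c ∈ Q, c.lab = v → c.mate ∉ Q → - K ^ E ≤ dl W T c := by
      intro c hcQ hcv hcm
      by_cases hcT : c.lab ∈ T
      · refine le_trans (neg_le_neg ?_) (dl_ge W T c)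
        have hcW := hQW c hcQ
        have hcmW := h.mate c hcW
        rw [bet_eq h hcW]
        refine pow_le_pow_right₀ hK1 ?_
        have h1 : W.idxOf m < W.idxOf c := by
          have := hmin' c (by simp [hcQ]); omega
        have h2 : W.idxOf m < W.idxOf c.mate := by
          -- the letter after `c`
          obtain ⟨B1, B2, hB⟩ := List.append_of_mem hcQ
          have h3 : Q ++ [b] = B1 ++ (c :: (B2 ++ [b])) := by rw [hB]; simp
          rw [h3] at hseg
          obtain ⟨m', _, h4⟩ := along_append.mp hseg
          have h5 := h4.2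
          have h6 : ∃ d ∈ Q ++ [b], W.idxOf d = exit W T c := by
            rcases hB2 : B2 ++ [b] with _ | ⟨d, B3⟩
            · simp at hB2
            · rw [hB2] at h5
              exact ⟨d, by rw [h3, hB2]; simp, h5.1⟩
          obtain ⟨d, hd, hde⟩ := h6
          have h7 := hmin' d hd
          unfold exit at hde
          rw [if_pos hcT] at hde
          have h8 : W.idxOf m ≤ W.idxOf c.mate := by omega
          refine lt_of_le_of_ne h8 fun heq => ?_
          have h9 := idx_inj hmW heq
          have h10 : c' = c := Letter.mate_inj h9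
          exact hvne (by rw [← hcv, h10])
        omega
      · unfold dl
        rw [if_neg hcT]
        linarith
    rw [hfil]
    by_cases ho : ovl W v ∈ Q
    · by_cases hu : unl W v ∈ Q
      · have : ({ovl W v, unl W v} : Finset Letter).filter (fun c => c ∈ Q)
            = {ovl W v, unl W v} := by
          rw [filter_eq_self]
          intro c hc
          simp only [mem_insert, mem_singleton] at hc
          rcases hc with rfl | rfl <;> assumption
        rw [this, sum_pair (ovl_ne_unl W v v), ← ovl_mate, dl_mate]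
        linarith
      · have : ({ovl W v, unl W v} : Finset Letter).filter (fun c => c ∈ Q) = {ovl W v} := by
          ext c
          simp only [mem_filter, mem_insert, mem_singleton]
          constructor
          · rintro ⟨rfl | rfl, h1⟩
            · rfl
            · exact absurd h1 hu
          · rintro rfl; exact ⟨Or.inl rfl, ho⟩
        rw [this, sum_singleton]
        exact hsingle _ ho rfl hu
    · by_cases hu : unl W v ∈ Q
      · have : ({ovl W v, unl W v} : Finset Letter).filter (fun c => c ∈ Q) = {unl W v} := by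
          ext c
          simp only [mem_filter, mem_insert, mem_singleton]
          constructor
          · rintro ⟨rfl | rfl, h1⟩
            · exact absurd h1 ho
            · rfl
          · rintro rfl; exact ⟨Or.inr rfl, hu⟩
        rw [this, sum_singleton]
        exact hsingle _ hu rfl (by rw [unl_mate]; exact ho)
      · have : ({ovl W v, unl W v} : Finset Letter).filter (fun c => c ∈ Q) = ∅ := by
          rw [filter_eq_empty_iff]
          intro c hc
          simp only [mem_insert, mem_singleton] at hc
          rcases hc with rfl | rfl <;> assumption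
        rw [this, sum_empty]
        linarith
  have hlow : - (((labs W).erase c'.lab).card : ℝ) * K ^ E
      ≤ ∑ v ∈ (labs W).erase c'.lab,
        ∑ c ∈ Q.toFinset.filter (fun c => c.lab = v), dl W T c := by
    have := sum_le_sum hother
    rw [sum_const, nsmul_eq_mul] at this
    linarith
  have hcard : (((labs W).erase c'.lab).card : ℝ) ≤ (labs W).card := by
    exact_mod_cast card_le_card (erase_subset _ _)
  have hKE : 0 < K ^ E := by positivity
  have hfin : K ^ (E + 1) = ((labs W).card + 1) * K ^ E := by rw [pow_succ, hK]; ring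
  rw [hfin]
  nlinarith

theorem walk_kernel (h : LinWord W) (hT : T ⊆ labs W) (hw : Walk W T l) (t : Bool) :
    ∃ x : ℕ → ℝ, (∀ u, u ∉ T → x u = 0) ∧
      (∀ u ∈ T, ∑ v ∈ labs W, BB W u v * x v + bb W u * sg t = 0) ∧
      ∀ u ∈ T, FirstTop l u t → 0 < x u := by
  classical
  have hnd : l.Nodup := hw.perm.nodup_iff.mpr h.nodup
  have hmem : ∀ c, c ∈ l ↔ c ∈ W := fun c => hw.perm.mem_iff
  set δ : Letter → ℝ := fun c => sg t * dl W T c with hδ
  obtain ⟨Φ, hΦ0, _, hΦ⟩ := exists_potential δ W.length l 0 0 hw.along
    (hnd.map_on fun a ha b hb hab => idx_inj ((hmem a).mp ha) hab)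
    (by
      intro hcon
      obtain ⟨a, ha, hl⟩ := List.mem_map.mp hcon
      have := List.idxOf_lt_length_of_mem ((hmem a).mp ha)
      omega)
  have hΦ' : ∀ c ∈ W, Φ (exit W T c) = Φ (W.idxOf c) + δ c := fun c hc => hΦ c ((hmem c).mpr hc)
  set x : ℕ → ℝ := fun u =>
    if u ∈ T then Φ (W.idxOf (ovl W u) + 1) - Φ (W.idxOf (ovl W u)) else 0 with hx
  have hδm : ∀ c, δ c.mate = - δ c := fun c => by simp only [hδ, dl_mate]; ring
  -- exits of smoothed crossings
  have hexT : ∀ c ∈ W, c.lab ∈ T → Φ (W.idxOf c.mate + 1) = Φ (W.idxOf c) + δ c := by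
    intro c hc hcT
    have := hΦ' c hc
    unfold exit at this
    rw [if_pos hcT] at this
    exact this
  have hjump : ∀ c ∈ W, Φ (W.idxOf c + 1) = Φ (W.idxOf c) + jump x c := by
    intro c hc
    by_cases hcT : c.lab ∈ T
    · rcases letter_cases h hc with ⟨h1, h2⟩ | ⟨h1, h2⟩
      · simp only [jump, h1, if_true, hx, hcT]
        rw [← h2]; ring
      · simp only [jump, h1, if_false, hx, hcT, Bool.false_eq_true, if_true]
        have ho : ovl W c.lab = c.mate := by rw [h2]; simp
        rw [ho]
        have h3 := hexT c hc hcT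
        have h4 := hexT c.mate (h.mate c hc) hcT
        rw [Letter.mate_mate, hδm] at h4
        linarith
    · have h3 := hΦ' c hc
      unfold exit at h3
      rw [if_neg hcT] at h3
      have h4 : δ c = 0 := by simp [hδ, dl, hcT]
      have h5 : jump x c = 0 := by simp [jump, hx, hcT]
      rw [h3, h4, h5]
  have hPhi : ∀ j, j ≤ W.length → Φ j = Phi W x j := by
    intro j
    induction j with
    | zero => intro _; rw [hΦ0, Phi_zero]
    | succ j ih =>
      intro hj
      have hjl : j < W.length := by omega
      have hcW : W[j] ∈ W := List.getElem_mem hjl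
      have hidx : W.idxOf W[j] = j := h.nodup.idxOf_getElem j hjl
      have h1 := hjump _ hcW
      have h2 := Phi_succ x hcW
      rw [hidx] at h1 h2
      rw [h1, h2, ih (by omega)]
  refine ⟨x, fun u hu => by simp [hx, hu], fun u hu => ?_, fun u hu hft => ?_⟩
  · have hul := hT hu
    rw [BB_sum h x hul]
    have ho := ovl_mem h hul
    have hun := unl_mem h hul
    have l1 := List.idxOf_lt_length_of_mem ho
    have l2 := List.idxOf_lt_length_of_mem hun
    rw [← hPhi _ (by omega), ← hPhi _ (by omega)]
    have h1 := hexT _ ho hu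
    rw [ovl_mate] at h1
    rw [h1]
    simp only [hδ, dl, ovl_lab, ovl_top, hu, if_true]
    ring
  · obtain ⟨l₁, a, Q, l₂, hl, hal, hat⟩ := hft
    have haT : a.lab ∈ T := by rw [hal]; exact hu
    have haW : a ∈ W := (hmem a).mp (by rw [hl]; simp)
    have hbW : a.mate ∈ W := h.mate a haW
    have hpos := seg_pos h hw hl haT
    -- potential along the segment
    have hsegm : Φ (W.idxOf a.mate) = Φ (W.idxOf a) + δ a + (Q.map δ).sum := by
      have h1 := hw.along
      rw [hl] at h1
      obtain ⟨m, _, h2⟩ := along_append.mp h1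
      obtain ⟨h3, h3'⟩ := along_cons.mp h2
      obtain ⟨m', h4, h5⟩ := along_append.mp h3'
      obtain ⟨h6, _⟩ := along_cons.mp h5
      have h7 := sum_along (Φ := Φ) (δ := δ) h4 (fun c hc => hΦ c (by rw [hl]; simp [hc]))
      rw [← h6] at h7
      rw [h7, hΦ a (by rw [hl]; simp)]
    have hmap : (Q.map δ).sum = sg t * (Q.map (dl W T)).sum := by
      rw [← List.sum_map_mul_left]
    have h8 := hexT a.mate hbW haT
    rw [Letter.mate_mate, hδm, hsegm, hmap] at h8
    have h9 := hjump a haW
    rcases letter_cases h haW with ⟨h1, h2⟩ | ⟨h1, h2⟩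
    · have ht : t = true := by rw [← hat, h1]
      have h10 : jump x a = x u := by simp [jump, h1, hal]
      rw [h10, h8, ht] at h9
      simp only [sg, if_true] at h9
      linarith
    · have ht : t = false := by rw [← hat, h1]
      have h10 : jump x a = - x u := by simp [jump, h1, hal]
      rw [h10, h8, ht] at h9
      simp only [sg, Bool.false_eq_true, if_false] at h9
      linarith

theorem walk_unique (h : LinWord W) (hT : T ⊆ labs W) (hw : Walk W T l) (y : ℕ → ℝ)
    (hy : ∀ u, u ∉ T → y u = 0) (hk : ∀ u ∈ T, ∑ v ∈ labs W, BB W u v * y v = 0) (u : ℕ) :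
    y u = 0 := by
  classical
  have hmem : ∀ c, c ∈ l ↔ c ∈ W := fun c => hw.perm.mem_iff
  have hex : ∀ c ∈ l, Phi W y (exit W T c) = Phi W y (W.idxOf c) := by
    intro c hc
    have hcW := (hmem c).mp hc
    unfold exit
    by_cases hcT : c.lab ∈ T
    · rw [if_pos hcT]
      have hul := hT hcT
      have h1 := hk _ hcT
      rw [BB_sum h y hul] at h1
      rcases letter_cases h hcW with ⟨h2, h3⟩ | ⟨h2, h3⟩
      · have h4 : c.mate = unl W c.lab := by rw [h3]; rfl
        rw [h4]
        rw [← h3] at h1
        linarith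
      · have h4 : c.mate = ovl W c.lab := by rw [h3]; simp
        rw [h4, Phi_succ y (ovl_mem h hul)]
        have h5 := Phi_succ y (unl_mem h hul)
        rw [h5, ← h3] at h1
        simp only [jump, ovl_top, ovl_lab, if_true, h2, Bool.false_eq_true, if_false] at h1 ⊢
        linarith
    · rw [if_neg hcT, Phi_succ y hcW]
      have : jump y c = 0 := by simp [jump, hy _ hcT]
      rw [this, add_zero]
  obtain ⟨h1, h2⟩ := const_potential hw.along hex
  by_cases hu : u ∈ T
  · have hul := hT hu
    have ho := ovl_mem h hul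
    have hun := unl_mem h hul
    have h3 := Phi_succ y ho
    have h4 := hex _ ((hmem _).mpr hun)
    unfold exit at h4
    rw [if_pos (by simpa using hu), unl_mate, h1 _ ((hmem _).mpr hun)] at h4
    rw [h4, h1 _ ((hmem _).mpr ho)] at h3
    simp only [jump, ovl_top, ovl_lab, if_true] at h3
    linarith
  · exact hy u hu

end Pool.Agent.Work.MP_63d866_gt
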